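import Pool.Agent.Lib_CSI.Res2
import Pool.Agent.Lib_MP_a0d45a_int.UDiagi
import Pool.Agent.Lib_MP_a0d45a_lc.Forc

/-!
# Preservation of stable ordered-union ultrafilters by abstract countable support iterations: definitions

`α` is a stage, `𝒰` a filter name of stage `α`, `p₀` forces (at stage `α`) that `𝒰` is (generates) a stable ordered-union ultrafilter (`SouAt`).
-/

set_option autoImplicit false

namespace Pool.Agent.CSI

open Pool.Agent.GGen Pool.Agent.HMod Pool.Agent.SOU Pool.Agent.SOUi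

variable (I : It)

/-- `p₀` forces at stage `δ` that `𝒰` generates a stable ordered-union ultrafilter -/
def It.SouAt (δ : Stg) (𝒰 : FN (Finset ℕ) I.C) (p₀ : I.C) : Prop :=
  Fo (P := I.PP δ) p₀ (fun g => Dir (P := I.PP δ) 𝒰 g ∧ IsSOUi g.M (evF (P := I.PP δ) 𝒰 g))

/-- `q` forces at stage `α` that `S` is in the filter `𝒰` -/
def It.InU (α : Stg) (𝒰 : FN (Finset ℕ) I.C) (q : I.C) (S : Finset ℕ → Set I.C) : Prop :=
  Fo (P := I.PP α) q (fun g => ev (P := I.PP α) S g ∈ evF (P := I.PP α) 𝒰 g)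

/-- `𝒰` (a name of stage `α`) generates an ultrafilter at stage `δ`, below `p₀` -/
def It.PresAt (α : Stg) (𝒰 : FN (Finset ℕ) I.C) (p₀ : I.C) (δ : Stg) : Prop :=
  ∀ (Z : Finset ℕ → Set I.C) (p : I.C), I.le δ p p₀ → ∃ q, I.le δ q p ∧ ∃ S, I.InU α 𝒰 q S ∧
    ((∀ b r, I.le δ r q → (∃ c ∈ S b, I.le α r c) → ∃ s, I.le δ s r ∧ ∃ c ∈ Z b, I.le δ s c) ∨
     (∀ b r, I.le δ r q → (∃ c ∈ S b, I.le α r c) → ∀ c ∈ Z b, ¬ I.le δ r c))

/-- successor step from the coordinate `α₀` on: an ultrafilter that is still stable ordered-union at stage `β` is preserved by the `β`-th iterand -/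
def It.SuccPres (α₀ : Ordinal.{0}) : Prop := ∀ β : Ordinal.{0}, α₀ ≤ β → ∀ α : Stg, (α₀ : Stg) ≤ α →
  α ≤ (β : Stg) → ∀ (𝒰 : FN (Finset ℕ) I.C) (p₀ : I.C), I.SouAt α 𝒰 p₀ →
    I.SouAt (β : Stg) (I.cutF α 𝒰) p₀ → I.PresAt α 𝒰 p₀ ((β + 1 : Ordinal.{0}) : Stg)

/-! ### finite block sequences as lists -/

/-- block lists -/
def BlL (bb : List (Finset ℕ)) : Prop := bb.Pairwise Bef ∧ ∀ b ∈ bb, b.Nonempty

/-- union of a list -/
def unL (l : List (Finset ℕ)) : Finset ℕ := l.foldr (fun a b => a ∪ b) ∅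

/-- the set of the unions of nonempty sublists -/
def FUl (bb : List (Finset ℕ)) : Set (Finset ℕ) := {b | ∃ l : List (Finset ℕ), l.Sublist bb ∧ l ≠ [] ∧ b = unL l}

/-- iterated `extC` -/
def extL (C : Finset (Finset ℕ)) (bb : List (Finset ℕ)) : Finset (Finset ℕ) := bb.foldl extC C

/-! ### hereditary homogeneity -/

variable {I} (α δ : Stg) (𝒰 : FN (Finset ℕ) I.C) (Z : Finset ℕ → Set I.C)

/-- open names at stage `δ` -/
def OpenZ : Prop := ∀ τ, ∀ p ∈ Z τ, ∀ q, I.le δ q p → q ∈ Z τ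

/-- the complement of a name -/
def compZ : Finset ℕ → Set I.C := fun τ => {q | ∀ r, I.le δ r q → r ∉ Z τ}

/-- failure of hereditary homogeneity -/
inductive FailO : I.C → Finset (Finset ℕ) → Prop
  | out {p q : I.C} {C : Finset (Finset ℕ)} {τ : Finset ℕ} (hq : I.le δ q p) (hτ : τ ∈ C)
      (h : ∀ r, I.le δ r q → r ∉ Z τ) : FailO p C
  | step {p q : I.C} {C : Finset (Finset ℕ)} (hq : I.le δ q p) (S : Finset ℕ → Set I.C)
      (hS : I.InU α 𝒰 q S)
      (h : ∀ b r, I.le δ r q → (∃ c ∈ S b, I.le α r c) → FailO r (extC C b)) : FailO p C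

/-- hereditary homogeneity -/
def HHO (p : I.C) (C : Finset (Finset ℕ)) : Prop := ¬ FailO α δ 𝒰 Z p C

/-- `c` forces at stage `ν` that `S` is good for `(r, C)` -/
def GoodN (ν : Stg) (c r : I.C) (C : Finset (Finset ℕ)) (S : Finset ℕ → Set I.C) : Prop :=
  Fo (P := I.PP ν) c (fun g => ∀ bb, BlL bb → FUl bb ⊆ ev (P := I.PP ν) (I.cutN α S) g →
    ∃ r' : I.C, g.has r' ∧ (r' : I.PP ν) ∈ g ∧ I.le δ r' r ∧ HHO α δ 𝒰 Z r' (extL C bb))

end Pool.Agent.CSI
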