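import Pool.Agent.Lib_GG.Filt
import Pool.Agent.Lib_GG.Ground
import Mathlib.SetTheory.Ordinal.Arithmetic

/-!
# Lib_CSI: abstract countable support iterations

Coordinates are ordinals (of `Type 0`), stages are ordinals or `⊤` (the iteration has length the class of all ordinals of `Type 0`, a regular cardinal of
`Type 1`). All stages use the same type `C` of conditions: functions `p` on the ordinals with countable support, with values in a type `X` of codes. The
preorder of stage `δ` only looks at the coordinates below `δ`: `p ≤_δ q` iff `At γ p (p γ) (q γ)` for all `γ < δ`, where `At γ r x y` is to be read `r` (restricted to `γ`) forces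
(over stage `γ`) `x ≤ y` for the conditions of the `γ`-th iterand coded by `x`, `y`.
-/

set_option autoImplicit false

namespace Pool.Agent.CSI

open Pool.Agent.GGen

/-- stages -/
abbrev Stg : Type 1 := WithTop Ordinal.{0}

/-- conditions: functions on the ordinals with countable support -/
def Cond (X : Type 1) (x₀ : X) : Type 1 := {f : Ordinal.{0} → X // {β | f β ≠ x₀}.Countable}

/-- `p ≤ q` at stage `δ` -/
def LeOf {X : Type 1} {x₀ : X} (At : Ordinal.{0} → Cond X x₀ → X → X → Prop) (δ : Stg)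
    (p q : Cond X x₀) : Prop :=
  ∀ γ : Ordinal.{0}, (γ : Stg) < δ → At γ p (p.1 γ) (q.1 γ)

/-- abstract countable support iterations -/
structure It where
  X : Type 1
  x₀ : X
  At : Ordinal.{0} → Cond X x₀ → X → X → Prop
  refl : ∀ β r x, At β r x x
  trans : ∀ β r x y z, At β r x y → At β r y z → At β r x z
  mono : ∀ (β : Ordinal.{0}) r r' x y, LeOf At (β : Stg) r' r → At β r x y → At β r' x y
  top : ∀ β r x, At β r x x₀
  /-- mixing of names along antichains -/
  mix : ∀ (β : Ordinal.{0}) (A : Set (Cond X x₀)) (f : Cond X x₀ → X),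
    (∀ a ∈ A, ∀ b ∈ A, ∀ r, LeOf At (β : Stg) r a → LeOf At (β : Stg) r b → a = b) →
      ∃ x, ∀ a ∈ A, At β a x (f a) ∧ At β a (f a) x
  /-- separativity of the iterands -/
  sep : ∀ (β : Ordinal.{0}) r x y, (∀ r', LeOf At (β : Stg) r' r → ∀ x', At β r' x' x →
    ∃ r'', LeOf At (β : Stg) r'' r' ∧ ∃ x'', At β r'' x'' x' ∧ At β r'' x'' y) → At β r x y

variable (I : It)

/-- the type of conditions -/
abbrev It.C : Type 1 := Cond I.X I.x₀

/-- the order of stage `δ` -/
def It.le (δ : Stg) (p q : I.C) : Prop := LeOf I.At δ p q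

/-- the largest condition -/
def It.one : I.C := ⟨fun _ => I.x₀, by simp⟩

open Classical in
/-- `c` below `β`, `p` from `β` on -/
noncomputable def It.glue (β : Stg) (c p : I.C) : I.C :=
  ⟨fun γ => if (γ : Stg) < β then c.1 γ else p.1 γ, by
    refine (c.2.union p.2).mono ?_
    intro γ hγ
    by_cases h : (γ : Stg) < β
    · left; simpa [h] using hγ
    · right; simpa [h] using hγ⟩

/-- restriction -/
noncomputable def It.cut (β : Stg) (p : I.C) : I.C := I.glue β p I.one

open Classical in
/-- change of one coordinate -/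
noncomputable def It.put (p : I.C) (γ : Ordinal.{0}) (x : I.X) : I.C :=
  ⟨Function.update p.1 γ x, by
    refine (p.2.union (Set.countable_singleton γ)).mono ?_
    intro ε hε
    by_cases h : ε = γ
    · right; exact h
    · left
      have : Function.update p.1 γ x ε = p.1 ε := Function.update_of_ne h _ _
      simpa [this] using hε⟩

/-- `q` below `β`, `x` at `β`, trivial above -/
noncomputable def It.upd (β : Ordinal.{0}) (q : I.C) (x : I.X) : I.C := I.put (I.cut β q) β x

/-- the forcing notion of stage `δ` -/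
def It.PP (_δ : Stg) : Type 1 := I.C

theorem It.le_refl' (δ : Stg) (p : I.C) : I.le δ p p := fun γ _ => I.refl γ p _

theorem It.le_stage {β δ : Stg} (h : β ≤ δ) {p q : I.C} (hpq : I.le δ p q) : I.le β p q :=
  fun γ hγ => hpq γ (lt_of_lt_of_le hγ h)

theorem It.le_trans' (δ : Stg) {p q r : I.C} (h1 : I.le δ p q) (h2 : I.le δ q r) : I.le δ p r :=
  fun γ hγ => I.trans γ p _ _ _ (h1 γ hγ)
    (I.mono γ q p _ _ (I.le_stage (le_of_lt hγ) h1) (h2 γ hγ))

theorem It.le_one (δ : Stg) (p : I.C) : I.le δ p I.one := fun γ _ => I.top γ p _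

instance (δ : Stg) : Preorder (I.PP δ) where
  le p q := I.le δ p q
  le_refl := I.le_refl' δ
  le_trans _ _ _ := I.le_trans' δ

instance (δ : Stg) : OrderTop (I.PP δ) where
  top := I.one
  le_top := I.le_one δ

/-! ### objects, hulls -/

/-- the objects that may be elements of the countable hulls -/
inductive Obj (C : Type 1) : Type 1
  | cond (c : C)
  | ord (β : Stg)
  | dset (D : Set C)
  | nm (S : Finset ℕ → Set C)

/-- the club filter on the countable subsets of `W` (`W` nonempty) -/
def ClubS (W : Type*) [Nonempty W] : Filter (Set W) where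
  sets := {T | ∃ ops : ℕ → List W → W, ∀ N : Set W, N.Countable →
    (∀ k l, (∀ x ∈ l, x ∈ N) → ops k l ∈ N) → N ∈ T}
  univ_sets := ⟨fun _ _ => Classical.arbitrary W, fun _ _ _ => trivial⟩
  sets_of_superset := by
    rintro S T ⟨ops, h⟩ hST
    exact ⟨ops, fun N h1 h2 => hST (h N h1 h2)⟩
  inter_sets := by
    rintro S T ⟨ops, h⟩ ⟨ops', h'⟩
    refine ⟨fun k l => if k % 2 = 0 then ops (k / 2) l else ops' (k / 2) l, ?_⟩
    intro N h1 h2
    refine ⟨h N h1 (fun k l hl => ?_), h' N h1 (fun k l hl => ?_)⟩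
    · have := h2 (2 * k) l hl
      simpa using this
    · have := h2 (2 * k + 1) l hl
      have h5 : (2 * k + 1) / 2 = k := by omega
      simpa [h5, Nat.add_mod] using this

instance : Nonempty (Obj I.C) := ⟨.ord ⊤⟩

/-- `q` is generic over `N` for stage `δ` -/
def It.NGen (N : Set (Obj I.C)) (δ : Stg) (q : I.C) : Prop :=
  ∀ D : Set I.C, Obj.dset D ∈ N → (∀ p, ∃ d ∈ D, I.le δ d p) →
    ∀ r, I.le δ r q → ∃ d ∈ D, Obj.cond d ∈ N ∧ ∃ s, I.le δ s r ∧ I.le δ s d

/-- the extension property between the stages `α` and `δ` -/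
def It.EXTN (N : Set (Obj I.C)) (α δ : Stg) : Prop :=
  ∀ q p : I.C, I.NGen N α q → Obj.cond p ∈ N → I.le α q p →
    ∃ q' : I.C, (∀ γ : Ordinal.{0}, (γ : Stg) < α → q'.1 γ = q.1 γ) ∧
      (∀ γ : Ordinal.{0}, α ≤ (γ : Stg) → q'.1 γ ≠ I.x₀ → Obj.ord (γ : Stg) ∈ N ∧ (γ : Stg) < δ) ∧
      I.le δ q' p ∧ I.NGen N δ q'

/-- all iterands are proper -/
def It.Proper : Prop := ∀ β : Ordinal.{0}, ∀ᶠ N in ClubS (Obj I.C), ∀ q p : I.C,
  I.NGen N (β : Stg) q → Obj.cond p ∈ N → I.le (β : Stg) q p →
    ∃ x, I.At β q x (p.1 β) ∧ I.NGen N ((β + 1 : Ordinal.{0}) : Stg) (I.upd β q x)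

/-! ### restrictions of names and generics -/

/-- restriction of a shallow name -/
def It.cutN {ι : Type*} (α : Stg) (X : ι → Set I.C) : ι → Set I.C := fun i => I.cut α '' X i

/-- restriction of a filter name -/
def It.cutF {ι : Type} (α : Stg) (𝓕 : FN ι I.C) : FN ι I.C :=
  (fun q : (ι → Set I.C) × I.C => (I.cutN α q.1, I.cut α q.2)) '' 𝓕

/-- `g'` has the same hull and the same sequence of conditions as `g` -/
def It.IsRes {α δ : Stg} (g : GG (I.PP δ)) (g' : GG (I.PP α)) : Prop :=
  (g'.gen.N : Set (Forcing.Name I.C)) = g.gen.N ∧ (g'.gen.G : ℕ → I.C) = g.gen.G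

end Pool.Agent.CSI
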