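import Pool.Agent.Lib_CSI.PLim

/-!
# Piece PMAIN: the preservation theorem
-/

set_option autoImplicit false

namespace Pool.Agent.CSI

open Pool.Agent.GGen Pool.Agent.HMod Pool.Agent.SOU Pool.Agent.SOUi

variable {I : It} {α δ : Stg} {𝒰 : FN (Finset ℕ) I.C} {p₀ : I.C}

/-- at the stage `α` the restricted name has the same value -/
private theorem pm_evF_self {ι : Type} (𝓕 : FN ι I.C) : ∀ᶠ g in GC (I.PP α),
    evF (P := I.PP α) (I.cutF α 𝓕) g = evF (P := I.PP α) 𝓕 g ∧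
      (Dir (P := I.PP α) (I.cutF α 𝓕) g ↔ Dir (P := I.PP α) 𝓕 g) := by
  classical
  let F : (ι → Set I.C) → I.C → (ι → Set I.C) := fun Y r =>
    if h : ∃ X, ∃ c, (X, c) ∈ 𝓕 ∧ I.cutN α X = Y ∧ I.le α r (I.cut α c) then h.choose else Y
  filter_upwards [GC_op (P := I.PP α) (fun X : ι → Set I.C => I.cutN α X),
    GC_op2 (P := I.PP α) F] with g h2 h3
  have hr : I.IsRes (α := α) (δ := α) g g := ⟨rfl, rfl⟩
  have hα : α ≤ α := le_rfl
  have ha : ∀ X, Live (P := I.PP α) 𝓕 g X →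
      Live (P := I.PP α) (I.cutF α 𝓕) g (I.cutN α X) := by
    rintro X ⟨hX, c, hc, hg⟩
    exact ⟨h2 X ((isRes_has hr X).1 hX), I.cut α c, ⟨(X, c), hc, rfl⟩,
      (isRes_mem_cut hα hr).2 hg⟩
  have hb : ∀ Y, Live (P := I.PP α) (I.cutF α 𝓕) g Y →
      ∃ X, Live (P := I.PP α) 𝓕 g X ∧ I.cutN α X = Y := by
    rintro Y ⟨hY, c', ⟨⟨X₀, c₀⟩, hq, he⟩, n, hn⟩
    have he1 : I.cutN α X₀ = Y := congrArg Prod.fst he
    have he2 : I.cut α c₀ = c' := congrArg Prod.snd he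
    have hn' : I.le α (g.gen.G n : I.C) c' := hn
    have hex : ∃ X, ∃ c, (X, c) ∈ 𝓕 ∧ I.cutN α X = Y ∧ I.le α (g.gen.G n : I.C) (I.cut α c) :=
      ⟨X₀, c₀, hq, he1, by rw [he2]; exact hn'⟩
    have h4 := h3 Y (g.gen.G n) hY (g.cond n)
    have h5 : F Y (g.gen.G n) = hex.choose := dif_pos hex
    rw [h5] at h4
    obtain ⟨c, hc, h6, h7⟩ := hex.choose_spec
    refine ⟨hex.choose, ⟨(isRes_has hr _).2 h4, c, hc, ?_⟩, h6⟩
    exact (isRes_mem_cut hα hr).1 ⟨n, h7⟩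
  constructor
  · unfold evF
    congr 1
    ext S
    constructor
    · rintro ⟨Y, hY, rfl⟩
      obtain ⟨X, hX, rfl⟩ := hb Y hY
      exact ⟨X, hX, isRes_ev hα hr X⟩
    · rintro ⟨X, hX, rfl⟩
      exact ⟨I.cutN α X, ha X hX, (isRes_ev hα hr X).symm⟩
  · constructor
    · rintro ⟨⟨Y, hY⟩, h4⟩
      obtain ⟨X, hX, rfl⟩ := hb Y hY
      refine ⟨⟨X, hX⟩, fun X₁ X₂ hX₁ hX₂ => ?_⟩
      obtain ⟨Z, hZ, hZ'⟩ := h4 _ _ (ha X₁ hX₁) (ha X₂ hX₂)
      obtain ⟨W, hW, rfl⟩ := hb Z hZ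
      refine ⟨W, hW, ?_⟩
      rw [isRes_ev hα hr, isRes_ev hα hr, isRes_ev hα hr] at hZ'
      exact hZ'
    · rintro ⟨⟨X, hX⟩, h4⟩
      refine ⟨⟨_, ha X hX⟩, fun Y₁ Y₂ hY₁ hY₂ => ?_⟩
      obtain ⟨X₁, hX₁, rfl⟩ := hb Y₁ hY₁
      obtain ⟨X₂, hX₂, rfl⟩ := hb Y₂ hY₂
      obtain ⟨W, hW, hW'⟩ := h4 _ _ hX₁ hX₂
      refine ⟨_, ha W hW, ?_⟩
      rw [isRes_ev hα hr, isRes_ev hα hr, isRes_ev hα hr]
      exact hW'

/-- a condition below an element of a shallow name forces membership -/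
private theorem pm_fo_ev {X : Finset ℕ → Set I.C} {b : Finset ℕ} {r c : I.C} (hc : c ∈ X b)
    (h : I.le δ r c) : Fo (P := I.PP δ) r (fun g => b ∈ ev (P := I.PP δ) X g) :=
  (fo_ev_iff (P := I.PP δ)).2 fun q hq => ⟨q, I.le_refl' δ q, c, hc, I.le_trans' δ hq h⟩

/-- internal ultrafilters: from `SouAt` at a stage to `PresAt` at the same stage (used only for `δ = α`). PROOF. Let `Z`, `p ≤_δ p₀`, `g ∋ p` sufficiently good. `ev Z g` is internal (`int_ev`), so it or its complement is in `evF (cutF α 𝒰) g`; by `exists_inU` there are `S` and `c ∈ g`; the inclusion `ev (cutN α S) g ⊆ ev Z g` (or disjointness) is decided, so it is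
forced by some condition of `g`; take `q` below everything. -/
theorem presAt_of_souAt (hα : α ≤ δ) (h : I.SouAt α 𝒰 p₀) (hδ : I.SouAt δ (I.cutF α 𝒰) p₀) :
    I.PresAt α 𝒰 p₀ δ := by
  classical
  intro Z p hp
  let T : (Finset ℕ → Set I.C) → GG (I.PP δ) → Prop := fun S g =>
    ∀ b, b ∈ ev (P := I.PP δ) (I.cutN α S) g → b ∈ ev (P := I.PP δ) Z g
  let T' : (Finset ℕ → Set I.C) → GG (I.PP δ) → Prop := fun S g =>
    ∀ b, b ∈ ev (P := I.PP δ) (I.cutN α S) g → ¬ b ∈ ev (P := I.PP δ) Z g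
  have hT : ∀ S, Dec (P := I.PP δ) (T S) := fun S => dec_all (P := I.PP δ) fun b =>
    Dec.imp (P := I.PP δ) (dec_ev (P := I.PP δ) _ b) (dec_ev (P := I.PP δ) Z b)
  have hT' : ∀ S, Dec (P := I.PP δ) (T' S) := fun S => dec_all (P := I.PP δ) fun b =>
    Dec.imp (P := I.PP δ) (dec_ev (P := I.PP δ) _ b) (Dec.not (P := I.PP δ) (dec_ev (P := I.PP δ) Z b))
  have hδ' : ∀ᶠ g in GC (I.PP δ), (p₀ : I.PP δ) ∈ g →
      Dir (P := I.PP δ) (I.cutF α 𝒰) g ∧ IsSOUi g.M (evF (P := I.PP δ) (I.cutF α 𝒰) g) := hδ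
  obtain ⟨g, ⟨g1, g2, g3, g4, g5, g6⟩, hpg⟩ := GC_exists' (P := I.PP δ)
    (((int_ev (P := I.PP δ) (ι := Finset ℕ))).and ((GC_has (P := I.PP δ) Z).and (hδ'.and
      ((exists_inU hα h).and ((Dec.truthH (P := I.PP δ) hT).and (Dec.truthH (P := I.PP δ) hT'))))))
    (p : I.PP δ)
  have hp₀ : (p₀ : I.PP δ) ∈ g := mem_up (P := I.PP δ) hpg hp
  have hS := g3 hp₀
  have hint := g1 Z g2
  have key : ∀ (S' : Set (Finset ℕ)), S' ∈ evF (P := I.PP δ) (I.cutF α 𝒰) g →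
      ∀ (W : (Finset ℕ → Set I.C) → GG (I.PP δ) → Prop),
      (∀ S, g.has S → W S g → ∃ n, Fo (P := I.PP δ) (g.gen.G n) (W S)) →
      (∀ S, ev (P := I.PP δ) (I.cutN α S) g ⊆ S' → W S g) →
      ∃ q, I.le δ q p ∧ ∃ S, I.InU α 𝒰 q S ∧ Fo (P := I.PP δ) q (W S) := by
    intro S' hS' W hW1 hW2
    obtain ⟨S, hSh, ⟨c, _, hcg, hcU⟩, hsub⟩ := g4 hp₀ S' hS'
    obtain ⟨n, hn⟩ := hW1 S hSh (hW2 S hsub)
    obtain ⟨r, hrg, _, hrp, hrc⟩ := mem_common (P := I.PP δ) hpg hcg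
    obtain ⟨q, _, _, hqr, hqn⟩ := mem_common (P := I.PP δ) hrg (G_mem g n)
    refine ⟨q, I.le_trans' δ hqr hrp, S, ?_, Fo.mono (P := I.PP δ) hn hqn⟩
    exact Fo.mono (P := I.PP α) hcU (I.le_stage hα (I.le_trans' δ hqr hrc))
  rcases hS.2.ultra (ev (P := I.PP δ) Z g) hint with h1 | h1
  · obtain ⟨q, hq, S, hqS, hqT⟩ := key _ h1 T g5 (fun S hS b hb => hS hb)
    refine ⟨q, hq, S, hqS, Or.inl ?_⟩
    rintro b r hr ⟨c, hc, hrc⟩
    have h2 : Fo (P := I.PP δ) r (fun g => b ∈ ev (P := I.PP δ) (I.cutN α S) g) :=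
      pm_fo_ev (c := I.cut α c) ⟨c, hc, rfl⟩ (le_cut_of_le hrc)
    have h3 : Fo (P := I.PP δ) r (T S) := Fo.mono (P := I.PP δ) hqT hr
    have h4 : Fo (P := I.PP δ) r (fun g => b ∈ ev (P := I.PP δ) Z g) := by
      refine Fo.imp (P := I.PP δ) (h2.and h3) (fo_of_eventually (P := I.PP δ)
        (Filter.Eventually.of_forall ?_))
      rintro g ⟨h5, h6⟩
      exact h6 b h5
    obtain ⟨s, hs, c', hc', hsc⟩ := (fo_ev_iff (P := I.PP δ)).1 h4 r (I.le_refl' δ r)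
    exact ⟨s, hs, c', hc', hsc⟩
  · obtain ⟨q, hq, S, hqS, hqT⟩ := key _ h1 T' g6 (fun S hS b hb => hS hb)
    refine ⟨q, hq, S, hqS, Or.inr ?_⟩
    rintro b r hr ⟨c, hc, hrc⟩ c' hc' hrc'
    have h2 : Fo (P := I.PP δ) r (fun g => b ∈ ev (P := I.PP δ) (I.cutN α S) g) :=
      pm_fo_ev (c := I.cut α c) ⟨c, hc, rfl⟩ (le_cut_of_le hrc)
    have h3 : Fo (P := I.PP δ) r (T' S) := Fo.mono (P := I.PP δ) hqT hr
    have h4 : Fo (P := I.PP δ) r (fun g => b ∈ ev (P := I.PP δ) Z g) := pm_fo_ev hc' hrc'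
    refine fo_false (P := I.PP δ) (p := r) ?_
    refine Fo.imp (P := I.PP δ) ((h2.and h3).and h4) (fo_of_eventually (P := I.PP δ)
      (Filter.Eventually.of_forall ?_))
    rintro g ⟨⟨h5, h6⟩, h7⟩
    exact h6 b h5 h7

theorem souAt_cut_self (h : I.SouAt α 𝒰 p₀) : I.SouAt α (I.cutF α 𝒰) p₀ := by
  have h' : ∀ᶠ g in GC (I.PP α), (p₀ : I.PP α) ∈ g →
      Dir (P := I.PP α) 𝒰 g ∧ IsSOUi g.M (evF (P := I.PP α) 𝒰 g) := h
  show ∀ᶠ g in GC (I.PP α), (p₀ : I.PP α) ∈ g → _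
  filter_upwards [h', pm_evF_self (I := I) (α := α) 𝒰] with g h1 h2 hg
  refine ⟨h2.2.2 (h1 hg).1, ?_⟩
  rw [h2.1]
  exact (h1 hg).2

/-- `SouAt` is inherited by smaller conditions -/
theorem souAt_mono (h : I.SouAt α 𝒰 p₀) {p : I.C} (hp : I.le α p p₀) : I.SouAt α 𝒰 p := by
  exact Fo.mono (P := I.PP α) h hp

/-- stages of uncountable cofinality. PROOF. Let `Z`, `p`. `names_reflect` gives `q`, `β < δ` and `Y`; we may assume `α ≤ β` (and `β` an ordinal). `PresAt β` for `Y` and `q` gives `q' ≤_β q` and `S`; take `glue β q' q ≤_δ q`. For `r ≤_δ glue β q' q`, `r ≤_α c ∈ S b`: in the first case there is `s ≤_β r`, `s ≤_β c' ∈ Y b`; `glue β s r ≤_δ r` is `≤_δ c' = cut β c'`, so it has an extension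
`≤_δ` an element of `Z b` (`names_reflect`). The second case is similar. -/
theorem presAt_ucof (hI : I.Proper) (hδ : UCof δ) (hα : α < δ)
    (h : ∀ β : Ordinal.{0}, (β : Stg) < δ → α ≤ (β : Stg) → I.PresAt α 𝒰 p₀ (β : Stg)) :
    I.PresAt α 𝒰 p₀ δ := by
  intro Z p hp
  obtain ⟨q, β, Y, hβ, hqp, hY, hZY⟩ := names_reflect hI hδ Z p
  obtain ⟨a, rfl⟩ := WithTop.ne_top_iff_exists.1 (ne_top_of_lt hα)
  obtain ⟨ε, hε⟩ : ∃ ε : Ordinal.{0}, ε = max β a := ⟨_, rfl⟩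
  have hβε : β ≤ ε := hε ▸ le_max_left _ _
  have haε : (a : Stg) ≤ (ε : Stg) := WithTop.coe_le_coe.2 (hε ▸ le_max_right _ _)
  have hεδ : (ε : Stg) < δ := by
    rcases max_choice β a with h1 | h1
    · rw [hε, h1]
      exact hβ
    · rw [hε, h1]
      exact hα
  have hYε : ∀ i, ∀ c ∈ Y i, I.cut (ε : Stg) c = c := by
    intro i c hc
    have h1 := hY i c hc
    refine cond_ext fun γ => ?_
    by_cases h2 : (γ : Stg) < (ε : Stg)
    · rw [cut_lt h2]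
    · have h3 : (ε : Stg) ≤ (γ : Stg) := not_lt.1 h2
      rw [cut_ge h3, ← h1, cut_ge ((WithTop.coe_le_coe.2 hβε).trans h3)]
  obtain ⟨q', hq', S, hS, halt⟩ := h ε hεδ haε Y q
    (I.le_stage hεδ.le (I.le_trans' δ hqp hp))
  have hg : I.le δ (I.glue (ε : Stg) q' q) q := glue_le hq'
  have hgl : I.le (ε : Stg) (I.glue (ε : Stg) q' q) q' := glue_le_left
  refine ⟨I.glue (ε : Stg) q' q, I.le_trans' δ hg hqp, S, ?_, ?_⟩
  · exact Fo.mono (P := I.PP (a : Stg)) hS (I.le_stage haε hgl)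
  · rcases halt with halt | halt
    · left
      intro b r hr hrc
      have hrq' : I.le (ε : Stg) r q' := I.le_trans' _ (I.le_stage hεδ.le hr) hgl
      obtain ⟨s, hs, c', hc', hsc⟩ := halt b r hrq' hrc
      have ht : I.le δ (I.glue (ε : Stg) s r) r := glue_le hs
      have htc : I.le δ (I.glue (ε : Stg) s r) c' := by
        rw [← hYε b c' hc']
        exact le_cut_of_le (I.le_trans' _ glue_le_left hsc)
      exact (hZY b r (I.le_trans' δ hr hg)).2 ⟨_, ht, c', hc', htc⟩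
    · right
      intro b r hr ⟨c, hc, hrc⟩ z hz hrz
      obtain ⟨s, hs, c', hc', hsc⟩ := (hZY b r (I.le_trans' δ hr hg)).1
        ⟨r, I.le_refl' δ r, z, hz, hrz⟩
      have hsq' : I.le (ε : Stg) s q' :=
        I.le_trans' _ (I.le_stage hεδ.le (I.le_trans' δ hs hr)) hgl
      refine halt b s hsq' ⟨c, hc, ?_⟩ c' hc' (I.le_stage hεδ.le hsc)
      exact I.le_trans' _ (I.le_stage hα.le hs) hrc

/-- a stage is a successor, or of uncountable cofinality, or the limit of a strictly increasing sequence starting with a given smaller ordinal -/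
theorem stg_cases {α : Ordinal.{0}} {δ : Stg} (h : (α : Stg) < δ) :
    (∃ β : Ordinal.{0}, α ≤ β ∧ δ = ((β + 1 : Ordinal.{0}) : Stg)) ∨ UCof δ ∨
      ∃ dn : ℕ → Ordinal.{0}, StrictMono dn ∧ dn 0 = α ∧ (∀ n, (dn n : Stg) < δ) ∧
        ∀ γ : Ordinal.{0}, (γ : Stg) < δ → ∃ n, γ < dn n := by
  by_cases hU : UCof δ
  · exact Or.inr (Or.inl hU)
  by_cases hsucc : ∃ β : Ordinal.{0}, δ = ((β + 1 : Ordinal.{0}) : Stg)
  · obtain ⟨β, rfl⟩ := hsucc
    refine Or.inl ⟨β, ?_, rfl⟩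
    have h1 : α < β + 1 := WithTop.coe_lt_coe.1 h
    exact Order.lt_add_one_iff.1 h1
  right
  right
  have hlim : ∀ γ : Ordinal.{0}, (γ : Stg) < δ → ((γ + 1 : Ordinal.{0}) : Stg) < δ := by
    intro γ hγ
    refine lt_of_le_of_ne ?_ (fun h1 => hsucc ⟨γ, h1.symm⟩)
    induction δ using WithTop.recTopCoe with
    | top => exact le_top
    | coe d =>
      refine WithTop.coe_le_coe.2 ?_
      exact Order.add_one_le_of_lt (WithTop.coe_lt_coe.1 hγ)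
  unfold UCof at hU
  push Not at hU
  obtain ⟨O, hO, hOδ, hcof⟩ := hU
  obtain ⟨γ₀, hγ₀, _⟩ := hcof α h
  have hne : O.Nonempty := ⟨γ₀, hγ₀⟩
  obtain ⟨f, hf⟩ := hO.exists_eq_range hne
  let dn : ℕ → Ordinal.{0} := fun n => Nat.rec α (fun n d => max (d + 1) (f n + 1)) n
  have hdn0 : dn 0 = α := rfl
  have hdns : ∀ n, dn (n + 1) = max (dn n + 1) (f n + 1) := fun n => rfl
  refine ⟨dn, ?_, hdn0, ?_, ?_⟩
  · refine strictMono_nat_of_lt_succ fun n => ?_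
    rw [hdns]
    exact lt_of_lt_of_le (Order.lt_add_one_iff.2 le_rfl) (le_max_left _ _)
  · intro n
    induction n with
    | zero => exact h
    | succ n ih =>
      rw [hdns]
      rcases max_choice (dn n + 1) (f n + 1) with h1 | h1
      · rw [h1]
        exact hlim _ ih
      · rw [h1]
        refine hlim _ (hOδ _ ?_)
        rw [hf]
        exact ⟨n, rfl⟩
  · intro γ hγ
    obtain ⟨γ', hγ', hle⟩ := hcof (γ + 1) (hlim γ hγ)
    rw [hf] at hγ'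
    obtain ⟨n, rfl⟩ := hγ'
    refine ⟨n + 1, ?_⟩
    rw [hdns]
    exact lt_of_lt_of_le (lt_of_lt_of_le (Order.lt_add_one_iff.2 le_rfl) hle)
      ((Order.le_succ (f n)).trans (le_max_right _ _))

/-- THE PRESERVATION THEOREM, by induction on `δ` -/
theorem preservation (hI : I.Proper) {α₀ : Ordinal.{0}} (hS : I.SuccPres α₀) (hα₀ : (α₀ : Stg) ≤ α)
    (hα : α ≤ δ) (h : I.SouAt α 𝒰 p₀) :
    I.PresAt α 𝒰 p₀ δ ∧ I.SouAt δ (I.cutF α 𝒰) p₀ := by
  have hself : I.SouAt α (I.cutF α 𝒰) p₀ := souAt_cut_self h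
  have key : ∀ δ : Stg, α ≤ δ → I.PresAt α 𝒰 p₀ δ ∧ I.SouAt δ (I.cutF α 𝒰) p₀ := by
    intro δ
    induction δ using WellFoundedLT.induction with
    | ind δ ih =>
      intro hδ
      rcases hδ.eq_or_lt with rfl | hlt
      · exact ⟨presAt_of_souAt le_rfl h hself, hself⟩
      · have hp : I.PresAt α 𝒰 p₀ δ := by
          obtain ⟨a, rfl⟩ := WithTop.ne_top_iff_exists.1 (ne_top_of_lt hlt)
          rcases stg_cases hlt with ⟨β, haβ, rfl⟩ | hU | ⟨dn, hmono, h0, hdn, hcof⟩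
          · have haβ' : (a : Stg) ≤ (β : Stg) := WithTop.coe_le_coe.2 haβ
            have hβ : (β : Stg) < ((β + 1 : Ordinal.{0}) : Stg) :=
              WithTop.coe_lt_coe.2 (Order.lt_add_one_iff.2 le_rfl)
            exact hS β (WithTop.coe_le_coe.1 (hα₀.trans haβ')) (a : Stg) hα₀ haβ' 𝒰 p₀ h
              (ih (β : Stg) hβ haβ').2
          · exact presAt_ucof hI hU hlt (fun β hβ hαβ => (ih (β : Stg) hβ hαβ).1)
          · refine presAt_limit hI hmono h0 hdn hcof h (fun n => (ih (dn n : Stg) (hdn n) ?_).2)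
            rw [← h0]
            exact WithTop.coe_le_coe.2 (hmono.monotone (Nat.zero_le n))
        exact ⟨hp, souAt_of_presAt hI hlt.le h hp⟩
  exact key δ hα

end Pool.Agent.CSI
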