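import Pool.Agent.Lib_CSI.Res
import Pool.Agent.Lib_GG.Mix

/-!
# Piece RES2: transfer between the models of two stages

`α ≤ δ`, `g` a good generic of stage `δ`, `I.res α g` its restriction to the stage `α`.
-/

set_option autoImplicit false

namespace Pool.Agent.CSI

open Pool.Agent.GGen Pool.Agent.HMod

variable {I : It} {α δ : Stg}

theorem isRes_has {g : GG (I.PP δ)} {g' : GG (I.PP α)} (h : I.IsRes g g') {Y : Type 1} (y : Y) :
    g'.has y ↔ g.has y := by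
  have h1 : ((chk y : Forcing.Name (I.PP α)) : Forcing.Name I.C) =
      (chk y : Forcing.Name (I.PP δ)) := rfl
  have h2 : (g'.gen.N : Set (Forcing.Name I.C)) = g.gen.N := h.1
  show ((chk y : Forcing.Name (I.PP α)) : Forcing.Name I.C) ∈
    (g'.gen.N : Set (Forcing.Name I.C)) ↔ _
  rw [h2, h1]
  exact Iff.rfl

theorem isRes_mem (hα : α ≤ δ) {g : GG (I.PP δ)} {g' : GG (I.PP α)} (h : I.IsRes g g') {p : I.C}
    (hp : (p : I.PP δ) ∈ g) : (p : I.PP α) ∈ g' := by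
  obtain ⟨n, hn⟩ := hp
  refine ⟨n, ?_⟩
  have e : (g'.gen.G n : I.C) = g.gen.G n := congrFun h.2 n
  show I.le α (g'.gen.G n : I.C) p
  rw [e]
  exact I.le_stage hα hn

theorem isRes_mem_cut (hα : α ≤ δ) {g : GG (I.PP δ)} {g' : GG (I.PP α)} (h : I.IsRes g g') {p : I.C} :
    (I.cut α p : I.PP δ) ∈ g ↔ (p : I.PP α) ∈ g' := by
  have e : ∀ n, (g'.gen.G n : I.C) = g.gen.G n := fun n => congrFun h.2 n
  constructor
  · rintro ⟨n, hn⟩
    refine ⟨n, ?_⟩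
    show I.le α (g'.gen.G n : I.C) p
    rw [e n]
    exact (le_cut_iff hα).1 hn
  · rintro ⟨n, hn⟩
    refine ⟨n, ?_⟩
    have hn' : I.le α (g'.gen.G n : I.C) p := hn
    rw [e n] at hn'
    exact (le_cut_iff hα).2 hn'

theorem isRes_ev {ι : Type*} (hα : α ≤ δ) {g : GG (I.PP δ)} {g' : GG (I.PP α)} (h : I.IsRes g g')
    (X : ι → Set I.C) : ev (P := I.PP δ) (I.cutN α X) g = ev (P := I.PP α) X g' := by
  ext i
  constructor
  · rintro ⟨_, ⟨c, hc, rfl⟩, hg⟩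
    exact ⟨c, hc, (isRes_mem_cut hα h).1 hg⟩
  · rintro ⟨c, hc, hg⟩
    exact ⟨I.cut α c, ⟨c, hc, rfl⟩, (isRes_mem_cut hα h).2 hg⟩

theorem ev_cutN_self {ι : Type*} {g' : GG (I.PP α)} (X : ι → Set I.C) :
    ev (P := I.PP α) (I.cutN α X) g' = ev (P := I.PP α) X g' :=
  isRes_ev le_rfl ⟨rfl, rfl⟩ X

/-- the reals of the smaller model are in the larger model -/
theorem res_int {ι : Type} [∀ 𝔐 : HM.{2}, Cod 𝔐 ι] [BL.{2} ι] (hα : α ≤ δ) :
    ∀ᶠ g in GC (I.PP δ), ∀ S : Set ι, Int (I.res α g).M (fun i => i ∈ S) →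
      Int g.M (fun i => i ∈ S) := by
  filter_upwards [res_club hα (rep_ev (P := I.PP α) (ι := ι)), int_ev (P := I.PP δ) (ι := ι),
    GC_op (P := I.PP δ) (fun X : ι → Set I.C => I.cutN α X)] with g h1 h2 h3
  intro S hS
  obtain ⟨hr, h4⟩ := h1
  obtain ⟨X, hX, hXS⟩ := h4 S hS
  have h5 := h2 _ (h3 X ((isRes_has hr X).1 hX))
  rw [isRes_ev hα hr X, hXS] at h5
  exact h5

theorem res_intF {ι ι' : Type} [∀ 𝔐 : HM.{2}, Cod 𝔐 ι] [BL.{2} ι] [∀ 𝔐 : HM.{2}, Cod 𝔐 ι']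
    [BL.{2} ι'] (hα : α ≤ δ) :
    ∀ᶠ g in GC (I.PP δ), ∀ f : ι → ι', IntF (I.res α g).M f → IntF g.M f := by
  filter_upwards [res_int (I := I) (ι := ι × ι') hα] with g h1
  intro f hf
  exact ⟨h1 {q : ι × ι' | f q.1 = q.2} hf.graph⟩

/-- PROOF. If `X` is live for `𝓕` in the restriction, `cutN α X` is live for `cutF α 𝓕` in `g`. Conversely a live member `Y` of `cutF α 𝓕` in `g` is `cutN α X` for some `(X, c) ∈ 𝓕` with `cut α c ∈ g`; such an `X` in the hull is chosen by an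
operation from `Y` and a condition `G n ≤_α c` of the sequence. The evaluations agree (`isRes_ev`). -/
theorem res_evF {ι : Type} (hα : α ≤ δ) (𝓕 : FN ι I.C) : ∀ᶠ g in GC (I.PP δ),
    evF (P := I.PP δ) (I.cutF α 𝓕) g = evF (P := I.PP α) 𝓕 (I.res α g) ∧
      (Dir (P := I.PP δ) (I.cutF α 𝓕) g ↔ Dir (P := I.PP α) 𝓕 (I.res α g)) := by
  classical
  let F : (ι → Set I.C) → I.C → (ι → Set I.C) := fun Y r =>
    if h : ∃ X, ∃ c, (X, c) ∈ 𝓕 ∧ I.cutN α X = Y ∧ I.le δ r (I.cut α c) then h.choose else Y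
  filter_upwards [res_club hα (Filter.Eventually.of_forall (f := GC (I.PP α)) fun _ => trivial),
    GC_op (P := I.PP δ) (fun X : ι → Set I.C => I.cutN α X),
    GC_op2 (P := I.PP δ) F] with g h1 h2 h3
  obtain ⟨hr, -⟩ := h1
  have ha : ∀ X, Live (P := I.PP α) 𝓕 (I.res α g) X →
      Live (P := I.PP δ) (I.cutF α 𝓕) g (I.cutN α X) := by
    rintro X ⟨hX, c, hc, hg⟩
    exact ⟨h2 X ((isRes_has hr X).1 hX), I.cut α c, ⟨(X, c), hc, rfl⟩,
      (isRes_mem_cut hα hr).2 hg⟩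
  have hb : ∀ Y, Live (P := I.PP δ) (I.cutF α 𝓕) g Y →
      ∃ X, Live (P := I.PP α) 𝓕 (I.res α g) X ∧ I.cutN α X = Y := by
    rintro Y ⟨hY, c', ⟨⟨X₀, c₀⟩, hq, he⟩, n, hn⟩
    have he1 : I.cutN α X₀ = Y := congrArg Prod.fst he
    have he2 : I.cut α c₀ = c' := congrArg Prod.snd he
    have hn' : I.le δ (g.gen.G n : I.C) c' := hn
    have hex : ∃ X, ∃ c, (X, c) ∈ 𝓕 ∧ I.cutN α X = Y ∧ I.le δ (g.gen.G n : I.C) (I.cut α c) :=
      ⟨X₀, c₀, hq, he1, by rw [he2]; exact hn'⟩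
    have h4 := h3 Y (g.gen.G n) hY (g.cond n)
    have h5 : F Y (g.gen.G n) = hex.choose := dif_pos hex
    rw [h5] at h4
    obtain ⟨c, hc, h6, h7⟩ := hex.choose_spec
    refine ⟨hex.choose, ⟨(isRes_has hr _).2 h4, c, hc, ?_⟩, h6⟩
    exact (isRes_mem_cut hα hr).1 ⟨n, h7⟩
  constructor
  · unfold evF
    congr 1
    ext S
    constructor
    · rintro ⟨Y, hY, rfl⟩
      obtain ⟨X, hX, rfl⟩ := hb Y hY
      exact ⟨X, hX, isRes_ev hα hr X⟩
    · rintro ⟨X, hX, rfl⟩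
      exact ⟨I.cutN α X, ha X hX, (isRes_ev hα hr X).symm⟩
  · constructor
    · rintro ⟨⟨Y, hY⟩, h4⟩
      obtain ⟨X, hX, rfl⟩ := hb Y hY
      refine ⟨⟨X, hX⟩, fun X₁ X₂ hX₁ hX₂ => ?_⟩
      obtain ⟨Z, hZ, hZ'⟩ := h4 _ _ (ha X₁ hX₁) (ha X₂ hX₂)
      obtain ⟨W, hW, rfl⟩ := hb Z hZ
      refine ⟨W, hW, ?_⟩
      rw [isRes_ev hα hr, isRes_ev hα hr, isRes_ev hα hr] at hZ'
      exact hZ'
    · rintro ⟨⟨X, hX⟩, h4⟩
      refine ⟨⟨_, ha X hX⟩, fun Y₁ Y₂ hY₁ hY₂ => ?_⟩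
      obtain ⟨X₁, hX₁, rfl⟩ := hb Y₁ hY₁
      obtain ⟨X₂, hX₂, rfl⟩ := hb Y₂ hY₂
      obtain ⟨W, hW, hW'⟩ := h4 _ _ hX₁ hX₂
      refine ⟨_, ha W hW, ?_⟩
      rw [isRes_ev hα hr, isRes_ev hα hr, isRes_ev hα hr]
      exact hW'

theorem fo_res_up (hα : α ≤ δ) {p : I.C} {T : GG (I.PP α) → Prop} (h : Fo (P := I.PP α) p T) :
    Fo (P := I.PP δ) p (fun g => T (I.res α g)) := by
  have h0 : ∀ᶠ g in GC (I.PP α), (p : I.PP α) ∈ g → T g := h
  have h1 := res_club hα h0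
  show ∀ᶠ g in GC (I.PP δ), (p : I.PP δ) ∈ g → T (I.res α g)
  filter_upwards [h1] with g hg hp
  exact hg.2 (isRes_mem hα hg.1 hp)

/-- PROOF. Otherwise some `q ≤_α p` forces `¬ T` (`Dec.not_fo`), and `glue α q p ≤_δ p` forces `¬ T (res g)` -/
theorem fo_res_down (hα : α ≤ δ) {p : I.C} {T : GG (I.PP α) → Prop} (hT : Dec (P := I.PP α) T)
    (h : Fo (P := I.PP δ) p (fun g => T (I.res α g))) : Fo (P := I.PP α) p T := by
  by_contra hcon
  obtain ⟨q, hq, hqT⟩ := Dec.not_fo hT hcon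
  have h1 : Fo (P := I.PP α) (I.glue α q p) (fun g => ¬ T g) :=
    Fo.mono (P := I.PP α) hqT (glue_le_left (c := q) (p := p) (ε := α))
  have h2 := fo_res_up (T := fun g => ¬ T g) hα h1
  have h3 : Fo (P := I.PP δ) (I.glue α q p) (fun g => T (I.res α g)) :=
    Fo.mono (P := I.PP δ) h (glue_le (c := q) (p := p) (ε := α) (δ := δ) hq)
  refine fo_false (P := I.PP δ) (p := I.glue α q p) ?_
  have h4 := Fo.and (P := I.PP δ) h2 h3
  exact h4.imp (fo_of_eventually (Filter.Eventually.of_forall fun g hg => hg.1 hg.2))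

/-- forcing at the stage `α` only depends on the coordinates below `α` -/
theorem fo_eqOn {p q : I.C} (h : ∀ γ : Ordinal.{0}, (γ : Stg) < α → p.1 γ = q.1 γ)
    {T : GG (I.PP α) → Prop} (hp : Fo (P := I.PP α) p T) : Fo (P := I.PP α) q T := by
  have h1 : I.le α q p := le_of_eqOn fun γ hγ => (h γ hγ).symm
  exact Fo.mono (P := I.PP α) hp h1

/-- COVERING for sequences of ground objects. PROOF. `covering` for the sets `D n = {r | ∃ y, Fo r (T n y)}`, dense below `p` (`Dec.truth`); `𝒜` is the set of chosen `y n d`, `d ∈ N`. -/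
theorem cover_choice (hI : I.Proper) (δ : Stg) {Y : Type 1} {T : ℕ → Y → GG (I.PP δ) → Prop}
    (hT : ∀ n y, Dec (T n y)) {p : I.C}
    (h : Fo (P := I.PP δ) p (fun g => ∀ n, ∃ y, g.has y ∧ T n y g)) :
    ∃ (q : I.C) (𝒜 : Set Y), I.le δ q p ∧ 𝒜.Countable ∧
      Fo (P := I.PP δ) q (fun g => ∀ n, ∃ y ∈ 𝒜, T n y g) := by
  classical
  let D : ℕ → Set I.C := fun n => {r | ∃ y, Fo (P := I.PP δ) r (T n y)}
  obtain ⟨q, N, hN, hqp, hq⟩ := covering hI δ p D (by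
    intro n r hr
    by_contra hcon
    have h1 : ∀ y, Fo (P := I.PP δ) r (fun g => ¬ T n y g) := fun y =>
      Dec.neg (P := I.PP δ) (hT n y) fun s hs hsT => hcon ⟨s, hs, y, hsT⟩
    have h2 : Fo (P := I.PP δ) r (fun g => ∀ y, g.has y → ¬ T n y g) := fo_allH h1
    have h3 : Fo (P := I.PP δ) r (fun g => ∀ n, ∃ y, g.has y ∧ T n y g) :=
      Fo.mono (P := I.PP δ) h hr
    refine fo_false (P := I.PP δ) (p := r) ?_
    refine (Fo.and (P := I.PP δ) h2 h3).imp (fo_of_eventually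
      (Filter.Eventually.of_forall fun g hg => ?_))
    obtain ⟨y, hy, hTy⟩ := hg.2 n
    exact hg.1 y hy hTy)
  let F : ℕ → I.C → Set Y := fun n d =>
    {y | ∃ hd : ∃ y, Fo (P := I.PP δ) d (T n y), y = hd.choose}
  refine ⟨q, ⋃ n : ℕ, ⋃ d ∈ N, F n d, hqp, ?_, ?_⟩
  · refine Set.countable_iUnion fun n => hN.biUnion fun d _ => ?_
    by_cases hd : ∃ y, Fo (P := I.PP δ) d (T n y)
    · refine (Set.countable_singleton hd.choose).mono ?_
      rintro y ⟨_, hy⟩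
      exact hy
    · refine Set.countable_empty.mono ?_
      rintro y ⟨hd', _⟩
      exact hd hd'
  · refine fo_all fun n => ?_
    refine fo_dense fun r hr => ?_
    obtain ⟨d, hd, hdN, s, hsr, hsd⟩ := hq n r hr
    refine ⟨s, hsr, ?_⟩
    have hd' : ∃ y, Fo (P := I.PP δ) d (T n y) := hd
    have h1 : Fo (P := I.PP δ) s (T n hd'.choose) := Fo.mono (P := I.PP δ) hd'.choose_spec hsd
    refine h1.imp (fo_of_eventually (Filter.Eventually.of_forall fun g hg => ?_))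
    exact ⟨hd'.choose, Set.mem_iUnion.2 ⟨n, Set.mem_iUnion₂.2 ⟨d, hdN, hd', rfl⟩⟩, hg⟩

end Pool.Agent.CSI
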