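import Pool.Agent.Lib_CSI.Lim

/-!
# Piece EXT: the extension theorem (preservation of properness)

For fixed `N` with `Cl N` and the conclusion of `cs_proper`, by induction on the stage `δ` of `N`: `EXTN N α δ` for all stages `α ≤ δ` of `N`.
* `α = δ`: `q' = cut α q`-like: take `q' = I.cut α q`.
* `δ = β + 1`, `α ≤ β`: take `q''` from `EXTN N α β` for `p`, then `x` from properness, `q' = upd β q'' x` (`upd_le_iff`).
* `δ` limit (or `⊤`), `α < δ`: all stages `γ ∈ N`, `γ < δ` have `γ + 1 ∈ N`, `< δ`, so there is a strictly increasing sequence `dn` of ordinals of `N`, cofinal in `N ∩ δ`, with `dn 0 = α` (`α` is an ordinal, as `α < δ`;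
  `N` is countable). Let `D n` be an enumeration of the sets `D` with `Obj.dset D ∈ N` which are dense at stage `δ` (there is at least one: the set of all conditions, if it is in `N`; otherwise use an enumeration with a default dense set and the
  trivial requirement). Apply `lim_construction` with `St` the conditions of `N`, `r x = x`, `S n x : x ∈ N, x ≤_δ p, and x ∈ D m for n = m + 1` (hence also for all the previous: not needed), `Ok n x c : c ≤ x` at stage `dn n`.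
  STEP: let `q` be `NGen` at stage `dn n`, `q ≤ x`, `x ∈ N`. Let `E = {c | (∃ d ∈ D n, d ≤_δ x ∧ c ≤ d at stage dn n) ∨ c incompatible with x at stage dn n}`: it is in `N` (`Cl.eset`) and dense at stage `dn n`: if `c` has an extension
  `s ≤ x` at stage `dn n` then `glue (dn n) s x ≤_δ x` has an extension `d ∈ D n`, and `d ≤ s ≤ c` at stage `dn n`. So `q` is compatible with some `c ∈ E ∩ N`: `s ≤ q, c`; the second case is impossible because `s ≤ q ≤ x`.
  By `Cl.epick` there is `d ∈ D n ∩ N` with `d ≤_δ x`, `c ≤ d` at stage `dn n`. `q' = s`, `x' = d`.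
  The condition `q` satisfies: `q ≤_δ p` by `le_of_dense` (level `0`), and `NGen` at stage `δ`: for `D = D n` and `r' ≤_δ q` there are `s ≤_δ r'` and `x ∈ D n ∩ N` with `s ≤_δ x` (level `n + 1`).
-/

set_option autoImplicit false

namespace Pool.Agent.CSI

variable {I : It}

theorem extN_refl {N : Set (Obj I.C)} (α : Stg) : I.EXTN N α α := by
  intro q p hq _ hqp
  have h1 : ∀ γ : Ordinal.{0}, (γ : Stg) < α → (I.cut α q).1 γ = q.1 γ := fun γ hγ => cut_lt hγ
  refine ⟨I.cut α q, h1, fun γ hγ hne => absurd (cut_ge hγ) hne, ?_, ngen_congr hq h1⟩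
  exact I.le_trans' α (le_of_eqOn h1) hqp

theorem extN_succ {N : Set (Obj I.C)} (hN : I.Cl N) {α : Stg} {β : Ordinal.{0}}
    (hβ : Obj.ord (β : Stg) ∈ N) (hαβ : α ≤ (β : Stg))
    (hp : ∀ q p : I.C, I.NGen N (β : Stg) q → Obj.cond p ∈ N → I.le (β : Stg) q p →
      ∃ x, I.At β q x (p.1 β) ∧ I.NGen N ((β + 1 : Ordinal.{0}) : Stg) (I.upd β q x))
    (h : I.EXTN N α (β : Stg)) : I.EXTN N α ((β + 1 : Ordinal.{0}) : Stg) := by
  intro q p hq hpN hqp
  obtain ⟨q₁, h1, h2, h3, h4⟩ := h q p hq hpN hqp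
  obtain ⟨x, hx1, hx2⟩ := hp q₁ p h4 hpN h3
  have hββ : (β : Stg) < ((β + 1 : Ordinal.{0}) : Stg) :=
    WithTop.coe_lt_coe.2 (lt_add_one β)
  refine ⟨I.upd β q₁ x, ?_, ?_, upd_le_iff.2 ⟨h3, hx1⟩, hx2⟩
  · intro γ hγ
    rw [upd_lt (WithTop.coe_lt_coe.1 (lt_of_lt_of_le hγ hαβ))]
    exact h1 γ hγ
  · intro γ hγ hne
    rcases lt_trichotomy γ β with hlt | heq | hgt
    · rw [upd_lt hlt] at hne
      obtain ⟨h5, h6⟩ := h2 γ hγ hne
      exact ⟨h5, h6.trans hββ⟩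
    · rw [heq]
      exact ⟨hβ, hββ⟩
    · exact absurd (upd_gt hgt) hne

theorem extN_limit {N : Set (Obj I.C)} (hN : I.Cl N) {α : Ordinal.{0}} {δ : Stg}
    (hα : Obj.ord (α : Stg) ∈ N) (hδ : Obj.ord δ ∈ N) (hαδ : (α : Stg) < δ)
    (hlim : ∀ γ : Ordinal.{0}, (γ : Stg) < δ → ((γ + 1 : Ordinal.{0}) : Stg) < δ)
    (h : ∀ β γ : Ordinal.{0}, Obj.ord (β : Stg) ∈ N → Obj.ord (γ : Stg) ∈ N → β ≤ γ →
      (γ : Stg) < δ → I.EXTN N (β : Stg) (γ : Stg)) : I.EXTN N (α : Stg) δ := by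
  intro q p hq hpN hqp
  -- the cofinal sequence
  have hOc : {γ : Ordinal.{0} | Obj.ord (γ : Stg) ∈ N ∧ (γ : Stg) < δ}.Countable := by
    have h1 : ((fun γ : Ordinal.{0} => (Obj.ord (γ : Stg) : Obj I.C)) ⁻¹' N).Countable := by
      refine hN.ctbl.preimage ?_
      intro a b hab
      have h2 : (a : Stg) = (b : Stg) := Obj.ord.inj hab
      exact WithTop.coe_injective h2
    exact h1.mono fun γ hγ => hγ.1
  obtain ⟨e, he⟩ := hOc.exists_eq_range ⟨α, hα, hαδ⟩
  have heO : ∀ n, Obj.ord ((e n : Ordinal.{0}) : Stg) ∈ N ∧ ((e n : Ordinal.{0}) : Stg) < δ := by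
    intro n
    have : e n ∈ Set.range e := ⟨n, rfl⟩
    rw [← he] at this
    exact this
  obtain ⟨dn, hdn0, hdns⟩ : ∃ dn : ℕ → Ordinal.{0}, dn 0 = α ∧
      ∀ n, dn (n + 1) = max (dn n) (e n) + 1 :=
    ⟨fun n => Nat.rec α (fun k a => max a (e k) + 1) n, rfl, fun n => rfl⟩
  have hdnO : ∀ n : ℕ, Obj.ord ((dn n : Ordinal.{0}) : Stg) ∈ N ∧
      ((dn n : Ordinal.{0}) : Stg) < δ := by
    intro n
    induction n with
    | zero =>
      rw [hdn0]
      exact ⟨hα, hαδ⟩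
    | succ n ih =>
      rw [hdns]
      have h1 : Obj.ord ((max (dn n) (e n) : Ordinal.{0}) : Stg) ∈ N ∧
          ((max (dn n) (e n) : Ordinal.{0}) : Stg) < δ := by
        rcases max_choice (dn n) (e n) with h2 | h2
        · rw [h2]
          exact ih
        · rw [h2]
          exact heO n
      exact ⟨hN.succ _ h1.1, hlim _ h1.2⟩
  have hmono : StrictMono dn := by
    refine strictMono_nat_of_lt_succ fun n => ?_
    rw [hdns]
    exact lt_of_le_of_lt (le_max_left _ _) (lt_add_one _)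
  have hcof : ∀ γ : Ordinal.{0}, Obj.ord (γ : Stg) ∈ N → (γ : Stg) < δ → ∃ n, γ < dn n := by
    intro γ h1 h2
    have h3 : γ ∈ Set.range e := by
      rw [← he]
      exact ⟨h1, h2⟩
    obtain ⟨n, rfl⟩ := h3
    refine ⟨n + 1, ?_⟩
    rw [hdns]
    exact lt_of_le_of_lt (le_max_right _ _) (lt_add_one _)
  -- the dense sets
  have hDc : {D : Set I.C | Obj.dset D ∈ N ∧ ∀ p, ∃ d ∈ D, I.le δ d p}.Countable := by
    have h1 : ((fun D : Set I.C => (Obj.dset D : Obj I.C)) ⁻¹' N).Countable := by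
      refine hN.ctbl.preimage ?_
      intro a b hab
      exact Obj.dset.inj hab
    exact h1.mono fun D hD => hD.1
  obtain ⟨D, hD⟩ := (hDc.insert Set.univ).exists_eq_range ⟨Set.univ, Set.mem_insert _ _⟩
  have hDn : ∀ n, D n = Set.univ ∨ (Obj.dset (D n) ∈ N ∧ ∀ p, ∃ d ∈ D n, I.le δ d p) := by
    intro n
    have h1 : D n ∈ Set.range D := ⟨n, rfl⟩
    rw [← hD] at h1
    exact h1
  -- the construction
  let S : ℕ → {x : I.C // Obj.cond x ∈ N} → Prop := fun n x =>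
    I.le δ x.1 p ∧ ∀ m, n = m + 1 → x.1 ∈ D m
  have step : ∀ n (x : {x : I.C // Obj.cond x ∈ N}) (q : I.C), S n x → I.NGen N (dn n : Stg) q →
      I.le (dn n : Stg) q x.1 → ∃ (q' : I.C) (x' : {x : I.C // Obj.cond x ∈ N}),
        I.le (dn n : Stg) q' q ∧ S (n + 1) x' ∧ I.le δ x'.1 x.1 ∧
        I.le (dn n : Stg) q' x'.1 ∧ ∀ c, I.le (dn n : Stg) c q' →
          I.le (dn (n + 1) : Stg) c x'.1 → I.le (dn (n + 1) : Stg) c x'.1 := by
    intro n x q hS hgen hqx
    rcases hDn n with hu | ⟨hDN, hDd⟩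
    · refine ⟨q, x, I.le_refl' _ _, ⟨hS.1, ?_⟩, I.le_refl' _ _, hqx, fun c _ hc => hc⟩
      intro m hm
      have hm' : n = m := by omega
      rw [← hm', hu]
      exact Set.mem_univ _
    · have hEN := hN.eset (D n) hDN x.1 x.2 (dn n : Stg) (hdnO n).1 δ hδ
      have hEd : ∀ c, ∃ c' ∈ {c | (∃ d ∈ D n, I.le δ d x.1 ∧ I.le (dn n : Stg) c d) ∨
          ∀ s, I.le (dn n : Stg) s c → ¬ I.le (dn n : Stg) s x.1}, I.le (dn n : Stg) c' c := by
        intro c
        by_cases hc : ∃ s, I.le (dn n : Stg) s c ∧ I.le (dn n : Stg) s x.1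
        · obtain ⟨s, hsc, hsx⟩ := hc
          obtain ⟨d, hd, hds⟩ := hDd (I.glue (dn n : Stg) s x.1)
          refine ⟨d, Or.inl ⟨d, hd, I.le_trans' δ hds (glue_le hsx), I.le_refl' _ _⟩, ?_⟩
          exact I.le_trans' _ (I.le_stage (le_of_lt (hdnO n).2) hds)
            (I.le_trans' _ glue_le_left hsc)
        · exact ⟨c, Or.inr fun s h1 h2 => hc ⟨s, h1, h2⟩, I.le_refl' _ _⟩
      obtain ⟨c, hcE, hcN, s, hsq, hsc⟩ := hgen _ hEN hEd q (I.le_refl' _ _)
      rcases hcE with hc | hc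
      · obtain ⟨d, hd, hdN, hdx, hcd⟩ :=
          hN.epick (D n) hDN x.1 x.2 (dn n : Stg) (hdnO n).1 δ hδ c hcN hc
        refine ⟨s, ⟨d, hdN⟩, hsq, ⟨I.le_trans' δ hdx hS.1, ?_⟩, hdx, I.le_trans' _ hsc hcd,
          fun c _ hc => hc⟩
        intro m hm
        have hm' : n = m := by omega
        rw [← hm']
        exact hd
      · exact absurd (I.le_trans' _ hsq hqx) (hc s hsc)
  obtain ⟨q', h1, h2, h3⟩ := lim_construction N hN δ dn hmono (fun n => (hdnO n).1)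
    (fun n => (hdnO n).2) hcof
    (fun n => h (dn n) (dn (n + 1)) (hdnO n).1 (hdnO (n + 1)).1 (hmono (Nat.lt_succ_self n)).le
      (hdnO (n + 1)).2)
    (St := {x : I.C // Obj.cond x ∈ N}) (fun x => x.1) (fun x => x.2) S
    (fun n x c => I.le (dn n : Stg) c x.1) (fun n x c hc => hc)
    (fun n x c c' hc hc' => I.le_trans' _ hc' hc) step q ⟨p, hpN⟩
    ⟨I.le_refl' _ _, fun m hm => by omega⟩ (by rw [hdn0]; exact hq) (by rw [hdn0]; exact hqp)
  refine ⟨q', ?_, ?_, ?_, ?_⟩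
  · intro γ hγ
    exact h1 γ (by rw [hdn0]; exact WithTop.coe_lt_coe.1 hγ)
  · intro γ hγ hne
    exact h2 γ (by rw [hdn0]; exact WithTop.coe_le_coe.1 hγ) hne
  · refine le_of_dense fun r hr => ?_
    obtain ⟨s, hs, x, hx, hsx, _⟩ := h3 0 r hr
    exact ⟨s, hs, I.le_trans' δ hsx hx.1⟩
  · intro D' hD'N hD'd r hr
    have h4 : D' ∈ Set.range D := by
      rw [← hD]
      exact Or.inr ⟨hD'N, hD'd⟩
    obtain ⟨m, rfl⟩ := h4
    obtain ⟨s, hs, x, hx, hsx, _⟩ := h3 (m + 1) r hr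
    exact ⟨x.1, hx.2 m rfl, x.2, s, hs, hsx⟩

/-- the extension theorem -/
theorem cs_ext (hI : I.Proper) : ∀ᶠ N in ClubS (Obj I.C), ∀ α δ : Stg, Obj.ord α ∈ N →
    Obj.ord δ ∈ N → α ≤ δ → I.EXTN N α δ := by
  classical
  let pr : Obj I.C → Obj I.C := fun w =>
    if h : ∃ β : Ordinal.{0}, w = Obj.ord ((β + 1 : Ordinal.{0}) : Stg) then
      Obj.ord (h.choose : Stg) else w
  filter_upwards [cs_cl, cs_proper hI, cs_op pr] with N hN hp hpr
  have hpred : ∀ β : Ordinal.{0}, Obj.ord ((β + 1 : Ordinal.{0}) : Stg) ∈ N →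
      Obj.ord (β : Stg) ∈ N := by
    intro β hβ
    have h1 := hpr _ hβ
    have h2 : ∃ β' : Ordinal.{0}, (Obj.ord ((β + 1 : Ordinal.{0}) : Stg) : Obj I.C) =
        Obj.ord ((β' + 1 : Ordinal.{0}) : Stg) := ⟨β, rfl⟩
    have h3 : pr (Obj.ord ((β + 1 : Ordinal.{0}) : Stg)) = Obj.ord (h2.choose : Stg) := dif_pos h2
    have h4 : β + 1 = h2.choose + 1 := WithTop.coe_injective (Obj.ord.inj h2.choose_spec)
    have h5 : β = h2.choose := Order.succ_injective (by
      rw [Order.succ_eq_add_one, Order.succ_eq_add_one]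
      exact h4)
    rw [h3, ← h5] at h1
    exact h1
  have key : ∀ δ : Stg, ∀ α : Stg, Obj.ord α ∈ N → Obj.ord δ ∈ N → α ≤ δ → I.EXTN N α δ := by
    intro δ
    induction δ using WellFoundedLT.induction with
    | ind δ ih =>
      intro α hα hδ hαδ
      rcases eq_or_lt_of_le hαδ with heq | hlt
      · rw [heq]
        exact extN_refl δ
      · obtain ⟨a, rfl⟩ := WithTop.ne_top_iff_exists.1 (ne_top_of_lt hlt)
        by_cases hsucc : ∃ β : Ordinal.{0}, δ = ((β + 1 : Ordinal.{0}) : Stg)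
        · obtain ⟨β, rfl⟩ := hsucc
          have hβN := hpred β hδ
          have hab : ((a : Ordinal.{0}) : Stg) ≤ (β : Stg) :=
            WithTop.coe_le_coe.2 (Order.lt_add_one_iff.1 (WithTop.coe_lt_coe.1 hlt))
          exact extN_succ hN hβN hab (hp β hβN)
            (ih _ (WithTop.coe_lt_coe.2 (lt_add_one β)) _ hα hβN hab)
        · refine extN_limit hN hα hδ hlt ?_ ?_
          · intro γ hγ
            refine lt_of_le_of_ne ?_ fun h => hsucc ⟨γ, h.symm⟩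
            induction δ using WithTop.recTopCoe with
            | top => exact le_top
            | coe d =>
              exact WithTop.coe_le_coe.2 (Order.add_one_le_iff.2 (WithTop.coe_lt_coe.1 hγ))
          · intro β γ hβ hγ hβγ hγδ
            exact ih _ hγδ _ hβ hγ (WithTop.coe_le_coe.2 hβγ)
  exact fun α δ h1 h2 h3 => key δ α h1 h2 h3

/-- existence of generic conditions -/
theorem cs_generic (hI : I.Proper) : ∀ᶠ N in ClubS (Obj I.C), ∀ δ : Stg, Obj.ord δ ∈ N →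
    ∀ p, Obj.cond p ∈ N → ∃ q, I.le δ q p ∧ I.NGen N δ q ∧
      ∀ γ : Ordinal.{0}, q.1 γ ≠ I.x₀ → Obj.ord (γ : Stg) ∈ N := by
  filter_upwards [cs_cl, cs_ext hI] with N hN hE
  intro δ hδ p hp
  have h0 : ((0 : Ordinal.{0}) : Stg) ≤ δ := by
    induction δ using WithTop.recTopCoe with
    | top => exact le_top
    | coe d => exact WithTop.coe_le_coe.2 (zero_le (a := d))
  obtain ⟨q, _, h2, h3, h4⟩ := hE _ δ hN.zero hδ h0 p p (ngen_zero hN p) hp (I.le_refl' _ _)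
  exact ⟨q, h3, h4, fun γ hγ => (h2 γ (WithTop.coe_le_coe.2 (zero_le (a := γ))) hγ).1⟩

/-- PROPERNESS of the stages, covering form: countably many sets dense below `p` have countable predense subsets below some `q ≤ p`. PROOF. Let `N` be a hull with `p`, `δ` and the sets
`D n ∪ {r | r incompatible with p}` in `N`; take `q` from `cs_generic`. -/
theorem covering (hI : I.Proper) (δ : Stg) (p : I.C) (D : ℕ → Set I.C)
    (hD : ∀ n r, I.le δ r p → ∃ s, I.le δ s r ∧ s ∈ D n) :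
    ∃ (q : I.C) (N : Set I.C), N.Countable ∧ I.le δ q p ∧ ∀ n r, I.le δ r q →
      ∃ d ∈ D n, d ∈ N ∧ ∃ s, I.le δ s r ∧ I.le δ s d := by
  let D' : ℕ → Set I.C := fun n => {r | r ∈ D n ∨ ∀ s, I.le δ s r → ¬ I.le δ s p}
  have hD' : ∀ n r, ∃ s ∈ D' n, I.le δ s r := by
    intro n r
    by_cases h : ∃ s, I.le δ s r ∧ I.le δ s p
    · obtain ⟨s, h1, h2⟩ := h
      obtain ⟨t, h3, h4⟩ := hD n s h2
      exact ⟨t, Or.inl h4, I.le_trans' δ h3 h1⟩
    · exact ⟨r, Or.inr fun s h1 h2 => h ⟨s, h1, h2⟩, I.le_refl' _ _⟩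
  have hE : ∀ᶠ N in ClubS (Obj I.C), (∀ δ : Stg, Obj.ord δ ∈ N → ∀ p, Obj.cond p ∈ N →
      ∃ q, I.le δ q p ∧ I.NGen N δ q ∧ ∀ γ : Ordinal.{0}, q.1 γ ≠ I.x₀ → Obj.ord (γ : Stg) ∈ N) ∧
      I.Cl N ∧ Obj.ord δ ∈ N ∧ Obj.cond p ∈ N ∧ Set.range (fun n => Obj.dset (D' n)) ⊆ N := by
    filter_upwards [cs_generic hI, cs_cl, cs_mem (Obj.ord δ), cs_mem (Obj.cond p),
      cs_sub (Set.countable_range (fun n => (Obj.dset (D' n) : Obj I.C)))] with N h1 h2 h3 h4 h5
    exact ⟨h1, h2, h3, h4, h5⟩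
  obtain ⟨N, h1, h2, h3, h4, h5⟩ := cs_exists hE
  obtain ⟨q, hqp, hq, _⟩ := h1 δ h3 p h4
  refine ⟨q, {c | Obj.cond c ∈ N}, ?_, hqp, ?_⟩
  · have : ((fun c : I.C => (Obj.cond c : Obj I.C)) ⁻¹' N).Countable := by
      refine h2.ctbl.preimage ?_
      intro a b hab
      exact Obj.cond.inj hab
    exact this
  · intro n r hr
    obtain ⟨d, hd, hdN, s, hsr, hsd⟩ := hq (D' n) (h5 ⟨n, rfl⟩) (hD' n) r hr
    rcases hd with hd | hd
    · exact ⟨d, hd, hdN, s, hsr, hsd⟩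
    · exact absurd (I.le_trans' δ hsr (I.le_trans' δ hr hqp)) (hd s hsd)

/-- stages of uncountable cofinality (or successors): no countable set of ordinals is cofinal -/
def UCof (δ : Stg) : Prop := ∀ O : Set Ordinal.{0}, O.Countable → (∀ γ ∈ O, (γ : Stg) < δ) →
  ∃ β : Ordinal.{0}, (β : Stg) < δ ∧ ∀ γ ∈ O, γ < β

theorem ucof_top : UCof ⊤ := by
  intro O hO _
  have := hO.to_subtype
  obtain ⟨b, hb⟩ := Ordinal.bddAbove_of_small (s := O)
  exact ⟨b + 1, WithTop.coe_lt_top _, fun γ hγ => Order.lt_add_one_iff.2 (hb hγ)⟩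

/-- at a stage of uncountable cofinality the names of sets of integers are names of a smaller stage, below some condition. PROOF. `covering` for the sets `D i` of the conditions that are below an element
of `X i` or have no extension below an element of `X i`; `Y i` is the set of the `cut β d`, `d ∈ N ∩ D i` below an element of `X i`, where `β < δ` bounds the supports below `δ` of the elements of `N` (`UCof`). -/
theorem names_reflect (hI : I.Proper) {δ : Stg} (hδ : UCof δ) {ι : Type} [Countable ι]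
    (X : ι → Set I.C) (p : I.C) :
    ∃ (q : I.C) (β : Ordinal.{0}) (Y : ι → Set I.C), (β : Stg) < δ ∧ I.le δ q p ∧
      (∀ i, ∀ c ∈ Y i, I.cut (β : Stg) c = c) ∧
      (∀ i r, I.le δ r q → ((∃ s, I.le δ s r ∧ ∃ c ∈ X i, I.le δ s c) ↔
        ∃ s, I.le δ s r ∧ ∃ c ∈ Y i, I.le δ s c)) := by
  rcases isEmpty_or_nonempty ι with hι | hι
  · obtain ⟨β, hβ, _⟩ := hδ ∅ Set.countable_empty (fun γ hγ => absurd hγ (Set.notMem_empty γ))
    exact ⟨p, β, fun _ => ∅, hβ, I.le_refl' _ _, fun i => isEmptyElim i, fun i => isEmptyElim i⟩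
  · obtain ⟨e, he⟩ := exists_surjective_nat ι
    let D : ι → Set I.C := fun i => {c | (∃ x ∈ X i, I.le δ c x) ∨
      ∀ s, I.le δ s c → ∀ x ∈ X i, ¬ I.le δ s x}
    obtain ⟨q, N, hN, hqp, hq⟩ := covering hI δ p (fun n => D (e n)) (by
      intro n r _
      by_cases h : ∃ s, I.le δ s r ∧ ∃ x ∈ X (e n), I.le δ s x
      · obtain ⟨s, h1, h2⟩ := h
        exact ⟨s, h1, Or.inl h2⟩
      · exact ⟨r, I.le_refl' _ _, Or.inr fun s h1 x h2 h3 => h ⟨s, h1, x, h2, h3⟩⟩)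
    have hO : {γ : Ordinal.{0} | (γ : Stg) < δ ∧ ∃ d ∈ N, d.1 γ ≠ I.x₀}.Countable := by
      have h1 : (⋃ d ∈ N, {γ : Ordinal.{0} | d.1 γ ≠ I.x₀}).Countable :=
        hN.biUnion fun d _ => d.2
      refine h1.mono ?_
      rintro γ ⟨_, d, hd, hγ⟩
      exact Set.mem_biUnion hd hγ
    obtain ⟨β, hβδ, hβ⟩ := hδ _ hO (fun γ hγ => hγ.1)
    have hcut : ∀ d ∈ N, ∀ γ : Ordinal.{0}, (γ : Stg) < δ → (I.cut (β : Stg) d).1 γ = d.1 γ := by
      intro d hd γ hγ
      rcases lt_or_ge γ β with h | h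
      · exact cut_lt (WithTop.coe_lt_coe.2 h)
      · rw [cut_ge (WithTop.coe_le_coe.2 h)]
        by_contra hne
        exact absurd (hβ γ ⟨hγ, d, hd, fun h' => hne h'.symm⟩) (not_lt.2 h)
    refine ⟨q, β, fun i => {c | ∃ d ∈ N, (∃ x ∈ X i, I.le δ d x) ∧ c = I.cut (β : Stg) d}, hβδ,
      hqp, ?_, ?_⟩
    · rintro i c ⟨d, _, _, rfl⟩
      exact cut_cut le_rfl
    · intro i r hr
      obtain ⟨n, rfl⟩ := he i
      constructor
      · rintro ⟨s, hsr, c, hc, hsc⟩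
        obtain ⟨d, hd, hdN, t, hts, htd⟩ := hq n s (I.le_trans' δ hsr hr)
        rcases hd with hd | hd
        · refine ⟨t, I.le_trans' δ hts hsr, I.cut (β : Stg) d, ⟨d, hdN, hd, rfl⟩, ?_⟩
          exact I.le_trans' δ htd (le_of_eqOn fun γ hγ => (hcut d hdN γ hγ).symm)
        · exact absurd (I.le_trans' δ hts hsc) (hd t htd c hc)
      · rintro ⟨s, hsr, c, ⟨d, hdN, ⟨x, hx, hdx⟩, rfl⟩, hsc⟩
        refine ⟨s, hsr, x, hx, ?_⟩
        exact I.le_trans' δ (I.le_trans' δ hsc (le_of_eqOn fun γ hγ => hcut d hdN γ hγ)) hdx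

end Pool.Agent.CSI
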