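import Pool.Agent.Lib_CSI.Fail
import Pool.Agent.Lib_MP_a0d45a_int.HHDg

/-!
# Piece DICH: the dichotomy for a quotient of the iteration

This needs the general internal dichotomy for coded preorders in any universe, `Pool.Agent.SOUg` (file `Lib_MP_a0d45a_int/HHDg.lean`, in preparation by helper47; add the import when it is on main; its statement is that of `SOUi.dichotomy_i` with
`{P : Type u} [Preorder P]`).

PROOF of `dichoO`. Suppose that for all `r ≤_δ p`: `FailO Z r ∅` and `FailO (compZ Z) r ∅`. For a good generic `g` of stage `α` let `R` be the ground sort `GS g K`, `K r = {r}`: the conditions `r` of the hull with `r ∈ g` (at stage `α`), preordered by `r ≤ r'` iff `I.le δ r.1 r'.1`; the order is internal (`gs_rel2`),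
and so is the name `Z_R b = {r | r.1 ∈ Z b}` (`gs_relB`), which is open (`OpenZ`).
CLAIM. If `FailO Z r C` then there is `q ≤_δ r` such that: for club many `g ∋ q` (stage `α`) `FailI` (for `R`, `evF 𝒰 g`, `Z_R`) holds at `q` and `C`. PROOF by induction on `FailO`. `out`: `q` and `τ ∈ C` such that no `r ≤_δ q` is in `Z τ`: take `q`, first rule of `ClosedRel`. `step`: `q`, `S` with `InU α 𝒰 q S`, and for all
`b`, `r ≤_δ q` with `r ≤_α c ∈ S b` the induction hypothesis gives `q' ≤_δ r` such that club many `g ∋ q'` satisfy `FailI q' (extC C b)`. We show that `q` has the property for `C`. Let `g ∋ q` be sufficiently good. Use the second rule with the internal set `S_g = ev S g ∈ evF 𝒰 g`. Let `b ∈ S_g` and `r' ∈ R`, `r' ≤_δ q`. There is `c ∈ S b`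
with `c ∈ g`, and a condition `a` of `g` with `a ≤_α c`, `a ≤_α r'`. The set of the `a' ≤_α a` such that `a' ≤_α q'` for some `q' ≤_δ r'` with the property for `(q', extC C b)` is dense below `a` at the stage `α`: for `a' ≤_α a` apply the hypothesis to `glue α a' r' ≤_δ r'`. So (genericity, and normality for the pairs `(r', b)` of the hull) there is
such a `q' ∈ g` in the hull with `q' ≤_δ r'`, hence `FailI q' (extC C b)` in `g.M` (normality over `q'`), and `FailI r' (extC C b)` by monotonicity.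
CONCLUSION. Let `g ∋ p` be sufficiently good. For all `r ∈ R`, `r ≤_δ p` : `FailI r ∅` for `Z_R` and for the complement of `Z_R` (which is `(compZ Z)_R`: `r` is in the complement iff no `r' ≤_δ r`, `r' ∈ R`, is in `Z τ`; as a condition `r' ≤_δ r` in `Z τ` need not be in `g`, only `compZ Z ⊆` complement is clear, which is the direction that is needed if the claim is proved for the
complement in the form: `FailO (compZ Z) r C` implies densely `FailI` for the name `compl Z_R`; in the first rule for `compZ Z`: no `r ≤_δ q` is in `compZ Z τ`, i.e. `Z τ` is dense below `q`; then, by genericity, for every `r' ∈ R`, `r' ≤_δ q`, there is `r'' ≤_δ r'`, `r'' ∈ R ∩ Z τ` (glue), so no `r' ≤ q` in `R` is in the complement of `Z_R`; good).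
The density argument: for `r ∈ R` the set of the `a` such that `a ≤_α q'` for some `q' ≤_δ r` with the property of the claim is dense below `r`. This contradicts the internal dichotomy at `p ∈ R` (`IsSOUi g.M (evF 𝒰 g)` as `p ≤ p₀`).
-/

set_option autoImplicit false

namespace Pool.Agent.CSI

open Pool.Agent.GGen Pool.Agent.HMod Pool.Agent.SOU Pool.Agent.SOUi

variable {I : It} {α δ : Stg} {𝒰 : FN (Finset ℕ) I.C} {Z : Finset ℕ → Set I.C} {p₀ : I.C}

/-! ### the quotient forcing as a ground sort -/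

/-- the condition `r` itself -/
def dichK (I : It) (α : Stg) : I.C → Set (I.PP α) := fun r => {(r : I.PP α)}

/-- the conditions of the hull in the generic filter of the stage `α`, with the order of the stage `δ` -/
def DichR (I : It) (α _δ : Stg) (g : GG (I.PP α)) : Type 1 := GS g (dichK I α)

theorem dich_mem {g : GG (I.PP α)} (a : DichR I α δ g) : (a.1 : I.PP α) ∈ g := by
  obtain ⟨c, hc, hg⟩ := a.2.2
  have h : c = (a.1 : I.PP α) := hc
  rw [← h]
  exact hg

theorem dich_has {g : GG (I.PP α)} (a : DichR I α δ g) : g.has a.1 := a.2.1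

/-- elements of `DichR` -/
def dichMk {g : GG (I.PP α)} (δ : Stg) (q : I.C) (h : g.has q) (hq : (q : I.PP α) ∈ g) :
    DichR I α δ g := ⟨q, h, q, rfl, hq⟩

instance {g : GG (I.PP α)} : Preorder (DichR I α δ g) where
  le a b := I.le δ a.1 b.1
  le_refl a := I.le_refl' δ a.1
  le_trans _ _ _ := I.le_trans' δ

theorem dich_le {g : GG (I.PP α)} {a b : DichR I α δ g} : a ≤ b ↔ I.le δ a.1 b.1 := Iff.rfl

noncomputable instance {g : GG (I.PP α)} [h : Fact (GSok g (dichK I α))] :
    Cod g.M (DichR I α δ g) := inferInstanceAs (Cod g.M (GS g (dichK I α)))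

/-- the name `Z` as a name for the quotient -/
def dichZ (δ : Stg) (g : GG (I.PP α)) (Z : Finset ℕ → Set I.C) : Finset ℕ → Set (DichR I α δ g) :=
  fun τ => {a | a.1 ∈ Z τ}

theorem dich_int_le : ∀ᶠ g in GC (I.PP α), ∀ [Fact (GSok g (dichK I α))],
    Int g.M (fun q : DichR I α δ g × DichR I α δ g => q.1 ≤ q.2) := by
  filter_upwards [gs_rel2 (P := I.PP α) (dichK I α) (dichK I α) (fun a b => I.le δ a b)] with g h1
  intro _
  exact h1

theorem dich_int_Z (Z : Finset ℕ → Set I.C) : ∀ᶠ g in GC (I.PP α),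
    ∀ [Fact (GSok g (dichK I α))],
      Int g.M (fun q : Finset ℕ × DichR I α δ g => q.2 ∈ dichZ δ g Z q.1) := by
  filter_upwards [gs_relB (P := I.PP α) (dichK I α) (fun (a : I.C) (τ : Finset ℕ) => a ∈ Z τ)]
    with g h1
  intro _
  exact int_swap (R := fun (y : GS g (dichK I α)) (τ : Finset ℕ) => y.1 ∈ Z τ) h1

/-- failure in the models of club many generics -/
def DichF (α δ : Stg) (𝒰 : FN (Finset ℕ) I.C)
    (W : ∀ g : GG (I.PP α), Finset ℕ → Set (DichR I α δ g)) (q : I.C)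
    (C : Finset (Finset ℕ)) : Prop :=
  ∀ᶠ g in GC (I.PP α), ∀ [Fact (GSok g (dichK I α))] (a : DichR I α δ g), a.1 = q →
    SOUg.FailI g.M (evF (P := I.PP α) 𝒰 g) (W g) a C

/-- density for the quotient: if every `r ≤_δ q` has a `D`-extension at the stage `δ` then all `a ∈ R`, `a ≤_δ q` have a `D`-extension in `R` -/
theorem dich_gen (hα : α ≤ δ) {D : Set I.C} {q : I.C}
    (hD : ∀ r, I.le δ r q → ∃ d, I.le δ d r ∧ d ∈ D) :
    ∀ᶠ g in GC (I.PP α), ∀ a : DichR I α δ g, I.le δ a.1 q →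
      ∃ d : DichR I α δ g, d ≤ a ∧ d.1 ∈ D := by
  have h1 : ∀ r : I.C, ∀ᶠ g in GC (I.PP α), I.le δ r q → (r : I.PP α) ∈ g →
      ∃ d : I.C, g.has d ∧ (d : I.PP α) ∈ g ∧ I.le δ d r ∧ d ∈ D := by
    intro r
    by_cases hr : I.le δ r q
    · have h2 := GC_denseBelow' (P := I.PP α) (D := {d : I.C | I.le δ d r ∧ d ∈ D}) (p := r) (by
        intro a' ha'
        have h3 : I.le δ (I.glue α a' r) r := glue_le ha'
        obtain ⟨d, hd1, hd2⟩ := hD (I.glue α a' r) (I.le_trans' δ h3 hr)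
        refine ⟨d, ?_, I.le_trans' δ hd1 h3, hd2⟩
        exact I.le_trans' α (I.le_stage hα hd1) glue_le_left)
      filter_upwards [h2] with g h3 _ hg
      obtain ⟨d, ⟨hd1, hd2⟩, hd3, hd4⟩ := h3 hg
      exact ⟨d, hd4, hd3, hd1, hd2⟩
    · filter_upwards with g h
      exact absurd h hr
  filter_upwards [GC_normalH (P := I.PP α) h1] with g h2 a ha
  obtain ⟨d, hd1, hd2, hd3, hd4⟩ := h2 a.1 (dich_has a) ha (dich_mem a)
  exact ⟨dichMk δ d hd1 hd2, hd3, hd4⟩

/-- the claim -/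
theorem dich_claim (hα : α ≤ δ) (h : I.SouAt α 𝒰 p₀)
    {W : ∀ g : GG (I.PP α), Finset ℕ → Set (DichR I α δ g)}
    (hW : ∀ᶠ g in GC (I.PP α), ∀ [Fact (GSok g (dichK I α))],
      Int g.M (fun q : Finset ℕ × DichR I α δ g => q.2 ∈ W g q.1))
    (hZW : ∀ (q : I.C) (τ : Finset ℕ), (∀ r, I.le δ r q → r ∉ Z τ) → ∀ᶠ g in GC (I.PP α),
      ∀ a : DichR I α δ g, a.1 = q → SOUg.FrOut (W g) τ a)
    {r : I.C} {C : Finset (Finset ℕ)} (hf : FailO α δ 𝒰 Z r C) (hr : I.le δ r p₀) :
    ∃ q, I.le δ q r ∧ DichF α δ 𝒰 W q C := by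
  induction hf with
  | @out p q C τ hq hτ hZ =>
    refine ⟨q, hq, ?_⟩
    filter_upwards [hZW q τ hZ] with g h1 _ a ha
    exact SOUg.failI_closed.1 a a C τ le_rfl hτ (h1 a ha)
  | @step p q C hq S hS hb ih =>
    have hqp : I.le δ q p₀ := I.le_trans' δ hq hr
    refine ⟨q, hq, ?_⟩
    have h1 : ∀ (a r' : I.C) (b : Finset ℕ), ∀ᶠ g in GC (I.PP α), (a : I.PP α) ∈ g →
        I.le α a r' → I.le δ r' q → (∃ c ∈ S b, I.le α a c) →
          ∃ d : I.C, g.has d ∧ (d : I.PP α) ∈ g ∧ I.le δ d r' ∧ DichF α δ 𝒰 W d (extC C b) := by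
      intro a r' b
      by_cases hc : I.le α a r' ∧ I.le δ r' q ∧ (∃ c ∈ S b, I.le α a c)
      · obtain ⟨h1, h2, c, hc, hac⟩ := hc
        have h3 := GC_denseBelow' (P := I.PP α)
          (D := {d : I.C | I.le δ d r' ∧ DichF α δ 𝒰 W d (extC C b)}) (p := a) (by
          intro a' ha'
          have h4 : I.le δ (I.glue α a' r') r' := glue_le (I.le_trans' α ha' h1)
          have h5 : I.le δ (I.glue α a' r') q := I.le_trans' δ h4 h2
          have h6 : I.le α (I.glue α a' r') a' := glue_le_left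
          obtain ⟨d, hd1, hd2⟩ := ih b (I.glue α a' r') h5
            ⟨c, hc, I.le_trans' α h6 (I.le_trans' α ha' hac)⟩ (I.le_trans' δ h5 hqp)
          exact ⟨d, I.le_trans' α (I.le_stage hα hd1) h6, I.le_trans' δ hd1 h4, hd2⟩)
        filter_upwards [h3] with g h4 hg _ _ _
        obtain ⟨d, ⟨hd1, hd2⟩, hd3, hd4⟩ := h4 hg
        exact ⟨d, hd4, hd3, hd1, hd2⟩
      · filter_upwards with g _ h1 h2 h3
        exact absurd ⟨h1, h2, h3⟩ hc
    have h2 : ∀ᶠ g in GC (I.PP α), ∀ a : I.C, g.has a → ∀ r' : I.C, g.has r' → ∀ b : Finset ℕ,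
        (a : I.PP α) ∈ g → I.le α a r' → I.le δ r' q → (∃ c ∈ S b, I.le α a c) →
          ∃ d : I.C, g.has d ∧ (d : I.PP α) ∈ g ∧ I.le δ d r' ∧ DichF α δ 𝒰 W d (extC C b) :=
      GC_normalH (P := I.PP α) fun a => GC_normalH (P := I.PP α) fun r' =>
        eventually_countable_forall.2 fun b => h1 a r' b
    have h3 : ∀ᶠ g in GC (I.PP α), ∀ d : I.C, g.has d → ∀ C' : Finset (Finset ℕ),
        DichF α δ 𝒰 W d C' → ∀ [Fact (GSok g (dichK I α))] (a : DichR I α δ g), a.1 = d →
          SOUg.FailI g.M (evF (P := I.PP α) 𝒰 g) (W g) a C' := by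
      refine GC_normalH (P := I.PP α) fun d => eventually_countable_forall.2 fun C' => ?_
      by_cases hd : DichF α δ 𝒰 W d C'
      · filter_upwards [hd] with g h1 _
        exact h1
      · filter_upwards with g h1
        exact absurd h1 hd
    filter_upwards [h2, h3, hW, dich_int_le (I := I) (α := α) (δ := δ), h, hS,
      GC_club (P := I.PP α) club_StdF, int_ev (P := I.PP α) (ι := Finset ℕ),
      GC_has (P := I.PP α) S] with g h2 h3 hW hle hU hS hstd hev hSg _ a ha
    have hqg : (q : I.PP α) ∈ g := by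
      rw [← ha]
      exact dich_mem a
    obtain ⟨hdir, hsou⟩ := hU (mem_up hqg (I.le_stage hα hqp))
    have hSU := hS hqg
    refine SOUg.failI_closed.2 a a C (ev (P := I.PP α) S g) le_rfl (hev S hSg) hSU ?_
    rintro b ⟨c, hc, hcg⟩ r' hr'
    obtain ⟨a', ha', hha', ha1, ha2⟩ := mem_common (P := I.PP α) hcg (dich_mem r')
    have hr'q : I.le δ r'.1 q := by
      rw [← ha]
      exact hr'
    obtain ⟨d, hd1, hd2, hd3, hd4⟩ := h2 a' hha' r'.1 (dich_has r') b ha' ha2 hr'q ⟨c, hc, ha1⟩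
    have h5 := h3 d hd1 _ hd4 (dichMk δ d hd1 hd2) rfl
    exact SOUg.failI_mono hle hsou hW h5 hd3

theorem dichoO (hα : α ≤ δ) (h : I.SouAt α 𝒰 p₀) (hZ : OpenZ δ Z) {p : I.C} (hp : I.le δ p p₀) :
    ∃ r, I.le δ r p ∧ (HHO α δ 𝒰 Z r ∅ ∨ HHO α δ 𝒰 (compZ δ Z) r ∅) := by
  by_contra hcon
  have hf1 : ∀ r, I.le δ r p → FailO α δ 𝒰 Z r ∅ := by
    intro r hr
    by_contra h1
    exact hcon ⟨r, hr, Or.inl h1⟩
  have hf2 : ∀ r, I.le δ r p → FailO α δ 𝒰 (compZ δ Z) r ∅ := by
    intro r hr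
    by_contra h1
    exact hcon ⟨r, hr, Or.inr h1⟩
  have hW1 := dich_int_Z (I := I) (α := α) (δ := δ) Z
  have hW2 : ∀ᶠ g in GC (I.PP α), ∀ [Fact (GSok g (dichK I α))],
      Int g.M (fun q : Finset ℕ × DichR I α δ g => q.2 ∈ SOUg.compl' (dichZ δ g Z) q.1) := by
    filter_upwards [hW1, dich_int_le (I := I) (α := α) (δ := δ),
      GC_club (P := I.PP α) club_StdF] with g h1 h2 hstd
    intro _
    exact SOUg.int_compl h2 h1
  have hZ1 : ∀ (q : I.C) (τ : Finset ℕ), (∀ r, I.le δ r q → r ∉ Z τ) → ∀ᶠ g in GC (I.PP α),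
      ∀ a : DichR I α δ g, a.1 = q → SOUg.FrOut (dichZ δ g Z) τ a := by
    intro q τ h1
    filter_upwards with g a ha r hr
    refine h1 r.1 ?_
    rw [← ha]
    exact hr
  have hZ2 : ∀ (q : I.C) (τ : Finset ℕ), (∀ r, I.le δ r q → r ∉ compZ δ Z τ) →
      ∀ᶠ g in GC (I.PP α), ∀ a : DichR I α δ g, a.1 = q →
        SOUg.FrOut (SOUg.compl' (dichZ δ g Z)) τ a := by
    intro q τ h1
    have h2 : ∀ r, I.le δ r q → ∃ d, I.le δ d r ∧ d ∈ Z τ := by
      intro r hr
      by_contra h3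
      push Not at h3
      exact h1 r hr fun s hs => h3 s hs
    filter_upwards [dich_gen hα h2] with g h3 a ha r hr
    intro h4
    have hrq : I.le δ r.1 q := by
      rw [← ha]
      exact hr
    obtain ⟨d, hd1, hd2⟩ := h3 r hrq
    exact h4 d hd1 hd2
  have hg1 : ∀ r, I.le δ r p → ∃ q, I.le δ q r ∧ q ∈ {q | DichF α δ 𝒰 (fun g => dichZ δ g Z) q ∅} :=
    fun r hr => dich_claim hα h hW1 hZ1 (hf1 r hr) (I.le_trans' δ hr hp)
  have hg2 : ∀ r, I.le δ r p →
      ∃ q, I.le δ q r ∧ q ∈ {q | DichF α δ 𝒰 (fun g => SOUg.compl' (dichZ δ g Z)) q ∅} :=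
    fun r hr => dich_claim hα h hW2 hZ2 (hf2 r hr) (I.le_trans' δ hr hp)
  have hn : ∀ W : ∀ g : GG (I.PP α), Finset ℕ → Set (DichR I α δ g),
      ∀ᶠ g in GC (I.PP α), ∀ d : I.C, g.has d →
        DichF α δ 𝒰 W d ∅ → ∀ [Fact (GSok g (dichK I α))] (a : DichR I α δ g), a.1 = d →
          SOUg.FailI g.M (evF (P := I.PP α) 𝒰 g) (W g) a ∅ := by
    intro W
    refine GC_normalH (P := I.PP α) fun d => ?_
    by_cases hd : DichF α δ 𝒰 W d ∅
    · filter_upwards [hd] with g h1 _
      exact h1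
    · filter_upwards with g h1
      exact absurd h1 hd
  have hev : ∀ᶠ g in GC (I.PP α), (p : I.PP α) ∈ g → False := by
    filter_upwards [dich_gen hα hg1, dich_gen hα hg2, hn (fun g => dichZ δ g Z),
      hn (fun g => SOUg.compl' (dichZ δ g Z)), hW1, hW2, dich_int_le (I := I) (α := α) (δ := δ), h,
      GC_club (P := I.PP α) club_StdF, GC_gsok (P := I.PP α) (dichK I α),
      GC_has (P := I.PP α) p] with g e1 e2 e3 e4 e5 e6 hle hU hstd hok hhas hpg
    have : Fact (GSok g (dichK I α)) := ⟨hok⟩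
    obtain ⟨hdir, hsou⟩ := hU (mem_up hpg (I.le_stage hα hp))
    have hop : SOUg.OpenName (dichZ (α := α) δ g Z) := by
      intro τ a ha b hb
      exact hZ τ a.1 ha b.1 hb
    obtain ⟨r, hr, h1 | h1⟩ := SOUg.dichotomy_i hle hsou e5 hop (dichMk δ p hhas hpg)
    · obtain ⟨d, hd1, hd2⟩ := e1 r hr
      exact h1 (SOUg.failI_mono hle hsou e5 (e3 d.1 (dich_has d) hd2 d rfl) hd1)
    · obtain ⟨d, hd1, hd2⟩ := e2 r hr
      exact h1 (SOUg.failI_mono hle hsou e6 (e4 d.1 (dich_has d) hd2 d rfl) hd1)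
  exact fo_false (P := I.PP α) (p := p) hev

end Pool.Agent.CSI
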