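import Pool.Agent.Lib_CSI.PDefs

/-!
# Piece FAIL: first properties of hereditary homogeneity
-/

set_option autoImplicit false

namespace Pool.Agent.CSI

open Pool.Agent.GGen Pool.Agent.HMod Pool.Agent.SOU Pool.Agent.SOUi

variable {I : It} {α δ : Stg} {𝒰 : FN (Finset ℕ) I.C} {Z : Finset ℕ → Set I.C} {p q r : I.C}
  {C : Finset (Finset ℕ)}

theorem failO_mono (h : FailO α δ 𝒰 Z q C) (hq : I.le δ q p) : FailO α δ 𝒰 Z p C := by
  cases h with
  | out hq' hτ h => exact FailO.out (I.le_trans' δ hq' hq) hτ h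
  | step hq' S hS h => exact FailO.step (I.le_trans' δ hq' hq) S hS h

theorem HHO.mono (h : HHO α δ 𝒰 Z p C) (hq : I.le δ q p) : HHO α δ 𝒰 Z q C := by
  exact fun h' => h (failO_mono h' hq)

theorem HHO.inZ (h : HHO α δ 𝒰 Z p C) {τ : Finset ℕ} (hτ : τ ∈ C) (hq : I.le δ q p) :
    ∃ r, I.le δ r q ∧ r ∈ Z τ := by
  by_contra hcon
  exact h (FailO.out hq hτ fun r hr hrZ => hcon ⟨r, hr, hrZ⟩)

theorem HHO.next (h : HHO α δ 𝒰 Z p C) (hq : I.le δ q p) {S : Finset ℕ → Set I.C}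
    (hS : I.InU α 𝒰 q S) :
    ∃ b r, I.le δ r q ∧ (∃ c ∈ S b, I.le α r c) ∧ HHO α δ 𝒰 Z r (extC C b) := by
  by_contra hcon
  refine h (FailO.step hq S hS fun b r hr hc => ?_)
  by_contra hf
  exact hcon ⟨b, r, hr, hc, hf⟩

theorem openZ_comp : OpenZ δ (compZ δ Z) := by
  intro τ p hp q hq r hr
  exact hp r (I.le_trans' δ hr hq)

theorem extL_append (C : Finset (Finset ℕ)) (l l' : List (Finset ℕ)) :
    extL C (l ++ l') = extL (extL C l) l' := by
  exact List.foldl_append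

private theorem unL_append (l l' : List (Finset ℕ)) : unL (l ++ l') = unL l ∪ unL l' := by
  induction l with
  | nil => simp [unL]
  | cons a l ih =>
    show a ∪ unL (l ++ l') = (a ∪ unL l) ∪ unL l'
    rw [ih, Finset.union_assoc]

private theorem sub_extC (C : Finset (Finset ℕ)) (b : Finset ℕ) : C ⊆ extC C b := by
  intro τ hτ
  simp only [extC, Finset.mem_union]
  exact Or.inl (Or.inl hτ)

private theorem self_extC (C : Finset (Finset ℕ)) (b : Finset ℕ) : b ∈ extC C b := by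
  simp only [extC, Finset.mem_union, Finset.mem_singleton]
  exact Or.inl (Or.inr trivial)

private theorem un_extC {C : Finset (Finset ℕ)} {τ : Finset ℕ} (hτ : τ ∈ C) (b : Finset ℕ) :
    τ ∪ b ∈ extC C b := by
  simp only [extC, Finset.mem_union, Finset.mem_image]
  exact Or.inr ⟨τ, hτ, rfl⟩

private theorem sub_extL (bb : List (Finset ℕ)) : ∀ C : Finset (Finset ℕ), C ⊆ extL C bb := by
  induction bb with
  | nil => exact fun C => subset_rfl
  | cons x bb ih => exact fun C => (sub_extC C x).trans (ih (extC C x))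

private theorem un_extL (bb : List (Finset ℕ)) : ∀ C : Finset (Finset ℕ), ∀ τ ∈ C,
    ∀ l : List (Finset ℕ), l.Sublist bb → τ ∪ unL l ∈ extL C bb := by
  induction bb with
  | nil =>
    intro C τ hτ l hl
    rw [List.sublist_nil.1 hl]
    have : τ ∪ unL [] = τ := Finset.union_empty τ
    rw [this]
    exact hτ
  | cons x bb ih =>
    intro C τ hτ l hl
    rcases List.sublist_cons_iff.1 hl with h | ⟨l', rfl, h⟩
    · exact ih (extC C x) τ (sub_extC C x hτ) l h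
    · have e : τ ∪ unL (x :: l') = (τ ∪ x) ∪ unL l' := (Finset.union_assoc τ x (unL l')).symm
      rw [e]
      exact ih (extC C x) _ (un_extC hτ x) l' h

/-- the iterated `extC` contains all the unions -/
theorem mem_extL {bb : List (Finset ℕ)} {b : Finset ℕ} (hb : b ∈ FUl bb) (C : Finset (Finset ℕ)) :
    b ∈ extL C bb := by
  obtain ⟨l, hl, hne, rfl⟩ := hb
  induction bb generalizing C l with
  | nil => exact absurd (List.sublist_nil.1 hl) hne
  | cons x bb ih =>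
    rcases List.sublist_cons_iff.1 hl with h | ⟨l', rfl, h⟩
    · exact ih (extC C x) l h hne
    · exact un_extL bb (extC C x) x (self_extC C x) l' h

theorem FUl_mono {l l' : List (Finset ℕ)} (h : l.Sublist l') : FUl l ⊆ FUl l' := by
  rintro b ⟨l₁, h1, h2, h3⟩
  exact ⟨l₁, h1.trans h, h2, h3⟩

theorem FUl_append_sub {l l' : List (Finset ℕ)} {b : Finset ℕ} (hb : b ∈ FUl (l ++ l')) :
    b ∈ FUl l ∨ b ∈ FUl l' ∨ ∃ x ∈ FUl l, ∃ y ∈ FUl l', b = x ∪ y := by
  obtain ⟨m, hm, hne, rfl⟩ := hb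
  obtain ⟨m₁, m₂, rfl, h1, h2⟩ := List.sublist_append_iff.1 hm
  by_cases e1 : m₁ = []
  · subst e1
    exact Or.inr (Or.inl ⟨m₂, h2, hne, rfl⟩)
  · by_cases e2 : m₂ = []
    · subst e2
      rw [List.append_nil]
      exact Or.inl ⟨m₁, h1, e1, rfl⟩
    · exact Or.inr (Or.inr ⟨unL m₁, ⟨m₁, h1, e1, rfl⟩, unL m₂, ⟨m₂, h2, e2, rfl⟩, unL_append _ _⟩)

private theorem fu_un {A : ℕ → Finset ℕ} {b c : Finset ℕ} (hb : b ∈ fu A) (hc : c ∈ fu A) :
    b ∪ c ∈ fu A := by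
  obtain ⟨J, hJ, rfl⟩ := hb
  obtain ⟨K, _, rfl⟩ := hc
  exact ⟨J ∪ K, hJ.mono Finset.subset_union_left, (Finset.union_biUnion).symm⟩

theorem FUl_fu {A : ℕ → Finset ℕ} {bb : List (Finset ℕ)} (h : ∀ b ∈ bb, b ∈ fu A) :
    FUl bb ⊆ fu A := by
  rintro b ⟨l, hl, hne, rfl⟩
  have h' : ∀ b ∈ l, b ∈ fu A := fun b hb => h b (hl.subset hb)
  clear hl h
  induction l with
  | nil => exact absurd rfl hne
  | cons x l ih =>
    by_cases e : l = []
    · subst e
      have : unL [x] = x := Finset.union_empty x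
      rw [this]
      exact h' x (by simp)
    · exact fu_un (h' x (by simp)) (ih e fun b hb => h' b (List.mem_cons_of_mem _ hb))

/-- `InU` is inherited and depends only on the coordinates below `α` -/
theorem inU_mono {S : Finset ℕ → Set I.C} (h : I.InU α 𝒰 p S) (hq : I.le α q p) :
    I.InU α 𝒰 q S := by
  exact Fo.mono (P := I.PP α) h hq

theorem dec_inU (h : ∀ᶠ g in GC (I.PP α), Dir (P := I.PP α) 𝒰 g) (S : Finset ℕ → Set I.C) :
    Dec (P := I.PP α) (fun g => ev (P := I.PP α) S g ∈ evF (P := I.PP α) 𝒰 g) := by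
  refine (dec_memEvF (P := I.PP α) 𝒰 (T := fun b g => b ∈ ev (P := I.PP α) S g)
    fun b => dec_ev (P := I.PP α) S b).congr ?_
  filter_upwards [h] with g hg
  exact ⟨fun h => h.2, fun h => ⟨hg, h⟩⟩

private theorem dec_dirU (S : Finset ℕ → Set I.C) : Dec (P := I.PP α) (fun g =>
    Dir (P := I.PP α) 𝒰 g ∧ ev (P := I.PP α) S g ∈ evF (P := I.PP α) 𝒰 g) :=
  dec_memEvF (P := I.PP α) 𝒰 (T := fun b g => b ∈ ev (P := I.PP α) S g)
    fun b => dec_ev (P := I.PP α) S b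

/-- `InU` at the stage `α` from the stage `ν`: if `c ≤ p₀` forces at the stage `ν` that `cutN α S` is in `cutF α 𝒰` then `InU`. PROOF. Otherwise, as `Dir` is forced by `p₀` at the stage `α`, the property is decided below `c` (`fo_dir_dec`), and some `a ≤_α c` forces that `S` is not in
`𝒰`; `glue α a c ≤_ν c` forces both (`res_evF`, `isRes_ev`), contradiction. -/
theorem inU_of_stage {ν : Stg} (hα : α ≤ ν) {p₀ c : I.C} (h : I.SouAt α 𝒰 p₀) (hc : I.le α c p₀)
    {S : Finset ℕ → Set I.C} (hS : Fo (P := I.PP ν) c (fun g =>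
      ev (P := I.PP ν) (I.cutN α S) g ∈ evF (P := I.PP ν) (I.cutF α 𝒰) g)) :
    I.InU α 𝒰 c S := by
  by_contra hcon
  have h0 : ¬ Fo (P := I.PP α) c (fun g => Dir (P := I.PP α) 𝒰 g ∧
      ev (P := I.PP α) S g ∈ evF (P := I.PP α) 𝒰 g) := by
    intro h1
    refine hcon ?_
    refine Fo.imp h1 (fo_of_eventually (Filter.Eventually.of_forall fun g h2 => h2.2))
  obtain ⟨a, ha, hna⟩ := (dec_dirU (𝒰 := 𝒰) S).not_fo h0
  have ha' : I.le α a c := ha
  have h1 : Fo (P := I.PP ν) (I.glue α a c) (fun g => ¬ (Dir (P := I.PP α) 𝒰 (I.res α g) ∧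
      ev (P := I.PP α) S (I.res α g) ∈ evF (P := I.PP α) 𝒰 (I.res α g))) := by
    refine fo_res_up hα (p := I.glue α a c) (T := fun g => ¬ (Dir (P := I.PP α) 𝒰 g ∧
      ev (P := I.PP α) S g ∈ evF (P := I.PP α) 𝒰 g)) ?_
    exact Fo.mono (P := I.PP α) hna glue_le_left
  have h2 : Fo (P := I.PP ν) (I.glue α a c) (fun g => Dir (P := I.PP α) 𝒰 (I.res α g) ∧
      IsSOUi (I.res α g).M (evF (P := I.PP α) 𝒰 (I.res α g))) := by
    refine fo_res_up hα (p := I.glue α a c) (T := fun g => Dir (P := I.PP α) 𝒰 g ∧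
      IsSOUi g.M (evF (P := I.PP α) 𝒰 g)) ?_
    exact Fo.mono (P := I.PP α) h
      (I.le_trans' α (I.le_trans' α glue_le_left ha') hc)
  have h3 : Fo (P := I.PP ν) (I.glue α a c) (fun g =>
      ev (P := I.PP ν) (I.cutN α S) g ∈ evF (P := I.PP ν) (I.cutF α 𝒰) g) :=
    Fo.mono (P := I.PP ν) hS (glue_le ha')
  refine fo_false (P := I.PP ν) (p := I.glue α a c) ?_
  filter_upwards [h1, h2, h3, res_evF hα 𝒰, res_club hα (T := fun _ => True)
    (Filter.Eventually.of_forall fun _ => trivial)] with g g1 g2 g3 g4 g5 hg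
  refine g1 hg ⟨(g2 hg).1, ?_⟩
  rw [← isRes_ev hα g5.1, ← g4.1]
  exact g3 hg

theorem stage_of_inU {ν : Stg} (hα : α ≤ ν) {c : I.C} {S : Finset ℕ → Set I.C}
    (hS : I.InU α 𝒰 c S) : Fo (P := I.PP ν) c (fun g =>
      ev (P := I.PP ν) (I.cutN α S) g ∈ evF (P := I.PP ν) (I.cutF α 𝒰) g) := by
  have h1 := fo_res_up hα (p := c) (T := fun g =>
    ev (P := I.PP α) S g ∈ evF (P := I.PP α) 𝒰 g) hS
  filter_upwards [h1, res_evF hα 𝒰, res_club hα (T := fun _ => True)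
    (Filter.Eventually.of_forall fun _ => trivial)] with g g1 g4 g5 hg
  rw [isRes_ev hα g5.1, g4.1]
  exact g1 hg

/-- the members of the generated filter contain live members of the hull: for club many `g` of stage `ν`, if `S' ∈ evF (cutF α 𝒰) g` there are `S` and a condition in `g`, both in the hull, with `InU α 𝒰 c S` and `ev (cutN α S) g ⊆ S'`. -/
theorem exists_inU {ν : Stg} (hα : α ≤ ν) {p₀ : I.C} (h : I.SouAt α 𝒰 p₀) :
    ∀ᶠ g in GC (I.PP ν), (p₀ : I.PP ν) ∈ g → ∀ S' ∈ evF (P := I.PP ν) (I.cutF α 𝒰) g,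
      ∃ S : Finset ℕ → Set I.C, g.has S ∧ (∃ c : I.C, g.has c ∧ (c : I.PP ν) ∈ g ∧
        I.InU α 𝒰 c S) ∧ ev (P := I.PP ν) (I.cutN α S) g ⊆ S' := by
  have h2 : Fo (P := I.PP ν) p₀ (fun g => Dir (P := I.PP α) 𝒰 (I.res α g) ∧
      IsSOUi (I.res α g).M (evF (P := I.PP α) 𝒰 (I.res α g))) :=
    fo_res_up hα (p := p₀) (T := fun g => Dir (P := I.PP α) 𝒰 g ∧
      IsSOUi g.M (evF (P := I.PP α) 𝒰 g)) h
  filter_upwards [h2, res_evF hα 𝒰, res_club hα (Dec.truthH (P := I.PP α)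
    (fun S : Finset ℕ → Set I.C => dec_dirU (α := α) (𝒰 := 𝒰) S))] with g g2 g4 g5 hg S' hS'
  obtain ⟨hres, htr⟩ := g5
  have hD := (g2 hg).1
  rw [g4.1] at hS'
  obtain ⟨S, hS, hSS⟩ := (mem_evF hD).1 hS'
  have hmem : ev (P := I.PP α) S (I.res α g) ∈ evF (P := I.PP α) 𝒰 (I.res α g) :=
    (mem_evF hD).2 ⟨S, hS, subset_rfl⟩
  obtain ⟨n, hn⟩ := htr S hS.1 ⟨hD, hmem⟩
  have hG : ((I.res α g).gen.G n : I.C) = g.gen.G n := congrFun hres.2 n
  rw [hG] at hn
  refine ⟨S, (isRes_has hres S).1 hS.1, ⟨g.gen.G n, g.cond n, G_mem g n, ?_⟩, ?_⟩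
  · exact Fo.imp hn (fo_of_eventually (Filter.Eventually.of_forall fun g h2 => h2.2))
  · exact (isRes_ev hα hres S).subset.trans hSS

end Pool.Agent.CSI
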