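import Pool.Agent.Lib_CSI.Set33

/-!
# Piece GOOD: good sets exist
-/

set_option autoImplicit false

namespace Pool.Agent.CSI

open Pool.Agent.GGen Pool.Agent.HMod Pool.Agent.SOU Pool.Agent.SOUi

variable {I : It} {α ν δ : Stg} {𝒰 : FN (Finset ℕ) I.C} {Z : Finset ℕ → Set I.C} {p₀ : I.C}

theorem goodN_mono {c c' r : I.C} {C : Finset (Finset ℕ)} {S : Finset ℕ → Set I.C}
    (h : GoodN α δ 𝒰 Z ν c r C S) (hc : I.le ν c' c) : GoodN α δ 𝒰 Z ν c' r C S := by
  exact Fo.mono (P := I.PP ν) h hc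

/-- smaller sets are good -/
theorem goodN_sub {c r : I.C} {C : Finset (Finset ℕ)} {S S' : Finset ℕ → Set I.C}
    (h : GoodN α δ 𝒰 Z ν c r C S) (hS : Fo (P := I.PP ν) c (fun g =>
      ev (P := I.PP ν) (I.cutN α S') g ⊆ ev (P := I.PP ν) (I.cutN α S) g)) :
    GoodN α δ 𝒰 Z ν c r C S' := by
  unfold GoodN at h ⊢
  filter_upwards [h, hS] with g g1 g2 hg bb hbb hF
  exact g1 hg bb hbb (hF.trans (g2 hg))

/-- the property in `GoodN` -/
private def GoodP (α δ : Stg) (𝒰 : FN (Finset ℕ) I.C) (Z : Finset ℕ → Set I.C) (ν : Stg) (r : I.C)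
    (C : Finset (Finset ℕ)) (S : Finset ℕ → Set I.C) (g : GG (I.PP ν)) : Prop :=
  ∀ bb, BlL bb → FUl bb ⊆ ev (P := I.PP ν) (I.cutN α S) g →
    ∃ r' : I.C, g.has r' ∧ (r' : I.PP ν) ∈ g ∧ I.le δ r' r ∧ HHO α δ 𝒰 Z r' (extL C bb)

private theorem dec_goodP (r : I.C) (C : Finset (Finset ℕ)) (S : Finset ℕ → Set I.C) :
    Dec (P := I.PP ν) (GoodP α δ 𝒰 Z ν r C S) := by
  unfold GoodP
  refine dec_all fun bb => (dec_const _).imp (Dec.imp ?_ ?_)
  · have h1 : Dec (P := I.PP ν) (fun g => ∀ b : Finset ℕ, b ∈ FUl bb →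
        b ∈ ev (P := I.PP ν) (I.cutN α S) g) :=
      dec_all fun b => (dec_const _).imp (dec_ev (P := I.PP ν) _ b)
    exact h1
  · have h2 : Dec (P := I.PP ν) (fun g => ∃ r' : I.C, g.has r' ∧ ((r' : I.PP ν) ∈ g ∧
        (I.le δ r' r ∧ HHO α δ 𝒰 Z r' (extL C bb)))) :=
      dec_exH fun r' => (dec_mem (P := I.PP ν) r').and (dec_const _)
    exact h2

private theorem blL_snoc {bb : List (Finset ℕ)} {b : Finset ℕ} (h : BlL (bb ++ [b])) :
    BlL bb ∧ b.Nonempty ∧ ∀ x ∈ bb, Bef x b := by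
  obtain ⟨h1, h2⟩ := h
  rw [List.pairwise_append] at h1
  exact ⟨⟨h1.1, fun x hx => h2 x (by simp [hx])⟩, h2 b (by simp), fun x hx => h1.2.2 x hx b (by simp)⟩

private theorem mx_ge {x : Finset ℕ} {i : ℕ} (hi : i ∈ x) : i ≤ mx x :=
  Finset.le_sup (f := id) hi

private theorem mx_lt {x b : Finset ℕ} (hx : x.Nonempty) (hb : b.Nonempty) (h : Bef x b) :
    mx x < mx b := by
  obtain ⟨j, hj⟩ := hb
  obtain ⟨i, hi, he⟩ := Finset.exists_mem_eq_sup x hx id
  have h1 : mx x = i := he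
  rw [h1]
  exact lt_of_lt_of_le (h i hi j hj) (mx_ge hj)

private theorem blL_bound {bb : List (Finset ℕ)} : ∀ {a : Finset ℕ}, BlL (bb ++ [a]) →
    (bb ++ [a]).length ≤ mx a + 1 ∧ ∀ x ∈ bb ++ [a], x ⊆ Finset.range (mx a + 1) := by
  induction bb using List.reverseRecOn with
  | nil =>
    intro a _
    refine ⟨by simp, fun x hx => ?_⟩
    have : x = a := by simpa using hx
    subst this
    exact fun i hi => Finset.mem_range.2 (Nat.lt_succ_of_le (mx_ge hi))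
  | append_singleton bb a' ih =>
    intro a ha
    obtain ⟨h1, h2, h3⟩ := blL_snoc ha
    obtain ⟨h4, h5⟩ := ih h1
    have h6 : a'.Nonempty := h1.2 a' (by simp)
    have h7 : mx a' < mx a := mx_lt h6 h2 (h3 a' (by simp))
    refine ⟨?_, fun x hx => ?_⟩
    · rw [List.length_append]
      simp only [List.length_singleton]
      omega
    · rw [List.mem_append] at hx
      rcases hx with hx | hx
      · exact (h5 x hx).trans (Finset.range_subset_range.2 (by omega))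
      · have : x = a := by simpa using hx
        subst this
        exact fun i hi => Finset.mem_range.2 (Nat.lt_succ_of_le (mx_ge hi))

private theorem mem_FUl_of_mem {bb : List (Finset ℕ)} {b : Finset ℕ} (h : b ∈ bb) : b ∈ FUl bb := by
  refine ⟨[b], List.singleton_sublist.2 h, by simp, ?_⟩
  exact (Finset.union_empty b).symm

/-- the combinatorial core -/
private theorem good_core {r : I.C} {C : Finset (Finset ℕ)} {g : GG (I.PP ν)}
    {U : Filter (Finset ℕ)} (hHM : StdF g.M) (hU : IsSOUi g.M U) (hrg : g.has r ∧ (r : I.PP ν) ∈ g)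
    (hH : HHO α δ 𝒰 Z r C)
    (hB : ∀ r' : I.C, g.has r' → (r' : I.PP ν) ∈ g → I.le δ r' r → ∀ C', HHO α δ 𝒰 Z r' C' →
      BSet α δ 𝒰 Z r' C' g ∈ U)
    (hok : GSok g (fun r' : I.C => ({r'} : Set (I.PP ν))))
    (h2 : ∀ [Fact (GSok g (fun r' : I.C => ({r'} : Set (I.PP ν))))], Int g.M
      (fun q : GS g (fun r' : I.C => ({r'} : Set (I.PP ν))) × List (Finset ℕ) =>
        I.le δ q.1.1 r ∧ HHO α δ 𝒰 Z q.1.1 (extL C q.2)))
    (h3 : ∀ [Fact (GSok g (fun r' : I.C => ({r'} : Set (I.PP ν))))], Int g.M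
      (fun q : GS g (fun r' : I.C => ({r'} : Set (I.PP ν))) × (List (Finset ℕ) × Finset ℕ) =>
        q.2.2 ∈ BSet α δ 𝒰 Z q.1.1 (extL C q.2.1) g ∨
          ¬ (I.le δ q.1.1 r ∧ HHO α δ 𝒰 Z q.1.1 (extL C q.2.1)))) :
    ∃ A : ℕ → Finset ℕ, fu A ∈ U ∧ ∀ bb, BlL bb → FUl bb ⊆ fu A →
      ∃ r' : I.C, g.has r' ∧ (r' : I.PP ν) ∈ g ∧ I.le δ r' r ∧ HHO α δ 𝒰 Z r' (extL C bb) := by
  have hfact : Fact (GSok g (fun r' : I.C => ({r'} : Set (I.PP ν)))) := ⟨hok⟩
  have hr' : ∃ c ∈ ({r} : Set (I.PP ν)), c ∈ g := ⟨r, rfl, hrg.2⟩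
  have hne : Nonempty (GS g (fun r' : I.C => ({r'} : Set (I.PP ν)))) := ⟨⟨r, hrg.1, hr'⟩⟩
  have hmem : ∀ y : GS g (fun r' : I.C => ({r'} : Set (I.PP ν))), (y.1 : I.PP ν) ∈ g := by
    rintro ⟨y, hy, c, rfl, hc⟩
    exact hc
  obtain ⟨F, hF, hF'⟩ := int_choice' (𝔐 := g.M) (R := fun (bb : List (Finset ℕ))
    (y : GS g (fun r' : I.C => ({r'} : Set (I.PP ν)))) => I.le δ y.1 r ∧
      HHO α δ 𝒰 Z y.1 (extL C bb)) (int_swap (R := fun (y : GS g (fun r' : I.C => ({r'} : Set (I.PP ν))))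
      (bb : List (Finset ℕ)) => I.le δ y.1 r ∧ HHO α δ 𝒰 Z y.1 (extL C bb)) h2)
  obtain ⟨A, -, -, hA, -, hA0, hA1⟩ := diag_lists_i hU
    (fun bb => {b | b ∈ BSet α δ 𝒰 Z (F bb).1 (extL C bb) g ∨
      ¬ (I.le δ (F bb).1 r ∧ HHO α δ 𝒰 Z (F bb).1 (extL C bb))}) (by
      exact int_comp h3 (intF_pair (intF_comp hF (intF_fst' intF_id)) intF_id)) (by
      intro bb
      by_cases hbb : I.le δ (F bb).1 r ∧ HHO α δ 𝒰 Z (F bb).1 (extL C bb)
      · exact Filter.mem_of_superset (hB _ (F bb).2.1 (hmem _) hbb.1 _ hbb.2) fun b hb => Or.inl hb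
      · exact Filter.mem_of_superset Filter.univ_mem fun b _ => Or.inr hbb) (S₀ := Set.univ)
      Filter.univ_mem
  refine ⟨A, hA, fun bb => ?_⟩
  induction bb using List.reverseRecOn with
  | nil =>
    intro _ _
    exact ⟨r, hrg.1, hrg.2, I.le_refl' δ r, hH⟩
  | append_singleton bb b ih =>
    intro hbb hFU
    obtain ⟨h4, h5, h6⟩ := blL_snoc hbb
    obtain ⟨r₁, hr1, hr2, hr3, hr4⟩ := ih h4 ((FUl_mono (List.sublist_append_left bb [b])).trans hFU)
    have h7 : I.le δ (F bb).1 r ∧ HHO α δ 𝒰 Z (F bb).1 (extL C bb) :=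
      hF' bb ⟨⟨r₁, hr1, r₁, rfl, hr2⟩, hr3, hr4⟩
    have hbA : b ∈ fu A := hFU (mem_FUl_of_mem (by simp))
    have h8 : b ∈ BSet α δ 𝒰 Z (F bb).1 (extL C bb) g := by
      have h9 : b ∈ BSet α δ 𝒰 Z (F bb).1 (extL C bb) g ∨
          ¬ (I.le δ (F bb).1 r ∧ HHO α δ 𝒰 Z (F bb).1 (extL C bb)) := by
        rcases List.eq_nil_or_concat bb with rfl | ⟨bb', a, rfl⟩
        · exact hA0 b hbA
        · rw [List.concat_eq_append] at *
          obtain ⟨h10, h11⟩ := blL_bound h4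
          exact hA1 a (hFU (mem_FUl_of_mem (by simp))) b hbA (h6 a (by simp)) _ h10 h11
      exact h9.resolve_right fun h => h h7
    obtain ⟨r₂, h9, h10, h11, h12⟩ := h8
    refine ⟨r₂, h9, h10, I.le_trans' δ h11 h7.1, ?_⟩
    rw [extL_append]
    exact h12

/-- PROOF. Let `g ∋ c` be a sufficiently good generic of stage `ν`, `U = evF (cutF α 𝒰) g`, an internal stable ordered-union ultrafilter. Let `R` be the ground sort of the conditions of the hull which are in `g` (`K r = {r}`). By normality and `bset_mem`, for all `r' ∈ R` with `r' ≤_δ p₀` and all `C'` with `HHO r' C'` : `BSet r' C' g ∈ U`.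
There is an internal function `ρ : R × Finset (Finset ℕ) × Finset ℕ → R` such that `ρ (r', C', b) ≤_δ r'` and `HHO (ρ (r', C', b)) (extC C' b)` whenever `b ∈ BSet r' C' g`, and `ρ (r', C', b) = r'` otherwise (`int_choice'`; the relation is internal by `gs_rel2`, `gs_relB`). Define by recursion on lists `P [] = r`, `P (bb ++ [b]) = ρ (P bb, extL C bb, b)`; this is
an internal function of the list (`int_rec` along `List.take`, or along the reversed list; the base type `List (Finset ℕ)` has internal `snoc`, `length`, `getD`, `take`). Let `T bb = BSet (P bb) (extL C bb) g` if `HHO (P bb) (extL C bb)`, `univ` otherwise: an internal family of sets of `U`. By `diag_lists_i` there is an internal block sequence `A` with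
`fu A ∈ U`, all elements of `fu A` in `T []`, and `c' ∈ T l` for all `b < c'` in `fu A` and lists `l` of length `≤ mx b + 1` of subsets of `range (mx b + 1)`. Let `bb` be a block list of elements of `fu A`; by induction on the length, `HHO (P bb) (extL C bb)`: for `bb ++ [b]`, `b ∈ T bb` (the length of `bb` is at most `mx (last bb) + 1`, its elements are subsets of
`range (mx (last bb) + 1)`). So `{b | b ∈ fu A}` has the property of the good sets. By `exists_inU` there is a name `S` in the hull and `c₁ ∈ g` with `InU α 𝒰 c₁ S` and `ev (cutN α S) g ⊆ fu A`; the elements of a list `bb` with `FUl bb ⊆ ev (cutN α S) g` are in `fu A`. The property in `GoodN` is decided (`dec_exH`, `dec_all`), so some condition of `g` forces it; take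
`c' ∈ g` below it, `c₁` and `c`. (To get `c'` from `g` one starts with any `c₀ ≤_ν c` : the theorem is a density statement, `c' ≤_ν c` is enough.) -/
theorem good_exists (hαν : α ≤ ν) (hνδ : ν ≤ δ) (h : I.SouAt α 𝒰 p₀)
    (hν : I.SouAt ν (I.cutF α 𝒰) p₀) {r c : I.C} {C : Finset (Finset ℕ)} (hr : I.le δ r p₀)
    (hH : HHO α δ 𝒰 Z r C) (hc : I.le ν c r) :
    ∃ c', I.le ν c' c ∧ ∃ S, I.InU α 𝒰 c' S ∧ GoodN α δ 𝒰 Z ν c' r C S := by
  have e1 : ∀ᶠ g in GC (I.PP ν), ∀ r' : I.C, g.has r' → ∀ C' : Finset (Finset ℕ),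
      I.le δ r' p₀ → HHO α δ 𝒰 Z r' C' → (r' : I.PP ν) ∈ g →
        BSet α δ 𝒰 Z r' C' g ∈ evF (P := I.PP ν) (I.cutF α 𝒰) g := by
    refine GC_normalH fun r' => eventually_countable_forall.2 fun C' => ?_
    by_cases h1 : I.le δ r' p₀ ∧ HHO α δ 𝒰 Z r' C'
    · filter_upwards [bset_mem hαν hνδ h hν h1.1 h1.2] with g hg _ _ hr'
      exact hg hr'
    · exact Filter.Eventually.of_forall fun g h2 h3 => absurd ⟨h2, h3⟩ h1
  have key : ∀ᶠ g in GC (I.PP ν), (c : I.PP ν) ∈ g →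
      ∃ c', I.le ν c' c ∧ ∃ S, I.InU α 𝒰 c' S ∧ GoodN α δ 𝒰 Z ν c' r C S := by
    filter_upwards [e1, GC_gsok (P := I.PP ν) (fun r' : I.C => ({r'} : Set (I.PP ν))),
      gs_relB (P := I.PP ν) (ι := List (Finset ℕ)) (fun r' : I.C => ({r'} : Set (I.PP ν)))
        (fun y bb => I.le δ y r ∧ HHO α δ 𝒰 Z y (extL C bb)),
      gs_decB (P := I.PP ν) (ι := List (Finset ℕ) × Finset ℕ)
        (fun r' : I.C => ({r'} : Set (I.PP ν))) (T := fun y q g =>
          q.2 ∈ BSet α δ 𝒰 Z y (extL C q.1) g ∨ ¬ (I.le δ y r ∧ HHO α δ 𝒰 Z y (extL C q.1)))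
        (fun y q => (dec_bset y (extL C q.1) q.2).or (dec_const _)),
      GC_has (P := I.PP ν) r, hν, exists_inU hαν h,
      GC_club (P := I.PP ν) club_StdF,
      Dec.truthH (P := I.PP ν) (fun S : Finset ℕ → Set I.C =>
        dec_goodP (α := α) (δ := δ) (𝒰 := 𝒰) (Z := Z) (ν := ν) r C S)]
      with g g1 g2 g3 g4 g5 g6 g7 g9 g8 hcg
    have hrg : (r : I.PP ν) ∈ g := mem_up (P := I.PP ν) hcg hc
    have hpg : (p₀ : I.PP ν) ∈ g := mem_up (P := I.PP ν) hrg (I.le_stage hνδ hr)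
    obtain ⟨A, hA, hA'⟩ := good_core (α := α) (δ := δ) (𝒰 := 𝒰) (Z := Z) (r := r) (C := C)
      g9 (g6 hpg).2 ⟨g5, hrg⟩ hH
      (fun r' h1 h2 h3 C' h4 => g1 r' h1 C' (I.le_trans' δ h3 hr) h4 h2) g2 g3 g4
    obtain ⟨S, hS, ⟨c₁, hc1, hc2, hc3⟩, hSA⟩ := g7 hpg _ hA
    obtain ⟨n, hn⟩ := g8 S hS (fun bb hbb hF => hA' bb hbb (hF.trans hSA))
    obtain ⟨a, ha, -, ha1, ha2⟩ := mem_common (P := I.PP ν) hcg hc2
    obtain ⟨b, hb, -, hb1, hb2⟩ := mem_common (P := I.PP ν) ha (G_mem g n)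
    refine ⟨b, ?_, S, ?_, ?_⟩
    · exact I.le_trans' ν hb1 ha1
    · exact inU_mono hc3 (I.le_stage hαν (I.le_trans' ν hb1 ha2))
    · exact Fo.mono (P := I.PP ν) hn hb2
  obtain ⟨g, hg1, hg2⟩ := GC_exists' key c
  exact hg1 hg2

end Pool.Agent.CSI
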