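import Pool.Agent.Lib_CSI.Order

/-!
# Piece CS2: the club filter on countable hulls
-/

set_option autoImplicit false

namespace Pool.Agent.CSI

section
variable {W : Type*} [Nonempty W]

instance : CountableInterFilter (ClubS W) := by
  refine ⟨fun S hS h => ?_⟩
  rcases S.eq_empty_or_nonempty with rfl | hne
  · rw [Set.sInter_empty]
    exact Filter.univ_mem
  · obtain ⟨e, rfl⟩ := hS.exists_eq_range hne
    have h' : ∀ n, ∃ ops : ℕ → List W → W, ∀ N : Set W, N.Countable →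
        (∀ k l, (∀ x ∈ l, x ∈ N) → ops k l ∈ N) → N ∈ e n := fun n => h _ ⟨n, rfl⟩
    choose ops h2 using h'
    refine ⟨fun k l => ops k.unpair.1 k.unpair.2 l, ?_⟩
    intro N hN h4
    rintro _ ⟨n, rfl⟩
    refine h2 n N hN (fun k l hl => ?_)
    have := h4 (Nat.pair n k) l hl
    simpa using this

theorem cs_countable : ∀ᶠ N in ClubS W, N.Countable :=
  ⟨fun _ _ => Classical.arbitrary W, fun _ h _ => h⟩

/-- normality -/
theorem cs_normal {T : W → Set W → Prop} (h : ∀ w, ∀ᶠ N in ClubS W, T w N) :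
    ∀ᶠ N in ClubS W, ∀ w ∈ N, T w N := by
  have h' : ∀ w, ∃ ops : ℕ → List W → W, ∀ N : Set W, N.Countable →
      (∀ k l, (∀ x ∈ l, x ∈ N) → ops k l ∈ N) → T w N := h
  choose ops h2 using h'
  refine ⟨fun k l => match l with
    | [] => Classical.arbitrary W
    | x :: l' => ops x k l', ?_⟩
  intro N hN h4 w hw
  refine h2 w N hN (fun k l hl => ?_)
  refine h4 k (w :: l) (fun x hx => ?_)
  rcases List.mem_cons.1 hx with rfl | hx
  · exact hw
  · exact hl x hx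

theorem cs_mem (w : W) : ∀ᶠ N in ClubS W, w ∈ N :=
  ⟨fun _ _ => w, fun _ _ h => h 0 [] (by simp)⟩

theorem cs_sub {S : Set W} (hS : S.Countable) : ∀ᶠ N in ClubS W, S ⊆ N := by
  have h := (eventually_countable_ball (l := ClubS W) (p := fun N s _ => s ∈ N) hS).2
    (fun s _ => cs_mem s)
  filter_upwards [h] with N hN s hs
  exact hN s hs

theorem cs_op (f : W → W) : ∀ᶠ N in ClubS W, ∀ w ∈ N, f w ∈ N := cs_normal fun w => cs_mem (f w)

theorem cs_op2 (f : W → W → W) : ∀ᶠ N in ClubS W, ∀ w ∈ N, ∀ w' ∈ N, f w w' ∈ N :=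
  cs_normal fun w => cs_normal fun w' => cs_mem (f w w')

/-- existence: `exists_countable_closed` -/
theorem cs_exists {T : Set W → Prop} (h : ∀ᶠ N in ClubS W, T N) : ∃ N, T N := by
  obtain ⟨ops, h'⟩ := h
  obtain ⟨S, hS, hc⟩ := Pool.Agent.Forcing.exists_countable_closed ops
  exact ⟨S, h' S hS hc⟩

/-- normality for objects named by an injection -/
theorem cs_lift {A : Type*} {f : A → W} (hf : Function.Injective f) {T : A → Set W → Prop}
    (h : ∀ a, ∀ᶠ N in ClubS W, T a N) : ∀ᶠ N in ClubS W, ∀ a, f a ∈ N → T a N := by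
  have h1 : ∀ᶠ N in ClubS W, ∀ w ∈ N, ∀ a, f a = w → T a N := by
    refine cs_normal (T := fun w N => ∀ a, f a = w → T a N) (fun w => ?_)
    by_cases hw : ∃ a, f a = w
    · obtain ⟨a, ha⟩ := hw
      filter_upwards [h a] with N hN b hb
      have : b = a := hf (hb.trans ha.symm)
      rw [this]
      exact hN
    · exact Filter.Eventually.of_forall fun N a ha => absurd ⟨a, ha⟩ hw
  filter_upwards [h1] with N hN a ha
  exact hN _ ha a rfl

end

section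
variable {I : It}

/-- the closure properties used for stage orders; all by `cs_normal`, `cs_mem` -/
structure It.Cl (I : It) (N : Set (Obj I.C)) : Prop where
  ctbl : N.Countable
  top : Obj.ord ⊤ ∈ N
  zero : Obj.ord ((0 : Ordinal.{0}) : Stg) ∈ N
  succ : ∀ γ : Ordinal.{0}, Obj.ord (γ : Stg) ∈ N → Obj.ord ((γ + 1 : Ordinal.{0}) : Stg) ∈ N
  supp : ∀ p, Obj.cond p ∈ N → ∀ γ, p.1 γ ≠ I.x₀ → Obj.ord (γ : Stg) ∈ N
  glue : ∀ β, Obj.ord β ∈ N → ∀ c, Obj.cond c ∈ N → ∀ p, Obj.cond p ∈ N →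
    Obj.cond (I.glue β c p) ∈ N
  one : Obj.cond I.one ∈ N
  /-- every nonempty set of the hull has an element in the hull -/
  ne : ∀ D, Obj.dset D ∈ N → D.Nonempty → ∃ d ∈ D, Obj.cond d ∈ N
  /-- the sets used in the extension theorem -/
  eset : ∀ D, Obj.dset D ∈ N → ∀ p, Obj.cond p ∈ N → ∀ β, Obj.ord β ∈ N → ∀ δ, Obj.ord δ ∈ N →
    Obj.dset {c | (∃ d ∈ D, I.le δ d p ∧ I.le β c d) ∨ ∀ s, I.le β s c → ¬ I.le β s p} ∈ N
  epick : ∀ D, Obj.dset D ∈ N → ∀ p, Obj.cond p ∈ N → ∀ β, Obj.ord β ∈ N → ∀ δ, Obj.ord δ ∈ N →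
    ∀ c, Obj.cond c ∈ N → (∃ d ∈ D, I.le δ d p ∧ I.le β c d) →
      ∃ d ∈ D, Obj.cond d ∈ N ∧ I.le δ d p ∧ I.le β c d

theorem cond_inj {C : Type 1} : Function.Injective (Obj.cond : C → Obj C) := by
  intro a b h
  injection h

theorem ord_inj {C : Type 1} : Function.Injective (Obj.ord : Stg → Obj C) := by
  intro a b h
  injection h

theorem ordO_inj {C : Type 1} : Function.Injective (fun γ : Ordinal.{0} => (Obj.ord (γ : Stg) : Obj C)) := by
  intro a b h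
  exact WithTop.coe_injective (ord_inj h)

theorem dset_inj {C : Type 1} : Function.Injective (Obj.dset : Set C → Obj C) := by
  intro a b h
  injection h

theorem cs_cl : ∀ᶠ N in ClubS (Obj I.C), I.Cl N := by
  have h1 : ∀ᶠ N in ClubS (Obj I.C), N.Countable := cs_countable
  have h2 : ∀ᶠ N in ClubS (Obj I.C), Obj.ord ⊤ ∈ N := cs_mem _
  have h3 : ∀ᶠ N in ClubS (Obj I.C), Obj.ord ((0 : Ordinal.{0}) : Stg) ∈ N := cs_mem _
  have h4 : ∀ᶠ N in ClubS (Obj I.C), ∀ γ : Ordinal.{0}, Obj.ord (γ : Stg) ∈ N →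
      Obj.ord ((γ + 1 : Ordinal.{0}) : Stg) ∈ N := cs_lift ordO_inj fun γ => cs_mem _
  have h5 : ∀ᶠ N in ClubS (Obj I.C), ∀ p : I.C, Obj.cond p ∈ N → ∀ γ : Ordinal.{0},
      p.1 γ ≠ I.x₀ → Obj.ord (γ : Stg) ∈ N := by
    refine cs_lift cond_inj fun p => ?_
    filter_upwards [cs_sub (W := Obj I.C) (p.2.image (fun γ : Ordinal.{0} => Obj.ord (γ : Stg)))]
      with N hN γ hγ
    exact hN ⟨γ, hγ, rfl⟩
  have h6 : ∀ᶠ N in ClubS (Obj I.C), ∀ β, Obj.ord β ∈ N → ∀ c, Obj.cond c ∈ N →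
      ∀ p, Obj.cond p ∈ N → Obj.cond (I.glue β c p) ∈ N :=
    cs_lift ord_inj fun β => cs_lift cond_inj fun c => cs_lift cond_inj fun p => cs_mem _
  have h7 : ∀ᶠ N in ClubS (Obj I.C), Obj.cond I.one ∈ N := cs_mem _
  have h8 : ∀ᶠ N in ClubS (Obj I.C), ∀ D, Obj.dset D ∈ N → D.Nonempty →
      ∃ d ∈ D, Obj.cond d ∈ N := by
    refine cs_lift dset_inj fun D => ?_
    by_cases hD : D.Nonempty
    · obtain ⟨d, hd⟩ := hD
      filter_upwards [cs_mem (W := Obj I.C) (Obj.cond d)] with N hN _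
      exact ⟨d, hd, hN⟩
    · exact Filter.Eventually.of_forall fun N h => absurd h hD
  have h9 : ∀ᶠ N in ClubS (Obj I.C), ∀ D, Obj.dset D ∈ N → ∀ p, Obj.cond p ∈ N →
      ∀ β, Obj.ord β ∈ N → ∀ δ, Obj.ord δ ∈ N →
      Obj.dset {c | (∃ d ∈ D, I.le δ d p ∧ I.le β c d) ∨ ∀ s, I.le β s c → ¬ I.le β s p} ∈ N :=
    cs_lift dset_inj fun D => cs_lift cond_inj fun p => cs_lift ord_inj fun β =>
      cs_lift ord_inj fun δ => cs_mem _
  have h10 : ∀ᶠ N in ClubS (Obj I.C), ∀ D, Obj.dset D ∈ N → ∀ p, Obj.cond p ∈ N →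
      ∀ β, Obj.ord β ∈ N → ∀ δ, Obj.ord δ ∈ N →
      ∀ c, Obj.cond c ∈ N → (∃ d ∈ D, I.le δ d p ∧ I.le β c d) →
        ∃ d ∈ D, Obj.cond d ∈ N ∧ I.le δ d p ∧ I.le β c d := by
    refine cs_lift dset_inj fun D => cs_lift cond_inj fun p => cs_lift ord_inj fun β =>
      cs_lift ord_inj fun δ => cs_lift cond_inj fun c => ?_
    by_cases h : ∃ d ∈ D, I.le δ d p ∧ I.le β c d
    · obtain ⟨d, hd, h', h''⟩ := h
      filter_upwards [cs_mem (W := Obj I.C) (Obj.cond d)] with N hN _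
      exact ⟨d, hd, hN, h', h''⟩
    · exact Filter.Eventually.of_forall fun N h' => absurd h' h
  filter_upwards [h1, h2, h3, h4, h5, h6, h7, h8, h9, h10] with N a1 a2 a3 a4 a5 a6 a7 a8 a9 a10
  exact ⟨a1, a2, a3, a4, a5, a6, a7, a8, a9, a10⟩

theorem cs_proper (hI : I.Proper) : ∀ᶠ N in ClubS (Obj I.C), ∀ β : Ordinal.{0},
    Obj.ord (β : Stg) ∈ N → ∀ q p : I.C, I.NGen N (β : Stg) q → Obj.cond p ∈ N →
      I.le (β : Stg) q p → ∃ x, I.At β q x (p.1 β) ∧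
        I.NGen N ((β + 1 : Ordinal.{0}) : Stg) (I.upd β q x) :=
  cs_lift ordO_inj hI

theorem ngen_mono {N : Set (Obj I.C)} {δ : Stg} {q q' : I.C} (h : I.NGen N δ q)
    (hq : I.le δ q' q) : I.NGen N δ q' :=
  fun D hD hd r hr => h D hD hd r (I.le_trans' δ hr hq)

/-- equivalent conditions -/
theorem ngen_congr {N : Set (Obj I.C)} {δ : Stg} {q q' : I.C} (h : I.NGen N δ q)
    (hq : ∀ γ : Ordinal.{0}, (γ : Stg) < δ → q'.1 γ = q.1 γ) : I.NGen N δ q' :=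
  ngen_mono h (le_of_eqOn hq)

/-- density is enough -/
theorem ngen_of_dense {N : Set (Obj I.C)} {δ : Stg} {q : I.C}
    (h : ∀ r, I.le δ r q → ∃ s, I.le δ s r ∧ I.NGen N δ s) : I.NGen N δ q := by
  intro D hD hd r hr
  obtain ⟨s, hs, hg⟩ := h r hr
  obtain ⟨d, hdD, hdN, t, ht, ht'⟩ := hg D hD hd s (I.le_refl' δ s)
  exact ⟨d, hdD, hdN, t, I.le_trans' δ ht hs, ht'⟩

theorem ngen_zero {N : Set (Obj I.C)} (hN : I.Cl N) (q : I.C) :
    I.NGen N ((0 : Ordinal.{0}) : Stg) q := by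
  intro D hD hd r _
  obtain ⟨d, hdD, _⟩ := hd I.one
  obtain ⟨d', hd', hdN⟩ := hN.ne D hD ⟨d, hdD⟩
  refine ⟨d', hd', hdN, r, I.le_refl' _ r, ?_⟩
  intro γ hγ
  exact absurd (WithTop.coe_lt_coe.1 hγ) (not_lt.2 (zero_le (a := γ)))

/-- maximal antichains below a condition inside an open set: for a set `D` open and dense below `q` (at stage `δ`) there is `A ⊆ D`, an antichain, such that every
`r ≤ q` is compatible with an element of `A`, all elements of `A` being `≤ q`. -/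
theorem exists_antichain {δ : Stg} {q : I.C} {D : Set I.C}
    (hD : ∀ r, I.le δ r q → ∃ s, I.le δ s r ∧ s ∈ D)
    (hDo : ∀ r ∈ D, ∀ s, I.le δ s r → s ∈ D) :
    ∃ A : Set I.C, A ⊆ D ∧ (∀ a ∈ A, I.le δ a q) ∧
      (∀ a ∈ A, ∀ b ∈ A, ∀ r, I.le δ r a → I.le δ r b → a = b) ∧
      ∀ r, I.le δ r q → ∃ a ∈ A, ∃ s, I.le δ s r ∧ I.le δ s a := by
  obtain ⟨M, hM⟩ := zorn_subset {A : Set I.C | A ⊆ D ∧ (∀ a ∈ A, I.le δ a q) ∧
      ∀ a ∈ A, ∀ b ∈ A, ∀ r, I.le δ r a → I.le δ r b → a = b} (by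
    intro c hc hch
    refine ⟨⋃₀ c, ⟨?_, ?_, ?_⟩, fun s hs => Set.subset_sUnion_of_mem hs⟩
    · rintro a ⟨A, hA, ha⟩
      exact (hc hA).1 ha
    · rintro a ⟨A, hA, ha⟩
      exact (hc hA).2.1 a ha
    · rintro a ⟨A, hA, ha⟩ b ⟨B, hB, hb⟩ r h1 h2
      rcases hch.total hA hB with h | h
      · exact (hc hB).2.2 a (h ha) b hb r h1 h2
      · exact (hc hA).2.2 a ha b (h hb) r h1 h2)
  refine ⟨M, hM.prop.1, hM.prop.2.1, hM.prop.2.2, ?_⟩
  intro r hr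
  by_contra hcon
  push Not at hcon
  obtain ⟨s, hs, hsD⟩ := hD r hr
  have h1 : insert s M ∈ {A : Set I.C | A ⊆ D ∧ (∀ a ∈ A, I.le δ a q) ∧
      ∀ a ∈ A, ∀ b ∈ A, ∀ r, I.le δ r a → I.le δ r b → a = b} := by
    refine ⟨Set.insert_subset hsD hM.prop.1, ?_, ?_⟩
    · rintro a (rfl | ha)
      · exact I.le_trans' δ hs hr
      · exact hM.prop.2.1 a ha
    · rintro a (rfl | ha) b (rfl | hb) t h1 h2
      · rfl
      · exact absurd h2 (hcon b hb t (I.le_trans' δ h1 hs))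
      · exact absurd h1 (hcon a ha t (I.le_trans' δ h2 hs))
      · exact hM.prop.2.2 a ha b hb t h1 h2
  have h2 : s ∈ M := hM.le_of_ge h1 (Set.subset_insert s M) (Set.mem_insert s M)
  exact hcon s h2 s hs (I.le_refl' δ s)

end

end Pool.Agent.CSI
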