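import Pool.Agent.Lib_CSI.Hull

/-!
# Piece LIM: the limit construction

`N` a countable hull, `dn n` ordinals of `N`, increasing, below `δ` and cofinal in `N ∩ δ`. There is a countable type `St` of states; a state `x` has a condition `r x ∈ N`; `S n x` means that
`x` is a state of level `n`; `Ok n x` is a set of conditions, open at stage `dn n`, all below `r x` at stage `dn n`.

PROOF. We construct by recursion conditions `q n`, sets `A n` of conditions and functions `lam n : A n → St`, such that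
(i) `q (n+1)` agrees with `q n` below `dn n`; `q n` is `NGen` at stage `dn n`; for `γ ≥ dn 0`, `(q n) γ ≠ x₀` implies `γ ∈ N`, `γ < dn n`.
(ii) `A 0 = {q 0}`, `lam 0 = x0`. For `n ≥ 1`: `A n` is an antichain at stage `dn (n-1)`, of conditions below `q (n-1)` at stage `dn (n-1)`, maximal: every `r ≤ q (n-1)` at this stage is compatible with an element of
`A n`; for `n ≥ 2` every `a ∈ A n` is below an element `a'` of `A (n-1)` at stage `dn (n-2)`, and (for all `n ≥ 1`, with `a' = q 0` if `n = 1`) `r (lam n a) ≤_δ r (lam (n-1) a')`.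
(iii) `S n (lam n a)`; and for all `c` with `c ≤ q n` at stage `dn n` and `c ≤ a` at stage `dn (n-1)` (no condition if `n = 0`): `Ok n (lam n a) c`.
STEP `n → n+1`. Let `D` be the set of the conditions `s` such that, for some `a ∈ A n` and some state `x'`: `s ≤ q n` at stage `dn n`, `s ≤ a` at stage `dn (n-1)`, `S (n+1) x'`, `r x' ≤_δ r (lam n a)`,
`s ≤ r x'` at stage `dn n`, and every `c` with `c ≤ s` at stage `dn n`, `c ≤ r x'` at stage `dn (n+1)` satisfies `Ok (n+1) x' c`. `D` is open at stage `dn n`, and dense below `q n`: given `r' ≤ q n` (stage `dn n`), by the maximality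
of `A n` there is `s ≤ r'`, `s ≤ a` at stage `dn (n-1)`; glue: `s' = glue (dn (n-1)) s r' ≤ r'` at stage `dn n`; it is `NGen` and `Ok n (lam n a) s'` by (iii); apply `step`. Take a maximal antichain
`A (n+1) ⊆ D` (`exists_antichain`) and `lam (n+1) a = x'`. For each `a ∈ A (n+1)`: `a` is `NGen` at stage `dn n`, `a ≤ r x'` at stage `dn n`, `r x' ∈ N`. By `EXTN` there is `Q a` which agrees with `a` below `dn n`, with support
in `N` between `dn n` and `dn (n+1)`, `Q a ≤ r x'` at stage `dn (n+1)`, `NGen` at stage `dn (n+1)`. Define `q (n+1)`: `q n` below `dn n`; for `dn n ≤ γ < dn (n+1)`, `γ ∈ N`: the code `x` given by `I.mix γ` for the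
antichain of the `cut (dn n) a`, `a ∈ A (n+1)`, and the function `cut (dn n) a ↦ (Q a) γ` (well defined because different elements of the antichain have different restrictions); for `γ ∉ N` : `x₀` (and `(Q a) γ = x₀`
for all `a`); `x₀` from `dn (n+1)` on. If `c ≤ q (n+1)` at stage `dn (n+1)` and `c ≤ a` at stage `dn n`, `a ∈ A (n+1)`, then `c ≤ Q a` at stage `dn (n+1)`: below `dn n` because `Q a` agrees with `a`; at `γ ∈ [dn n, dn (n+1))` because
`c ≤ cut (dn n) a` at stage `γ`. So `c ≤ r x'` at stage `dn (n+1)`, which gives (iii). `NGen` for `q (n+1)`: every `r' ≤ q (n+1)` is compatible (stage `dn n`) with some `a`; glue; the result is below `Q a` (`ngen_of_dense`, `ngen_mono`).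
THE CONDITION `q`: the union of the `q n`: `q γ = (q n) γ` for `γ < dn n`, and `x₀` for `γ` above all `dn n`. Let `n` and `r' ≤_δ q`. There is `s ≤ r'` at stage `dn (n-1)` with `s ≤ a ∈ A n` (maximality); let
`r₁ = glue (dn (n-1)) s r' ≤_δ r'`, `x = lam n a`. `Ok n x r₁` by (iii). CLAIM: `r₁ ≤_δ r x`. It is enough that `r₁ ≤ r x` at stage `dn m` for all `m ≥ n` (coordinates `γ < δ` of the support of `r x` are in `N`, so
below some `dn m`). By `le_of_dense` it is enough that every `t ≤ r₁` at stage `dn m` has an extension `≤ r x` at stage `dn m`: `t` is compatible (stage `dn (m-1)`) with some `a_m ∈ A m`; glue to get `t' ≤ t` (stage `dn m`),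
`t' ≤ a_m` (stage `dn (m-1)`), so `Ok m (lam m a_m) t'` and `t' ≤ r (lam m a_m)` (stage `dn m`). Following the predecessors `a_m, a_{m-1}, ..., a_n` we get `t' ≤ a_n` at stage `dn (n-1)` with `a_n ∈ A n` and
`r (lam m a_m) ≤_δ r (lam n a_n)`. As `t' ≤ a` too and `A n` is an antichain, `a_n = a`. So `t' ≤ r x` at stage `dn m`.
(For the recursion use a structure or a sigma type of the data `(q n, A n, lam n)` with (iii) and the other properties of one level, and `exists_seq`-like dependent choice.)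
-/

set_option autoImplicit false

namespace Pool.Agent.CSI

variable {I : It}

/-- maximal antichains of conditions that are trivial from the stage on -/
private theorem lim_antichain {δ : Stg} {q : I.C} {D : Set I.C}
    (hD : ∀ r, I.le δ r q → ∃ s, I.le δ s r ∧ s ∈ D)
    (hDo : ∀ r ∈ D, ∀ s, I.le δ s r → s ∈ D) :
    ∃ A : Set I.C, A ⊆ D ∧ (∀ a ∈ A, I.le δ a q) ∧
      (∀ a ∈ A, ∀ b ∈ A, ∀ r, I.le δ r a → I.le δ r b → a = b) ∧
      (∀ r, I.le δ r q → ∃ a ∈ A, ∃ s, I.le δ s r ∧ I.le δ s a) ∧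
      ∀ a ∈ A, ∀ γ : Ordinal.{0}, δ ≤ (γ : Stg) → a.1 γ = I.x₀ := by
  obtain ⟨A, h1, h2, h3, h4⟩ := exists_antichain hD hDo
  refine ⟨I.cut δ '' A, ?_, ?_, ?_, ?_, ?_⟩
  · rintro _ ⟨a, ha, rfl⟩
    exact hDo a (h1 ha) _ (cut_le_of_le le_rfl)
  · rintro _ ⟨a, ha, rfl⟩
    exact I.le_trans' δ (cut_le_of_le le_rfl) (h2 a ha)
  · rintro _ ⟨a, ha, rfl⟩ _ ⟨b, hb, rfl⟩ r hra hrb
    rw [h3 a ha b hb r ((le_cut_iff le_rfl).1 hra) ((le_cut_iff le_rfl).1 hrb)]
  · intro r hr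
    obtain ⟨a, ha, s, hs, hsa⟩ := h4 r hr
    exact ⟨_, ⟨a, ha, rfl⟩, s, hs, le_cut_of_le hsa⟩
  · rintro _ ⟨a, ha, rfl⟩ γ hγ
    exact cut_ge hγ

/-- the previous stage -/
private def lim_pn (dn : ℕ → Ordinal.{0}) : ℕ → Ordinal.{0}
  | 0 => 0
  | n + 1 => dn n

private theorem lim_pn_le {dn : ℕ → Ordinal.{0}} (hmono : StrictMono dn) (n : ℕ) :
    (lim_pn dn n : Stg) ≤ (dn n : Stg) := by
  rw [WithTop.coe_le_coe]
  cases n with
  | zero => exact zero_le
  | succ n => exact (hmono (Nat.lt_succ_self n)).le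

private theorem lim_zero (p q : I.C) : I.le ((0 : Ordinal.{0}) : Stg) p q := by
  intro γ hγ
  rw [WithTop.coe_lt_coe] at hγ
  exact absurd hγ not_lt_zero

/-- the data and the properties of one level -/
private structure LimLev (N : Set (Obj I.C)) (dn : ℕ → Ordinal.{0}) {St : Type*}
    (S : ℕ → St → Prop) (Ok : ℕ → St → I.C → Prop) (n : ℕ)
    (L : I.C × Set I.C × (I.C → St)) : Prop where
  gen : I.NGen N (dn n : Stg) L.1
  supp : ∀ γ : Ordinal.{0}, dn 0 ≤ γ → L.1.1 γ ≠ I.x₀ → Obj.ord (γ : Stg) ∈ N ∧ γ < dn n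
  anti : ∀ a ∈ L.2.1, ∀ b ∈ L.2.1, ∀ r, I.le (lim_pn dn n : Stg) r a →
    I.le (lim_pn dn n : Stg) r b → a = b
  max : ∀ r, I.le (lim_pn dn n : Stg) r L.1 → ∃ a ∈ L.2.1, ∃ s,
    I.le (lim_pn dn n : Stg) s r ∧ I.le (lim_pn dn n : Stg) s a
  st : ∀ a ∈ L.2.1, S n (L.2.2 a)
  ok : ∀ a ∈ L.2.1, ∀ c, I.le (dn n : Stg) c L.1 → I.le (lim_pn dn n : Stg) c a →
    Ok n (L.2.2 a) c

/-- the relation between successive levels -/
private structure LimRel (dn : ℕ → Ordinal.{0}) (δ : Stg) {St : Type*} (r : St → I.C) (n : ℕ)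
    (L L' : I.C × Set I.C × (I.C → St)) : Prop where
  agree : ∀ γ : Ordinal.{0}, γ < dn n → L'.1.1 γ = L.1.1 γ
  pred : ∀ a' ∈ L'.2.1, ∃ a ∈ L.2.1, I.le (lim_pn dn n : Stg) a' a ∧
    I.le δ (r (L'.2.2 a')) (r (L.2.2 a))

private theorem lim_step {N : Set (Obj I.C)} (hN : I.Cl N) {δ : Stg} {dn : ℕ → Ordinal.{0}}
    (hmono : StrictMono dn) (hext : ∀ n, I.EXTN N (dn n : Stg) (dn (n + 1) : Stg))
    {St : Type*} {r : St → I.C} (hr : ∀ x, Obj.cond (r x) ∈ N) {S : ℕ → St → Prop}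
    {Ok : ℕ → St → I.C → Prop}
    (step : ∀ n x q, S n x → I.NGen N (dn n : Stg) q → Ok n x q →
      ∃ q' x', I.le (dn n : Stg) q' q ∧ S (n + 1) x' ∧ I.le δ (r x') (r x) ∧
        I.le (dn n : Stg) q' (r x') ∧ ∀ c, I.le (dn n : Stg) c q' →
          I.le (dn (n + 1) : Stg) c (r x') → Ok (n + 1) x' c)
    (x₁ : St) (n : ℕ) (L : I.C × Set I.C × (I.C → St)) (hL : LimLev N dn S Ok n L) :
    ∃ L', LimLev N dn S Ok (n + 1) L' ∧ LimRel dn δ r n L L' := by
  classical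
  obtain ⟨q, A, lam⟩ := L
  obtain ⟨hgen, hsupp, -, hmax, hst, hok⟩ := hL
  simp only at hgen hsupp hmax hst hok
  have hpn := lim_pn_le hmono n
  -- the dense set
  obtain ⟨Rl, hRl⟩ : ∃ Rl : I.C → I.C → St → Prop, Rl = fun s a x' =>
      I.le (dn n : Stg) s q ∧ I.le (lim_pn dn n : Stg) s a ∧ S (n + 1) x' ∧
      I.le δ (r x') (r (lam a)) ∧ I.le (dn n : Stg) s (r x') ∧
      ∀ c, I.le (dn n : Stg) c s → I.le (dn (n + 1) : Stg) c (r x') → Ok (n + 1) x' c := ⟨_, rfl⟩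
  have hdense : ∀ r', I.le (dn n : Stg) r' q → ∃ s, I.le (dn n : Stg) s r' ∧
      s ∈ {s | ∃ a ∈ A, ∃ x', Rl s a x'} := by
    intro r' hr'
    obtain ⟨a, ha, s, hs, hsa⟩ := hmax r' (I.le_stage hpn hr')
    have h1 : I.le (dn n : Stg) (I.glue (lim_pn dn n : Stg) s r') r' := glue_le hs
    have h2 : I.le (lim_pn dn n : Stg) (I.glue (lim_pn dn n : Stg) s r') a :=
      I.le_trans' _ glue_le_left hsa
    have h3 : I.le (dn n : Stg) (I.glue (lim_pn dn n : Stg) s r') q := I.le_trans' _ h1 hr'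
    obtain ⟨q', x', h4, h5, h6, h7, h8⟩ := step n (lam a) _ (hst a ha) (ngen_mono hgen h3)
      (hok a ha _ h3 h2)
    refine ⟨q', I.le_trans' _ h4 h1, a, ha, x', ?_⟩
    rw [hRl]
    exact ⟨I.le_trans' _ h4 h3, I.le_trans' _ (I.le_stage hpn h4) h2, h5, h6, h7, h8⟩
  have hopen : ∀ r' ∈ {s | ∃ a ∈ A, ∃ x', Rl s a x'}, ∀ s, I.le (dn n : Stg) s r' →
      s ∈ {s | ∃ a ∈ A, ∃ x', Rl s a x'} := by
    rintro r' ⟨a, ha, x', hR⟩ s hs
    rw [hRl] at hR
    obtain ⟨h1, h2, h3, h4, h5, h6⟩ := hR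
    refine ⟨a, ha, x', ?_⟩
    rw [hRl]
    exact ⟨I.le_trans' _ hs h1, I.le_trans' _ (I.le_stage hpn hs) h2, h3, h4,
      I.le_trans' _ hs h5, fun c hc => h6 c (I.le_trans' _ hc hs)⟩
  obtain ⟨A', hA'D, hA'q, hA'a, hA'm, hA'c⟩ := lim_antichain hdense hopen
  -- the choices
  have hch : ∀ a' : I.C, ∃ (a : I.C) (x' : St) (Q : I.C), a' ∈ A' → a ∈ A ∧ Rl a' a x' ∧
      (∀ γ : Ordinal.{0}, (γ : Stg) < (dn n : Stg) → Q.1 γ = a'.1 γ) ∧
      (∀ γ : Ordinal.{0}, (dn n : Stg) ≤ (γ : Stg) → Q.1 γ ≠ I.x₀ → Obj.ord (γ : Stg) ∈ N ∧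
        (γ : Stg) < (dn (n + 1) : Stg)) ∧
      I.le (dn (n + 1) : Stg) Q (r x') ∧ I.NGen N (dn (n + 1) : Stg) Q := by
    intro a'
    by_cases ha' : a' ∈ A'
    · obtain ⟨a, ha, x', hR⟩ := hA'D ha'
      have hR' := hR
      rw [hRl] at hR'
      obtain ⟨Q, h1, h2, h3, h4⟩ := hext n a' (r x') (ngen_mono hgen (hA'q a' ha')) (hr x')
        hR'.2.2.2.2.1
      exact ⟨a, x', Q, fun _ => ⟨ha, hR, h1, h2, h3, h4⟩⟩
    · exact ⟨a', x₁, a', fun h => absurd h ha'⟩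
  choose old lam' Q hQ using hch
  -- mixing
  have hmix : ∀ γ : Ordinal.{0}, ∃ x, dn n ≤ γ → ∀ a ∈ A', I.At γ a x ((Q a).1 γ) ∧
      I.At γ a ((Q a).1 γ) x := by
    intro γ
    by_cases hγ : dn n ≤ γ
    · have hγ' : (dn n : Stg) ≤ (γ : Stg) := WithTop.coe_le_coe.2 hγ
      obtain ⟨x, hx⟩ := I.mix γ A' (fun a => (Q a).1 γ) fun a ha b hb s hsa hsb =>
        hA'a a ha b hb s (I.le_stage hγ' hsa) (I.le_stage hγ' hsb)
      exact ⟨x, fun _ => hx⟩
    · exact ⟨I.x₀, fun h => absurd h hγ⟩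
  choose X hX using hmix
  have hNc : {γ : Ordinal.{0} | Obj.ord (γ : Stg) ∈ N}.Countable := by
    have hinj : Function.Injective (fun γ : Ordinal.{0} => (Obj.ord (γ : Stg) : Obj I.C)) := by
      intro γ γ' h
      simp only [Obj.ord.injEq] at h
      exact WithTop.coe_injective h
    exact hN.ctbl.preimage hinj
  -- the new condition
  obtain ⟨q', hq'1, hq'2, hq'3⟩ : ∃ q' : I.C, (∀ γ, γ < dn n → q'.1 γ = q.1 γ) ∧
      (∀ γ, dn n ≤ γ → γ < dn (n + 1) → Obj.ord (γ : Stg) ∈ N → q'.1 γ = X γ) ∧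
      (∀ γ, dn n ≤ γ → ¬ (γ < dn (n + 1) ∧ Obj.ord (γ : Stg) ∈ N) → q'.1 γ = I.x₀) := by
    refine ⟨⟨fun γ => if γ < dn n then q.1 γ else
      if γ < dn (n + 1) ∧ Obj.ord (γ : Stg) ∈ N then X γ else I.x₀, ?_⟩, ?_, ?_, ?_⟩
    · refine (q.2.union hNc).mono ?_
      intro γ hγ
      by_cases h1 : γ < dn n
      · left
        simpa [h1] using hγ
      · right
        by_contra h2
        apply hγ
        have h3 : ¬ (γ < dn (n + 1) ∧ Obj.ord (γ : Stg) ∈ N) := fun h => h2 h.2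
        simp only [h1, h3, if_false]
    · intro γ h1
      exact if_pos h1
    · intro γ h1 h2 h3
      show (if γ < dn n then q.1 γ else
        if γ < dn (n + 1) ∧ Obj.ord (γ : Stg) ∈ N then X γ else I.x₀) = X γ
      rw [if_neg (not_lt.2 h1), if_pos ⟨h2, h3⟩]
    · intro γ h1 h2
      show (if γ < dn n then q.1 γ else
        if γ < dn (n + 1) ∧ Obj.ord (γ : Stg) ∈ N then X γ else I.x₀) = I.x₀
      rw [if_neg (not_lt.2 h1), if_neg h2]
  have hqq' : I.le (dn n : Stg) q' q := le_of_eqOn fun γ hγ => hq'1 γ (WithTop.coe_lt_coe.1 hγ)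
  have hstage : (dn n : Stg) ≤ (dn (n + 1) : Stg) :=
    WithTop.coe_le_coe.2 (hmono (Nat.lt_succ_self n)).le
  -- the key property
  have key : ∀ a ∈ A', ∀ c, I.le (dn (n + 1) : Stg) c q' → I.le (dn n : Stg) c a →
      I.le (dn (n + 1) : Stg) c (Q a) := by
    intro a ha c hc hca γ hγ
    obtain ⟨-, -, h1, h2, -, -⟩ := hQ a ha
    rcases lt_or_ge γ (dn n) with h3 | h3
    · rw [h1 γ (WithTop.coe_lt_coe.2 h3)]
      exact hca γ (WithTop.coe_lt_coe.2 h3)
    · have h3' : (dn n : Stg) ≤ (γ : Stg) := WithTop.coe_le_coe.2 h3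
      by_cases h4 : Obj.ord (γ : Stg) ∈ N
      · have h5 := hc γ hγ
        rw [hq'2 γ h3 (WithTop.coe_lt_coe.1 hγ) h4] at h5
        have h6 : I.le (γ : Stg) c a := by
          intro ε hε
          rcases lt_or_ge ε (dn n) with h7 | h7
          · exact hca ε (WithTop.coe_lt_coe.2 h7)
          · rw [hA'c a ha ε (WithTop.coe_le_coe.2 h7)]
            exact I.top _ _ _
        exact I.trans _ _ _ _ _ h5 (at_mono h6 (hX γ h3 a ha).1)
      · have h5 : (Q a).1 γ = I.x₀ := by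
          by_contra h6
          exact h4 (h2 γ h3' h6).1
        rw [h5]
        exact I.top _ _ _
  have hmax' : ∀ s, I.le (dn n : Stg) s q' → ∃ a ∈ A', ∃ t, I.le (dn n : Stg) t s ∧
      I.le (dn n : Stg) t a := fun s hs => hA'm s (I.le_trans' _ hs hqq')
  refine ⟨(q', A', lam'), ⟨?_, ?_, ?_, ?_, ?_, ?_⟩, ?_, ?_⟩
  · refine ngen_of_dense fun s hs => ?_
    obtain ⟨a, ha, t, hts, hta⟩ := hmax' s (I.le_stage hstage hs)
    have h1 : I.le (dn (n + 1) : Stg) (I.glue (dn n : Stg) t s) s := glue_le hts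
    refine ⟨_, h1, ?_⟩
    have h2 := key a ha (I.glue (dn n : Stg) t s) (I.le_trans' _ h1 hs)
      (I.le_trans' _ glue_le_left hta)
    exact ngen_mono (hQ a ha).2.2.2.2.2 h2
  · intro γ h1 h2
    rcases lt_or_ge γ (dn n) with h3 | h3
    · have h4 : q'.1 γ ≠ I.x₀ := h2
      rw [hq'1 γ h3] at h4
      exact ⟨(hsupp γ h1 h4).1, h3.trans (hmono (Nat.lt_succ_self n))⟩
    · by_contra h4
      apply h2
      exact hq'3 γ h3 fun h5 => h4 ⟨h5.2, h5.1⟩
  · exact hA'a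
  · exact hmax'
  · intro a ha
    have h1 := (hQ a ha).2.1
    rw [hRl] at h1
    exact h1.2.2.1
  · intro a ha c hc hca
    have h1 := (hQ a ha).2.1
    rw [hRl] at h1
    refine h1.2.2.2.2.2 c hca ?_
    exact I.le_trans' _ (key a ha c hc hca) (hQ a ha).2.2.2.2.1
  · exact hq'1
  · intro a ha
    have h1 := (hQ a ha).2.1
    rw [hRl] at h1
    exact ⟨old a, (hQ a ha).1, h1.2.1, h1.2.2.2.1⟩

theorem lim_construction (N : Set (Obj I.C)) (hN : I.Cl N) (δ : Stg) (dn : ℕ → Ordinal.{0})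
    (hmono : StrictMono dn) (hdnN : ∀ n, Obj.ord (dn n : Stg) ∈ N) (hdn : ∀ n, (dn n : Stg) < δ)
    (hcof : ∀ γ : Ordinal.{0}, Obj.ord (γ : Stg) ∈ N → (γ : Stg) < δ → ∃ n, γ < dn n)
    (hext : ∀ n, I.EXTN N (dn n : Stg) (dn (n + 1) : Stg))
    {St : Type*} (r : St → I.C) (hr : ∀ x, Obj.cond (r x) ∈ N) (S : ℕ → St → Prop)
    (Ok : ℕ → St → I.C → Prop)
    (hOk1 : ∀ n x c, Ok n x c → I.le (dn n : Stg) c (r x))
    (hOk2 : ∀ n x c c', Ok n x c → I.le (dn n : Stg) c' c → Ok n x c')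
    (step : ∀ n x q, S n x → I.NGen N (dn n : Stg) q → Ok n x q →
      ∃ q' x', I.le (dn n : Stg) q' q ∧ S (n + 1) x' ∧ I.le δ (r x') (r x) ∧
        I.le (dn n : Stg) q' (r x') ∧ ∀ c, I.le (dn n : Stg) c q' →
          I.le (dn (n + 1) : Stg) c (r x') → Ok (n + 1) x' c)
    (q₀ : I.C) (x₁ : St) (hS : S 0 x₁) (hq₀ : I.NGen N (dn 0 : Stg) q₀) (hOk : Ok 0 x₁ q₀) :
    ∃ q : I.C, (∀ γ : Ordinal.{0}, γ < dn 0 → q.1 γ = q₀.1 γ) ∧
      (∀ γ : Ordinal.{0}, dn 0 ≤ γ → q.1 γ ≠ I.x₀ → Obj.ord (γ : Stg) ∈ N ∧ (γ : Stg) < δ) ∧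
      ∀ n, ∀ r', I.le δ r' q → ∃ s, I.le δ s r' ∧ ∃ x, S n x ∧ I.le δ s (r x) ∧ Ok n x s := by
  classical
  have hL0 : LimLev N dn S Ok 0
      (I.cut (dn 0 : Stg) q₀, {I.cut (dn 0 : Stg) q₀}, fun _ => x₁) := by
    refine ⟨ngen_congr hq₀ fun γ hγ => cut_lt hγ, ?_, ?_, ?_, ?_, ?_⟩
    · intro γ hγ h
      exact absurd (cut_ge (WithTop.coe_le_coe.2 hγ)) h
    · rintro a ha b hb _ _ _
      rw [Set.mem_singleton_iff] at ha hb
      rw [ha, hb]
    · intro s _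
      exact ⟨_, Set.mem_singleton _, s, I.le_refl' _ _, lim_zero _ _⟩
    · intro a _
      exact hS
    · intro a _ c hc _
      exact hOk2 0 x₁ q₀ c hOk (I.le_trans' _ hc (cut_le_of_le le_rfl))
  have hst : ∀ (n : ℕ) (L : {L : I.C × Set I.C × (I.C → St) // LimLev N dn S Ok n L}),
      ∃ L' : I.C × Set I.C × (I.C → St), LimLev N dn S Ok (n + 1) L' ∧ LimRel dn δ r n L.1 L' :=
    fun n L => lim_step hN hmono hext hr step x₁ n L.1 L.2
  choose F hF1 hF2 using hst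
  obtain ⟨f, hf0, hfs⟩ : ∃ f : ∀ n, {L : I.C × Set I.C × (I.C → St) // LimLev N dn S Ok n L},
      (f 0).1 = (I.cut (dn 0 : Stg) q₀, {I.cut (dn 0 : Stg) q₀}, fun _ => x₁) ∧
      ∀ n, LimRel dn δ r n (f n).1 (f (n + 1)).1 := by
    refine ⟨fun n => Nat.rec ⟨_, hL0⟩ (fun n L => ⟨F n L, hF1 n L⟩) n, rfl, fun n => ?_⟩
    exact hF2 n _
  have hpos : ∀ n m, n ≤ m → dn n ≤ dn m := fun n m h => hmono.monotone h
  have hagree : ∀ n k γ, γ < dn n → (f (n + k)).1.1.1 γ = (f n).1.1.1 γ := by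
    intro n k
    induction k with
    | zero => intro γ _; rfl
    | succ k ih =>
      intro γ hγ
      rw [← ih γ hγ]
      exact (hfs (n + k)).agree γ (lt_of_lt_of_le hγ (hpos _ _ (Nat.le_add_right n k)))
  -- the union
  obtain ⟨q, hq1, hq2⟩ : ∃ q : I.C, (∀ n γ, γ < dn n → q.1 γ = (f n).1.1.1 γ) ∧
      ∀ γ, (∀ n, dn n ≤ γ) → q.1 γ = I.x₀ := by
    have h0 : ∀ n γ, γ < dn n → (if h : ∃ n, γ < dn n then (f (Nat.find h)).1.1.1 γ else I.x₀) =
        (f n).1.1.1 γ := by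
      intro n γ hγ
      have h : ∃ n, γ < dn n := ⟨n, hγ⟩
      rw [dif_pos h]
      have h1 : Nat.find h ≤ n := Nat.find_min' h hγ
      obtain ⟨k, hk⟩ := Nat.exists_eq_add_of_le h1
      have h2 := hagree (Nat.find h) k γ (Nat.find_spec h)
      rw [← hk] at h2
      exact h2.symm
    refine ⟨⟨fun γ => if h : ∃ n, γ < dn n then (f (Nat.find h)).1.1.1 γ else I.x₀, ?_⟩, h0,
      fun γ hγ => ?_⟩
    · refine (Set.countable_iUnion fun n => (f n).1.1.2).mono ?_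
      intro γ hγ
      have h1 : ∃ n, γ < dn n := by
        by_contra h2
        exact hγ (dif_neg h2)
      obtain ⟨n, hn⟩ := h1
      rw [Set.mem_iUnion]
      refine ⟨n, fun h3 => hγ ?_⟩
      exact (h0 n γ hn).trans h3
    · exact dif_neg fun ⟨n, hn⟩ => absurd hn (not_lt.2 (hγ n))
  have hqn : ∀ n, I.le (dn n : Stg) q (f n).1.1 := fun n =>
    le_of_eqOn fun γ hγ => hq1 n γ (WithTop.coe_lt_coe.1 hγ)
  -- predecessors
  have hpred : ∀ n k, ∀ b ∈ (f (n + k)).1.2.1, ∀ t, I.le (lim_pn dn (n + k) : Stg) t b →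
      ∃ a ∈ (f n).1.2.1, I.le (lim_pn dn n : Stg) t a ∧
        I.le δ (r ((f (n + k)).1.2.2 b)) (r ((f n).1.2.2 a)) := by
    intro n k
    induction k with
    | zero => intro b hb t ht; exact ⟨b, hb, ht, I.le_refl' _ _⟩
    | succ k ih =>
      intro b hb t ht
      obtain ⟨a', ha', h1, h2⟩ := (hfs (n + k)).pred b hb
      have h3 : I.le (lim_pn dn (n + k) : Stg) t b := I.le_stage (lim_pn_le hmono (n + k)) ht
      obtain ⟨a, ha, h4, h5⟩ := ih a' ha' t (I.le_trans' _ h3 h1)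
      exact ⟨a, ha, h4, I.le_trans' _ h2 h5⟩
  refine ⟨q, ?_, ?_, ?_⟩
  · intro γ hγ
    rw [hq1 0 γ hγ, hf0]
    exact cut_lt (WithTop.coe_lt_coe.2 hγ)
  · intro γ h1 h2
    have h3 : ∃ n, γ < dn n := by
      by_contra h4
      push Not at h4
      exact h2 (hq2 γ h4)
    obtain ⟨n, hn⟩ := h3
    rw [hq1 n γ hn] at h2
    exact ⟨((f n).2.supp γ h1 h2).1, (WithTop.coe_lt_coe.2 hn).trans (hdn n)⟩
  · intro n r' hr'
    have hδ : ∀ m, (dn m : Stg) ≤ δ := fun m => (hdn m).le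
    have hpnn : ∀ m, (lim_pn dn m : Stg) ≤ (dn m : Stg) := lim_pn_le hmono
    have hr'n : I.le (dn n : Stg) r' (f n).1.1 :=
      I.le_trans' _ (I.le_stage (hδ n) hr') (hqn n)
    obtain ⟨a, ha, s, hs, hsa⟩ := (f n).2.max r' (I.le_stage (hpnn n) hr'n)
    have h1 : I.le δ (I.glue (lim_pn dn n : Stg) s r') r' := glue_le hs
    have h1q : I.le δ (I.glue (lim_pn dn n : Stg) s r') q := I.le_trans' _ h1 hr'
    have h2 : I.le (lim_pn dn n : Stg) (I.glue (lim_pn dn n : Stg) s r') a :=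
      I.le_trans' _ glue_le_left hsa
    have h3 : Ok n ((f n).1.2.2 a) (I.glue (lim_pn dn n : Stg) s r') :=
      (f n).2.ok a ha _ (I.le_trans' _ (I.le_stage (hδ n) h1) hr'n) h2
    refine ⟨_, h1, (f n).1.2.2 a, (f n).2.st a ha, ?_, h3⟩
    -- the claim
    have claim : ∀ k, I.le (dn (n + k) : Stg) (I.glue (lim_pn dn n : Stg) s r')
        (r ((f n).1.2.2 a)) := by
      intro k
      refine le_of_dense fun t ht => ?_
      have htq : I.le (dn (n + k) : Stg) t (f (n + k)).1.1 :=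
        I.le_trans' _ (I.le_trans' _ ht (I.le_stage (hδ _) h1q)) (hqn _)
      obtain ⟨b, hb, u, hut, hub⟩ := (f (n + k)).2.max t (I.le_stage (hpnn _) htq)
      have h4 : I.le (dn (n + k) : Stg) (I.glue (lim_pn dn (n + k) : Stg) u t) t := glue_le hut
      have h5 : I.le (lim_pn dn (n + k) : Stg) (I.glue (lim_pn dn (n + k) : Stg) u t) b :=
        I.le_trans' _ glue_le_left hub
      have h6 := (f (n + k)).2.ok b hb _ (I.le_trans' _ h4 htq) h5
      have h7 := hOk1 _ _ _ h6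
      obtain ⟨a₂, ha₂, h8, h9⟩ := hpred n k b hb _ h5
      have h10 : (lim_pn dn n : Stg) ≤ (dn (n + k) : Stg) :=
        (hpnn n).trans (WithTop.coe_le_coe.2 (hpos _ _ (Nat.le_add_right n k)))
      have h11 : I.le (lim_pn dn n : Stg) (I.glue (lim_pn dn (n + k) : Stg) u t) a :=
        I.le_trans' _ (I.le_stage h10 (I.le_trans' _ h4 ht)) h2
      have h12 : a₂ = a := (f n).2.anti a₂ ha₂ a ha _ h8 h11
      rw [h12] at h9
      exact ⟨_, h4, I.le_trans' _ h7 (I.le_stage (hδ _) h9)⟩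
    intro γ hγ
    by_cases h4 : (r ((f n).1.2.2 a)).1 γ = I.x₀
    · rw [h4]
      exact I.top _ _ _
    · obtain ⟨m, hm⟩ := hcof γ (hN.supp _ (hr _) γ h4) hγ
      have h5 : γ < dn (n + m) := lt_of_lt_of_le hm (hpos _ _ (Nat.le_add_left m n))
      exact claim m γ (WithTop.coe_lt_coe.2 h5)

end Pool.Agent.CSI
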