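import Pool.Agent.Lib_CSI.Defs

/-!
# Piece CS1: the orders of the stages
-/

set_option autoImplicit false

namespace Pool.Agent.CSI

variable {I : It} {β γ : Ordinal.{0}} {δ ε : Stg} {p q r c : I.C} {x y z : I.X}

theorem glue_lt {β : Stg} (h : (γ : Stg) < β) : (I.glue β c p).1 γ = c.1 γ := by
  show (if (γ : Stg) < β then c.1 γ else p.1 γ) = c.1 γ
  exact if_pos h

theorem glue_ge {β : Stg} (h : β ≤ (γ : Stg)) : (I.glue β c p).1 γ = p.1 γ := by
  show (if (γ : Stg) < β then c.1 γ else p.1 γ) = p.1 γ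
  exact if_neg (not_lt.mpr h)

theorem cut_lt {β : Stg} (h : (γ : Stg) < β) : (I.cut β p).1 γ = p.1 γ := by
  exact glue_lt h

theorem cut_ge {β : Stg} (h : β ≤ (γ : Stg)) : (I.cut β p).1 γ = I.x₀ := by
  exact glue_ge h

theorem put_same : (I.put p γ x).1 γ = x := by
  exact Function.update_self _ _ _

theorem put_ne (h : β ≠ γ) : (I.put p γ x).1 β = p.1 β := by
  exact Function.update_of_ne h _ _

theorem upd_lt (h : γ < β) : (I.upd β q x).1 γ = q.1 γ := by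
  have h1 : (I.upd β q x).1 γ = (I.cut β q).1 γ := put_ne h.ne
  rw [h1]
  exact cut_lt (WithTop.coe_lt_coe.mpr h)

theorem upd_same : (I.upd β q x).1 β = x := by
  exact put_same

theorem upd_gt (h : β < γ) : (I.upd β q x).1 γ = I.x₀ := by
  have h1 : (I.upd β q x).1 γ = (I.cut β q).1 γ := put_ne h.ne'
  rw [h1]
  exact cut_ge (WithTop.coe_le_coe.mpr h.le)

/-- conditions that agree below `δ` are equivalent at stage `δ` -/
theorem le_of_eqOn (h : ∀ γ : Ordinal.{0}, (γ : Stg) < δ → p.1 γ = q.1 γ) : I.le δ p q := by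
  intro γ hγ
  rw [h γ hγ]
  exact I.refl γ p _

/-- `At β r` depends only on `r` below `β` -/
theorem at_congr (h : ∀ γ < β, q.1 γ = r.1 γ) : I.At β q x y ↔ I.At β r x y := by
  have h1 : I.le (β : Stg) q r := le_of_eqOn (fun γ hγ => h γ (WithTop.coe_lt_coe.mp hγ))
  have h2 : I.le (β : Stg) r q := le_of_eqOn (fun γ hγ => (h γ (WithTop.coe_lt_coe.mp hγ)).symm)
  exact ⟨fun h3 => I.mono β q r x y h2 h3, fun h3 => I.mono β r q x y h1 h3⟩

theorem at_mono (h : I.le (β : Stg) q r) (h' : I.At β r x y) : I.At β q x y := I.mono β r q x y h h'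

/-- from `sep`: take `x'' = x'` -/
theorem at_dense (h : ∀ q, I.le (β : Stg) q r → ∃ s, I.le (β : Stg) s q ∧ I.At β s x y) :
    I.At β r x y := by
  refine I.sep β r x y (fun r' h' x' hx' => ?_)
  obtain ⟨s, hs, hxy⟩ := h r' h'
  exact ⟨s, hs, x', I.refl β s x', I.trans β s x' x y (I.mono β r' s x' x hs hx') hxy⟩

theorem le_self_cut : I.le δ p (I.cut ε p) := by
  intro γ hγ
  by_cases h : (γ : Stg) < ε
  · rw [cut_lt h]
    exact I.refl γ p _
  · rw [cut_ge (not_lt.mp h)]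
    exact I.top γ p _

theorem cut_le_of_le (h : δ ≤ ε) : I.le δ (I.cut ε p) p := by
  exact le_of_eqOn (fun γ hγ => cut_lt (lt_of_lt_of_le hγ h))

/-- `cut ε p` only restricts below `ε` -/
theorem le_cut_iff (h : ε ≤ δ) : I.le δ r (I.cut ε p) ↔ I.le ε r p := by
  constructor
  · intro h1 γ hγ
    have h2 := h1 γ (lt_of_lt_of_le hγ h)
    rw [cut_lt hγ] at h2
    exact h2
  · intro h1 γ hγ
    by_cases h2 : (γ : Stg) < ε
    · rw [cut_lt h2]
      exact h1 γ h2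
    · rw [cut_ge (not_lt.mp h2)]
      exact I.top γ r _

theorem le_cut_of_le (h : I.le ε r p) : I.le δ r (I.cut ε p) := by
  intro γ hγ
  by_cases h2 : (γ : Stg) < ε
  · rw [cut_lt h2]
    exact h γ h2
  · rw [cut_ge (not_lt.mp h2)]
    exact I.top γ r _

theorem glue_le_left : I.le ε (I.glue ε c p) c := by
  exact le_of_eqOn (fun γ hγ => glue_lt hγ)

theorem left_le_glue : I.le ε c (I.glue ε c p) := by
  exact le_of_eqOn (fun γ hγ => (glue_lt hγ).symm)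

/-- `c^p ≤ p` if `c ≤ p` at the stage `ε` -/
theorem glue_le (h : I.le ε c p) : I.le δ (I.glue ε c p) p := by
  intro γ hγ
  by_cases h2 : (γ : Stg) < ε
  · rw [glue_lt h2]
    exact I.mono γ c _ _ _ (I.le_stage (le_of_lt h2) glue_le_left) (h γ h2)
  · rw [glue_ge (not_lt.mp h2)]
    exact I.refl γ _ _

theorem le_glue_iff (h : ε ≤ δ) : I.le δ r (I.glue ε c p) ↔
    I.le ε r c ∧ ∀ γ : Ordinal.{0}, ε ≤ (γ : Stg) → (γ : Stg) < δ → I.At γ r (r.1 γ) (p.1 γ) := by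
  constructor
  · intro h1
    refine ⟨fun γ hγ => ?_, fun γ hγ hγ' => ?_⟩
    · have h2 := h1 γ (lt_of_lt_of_le hγ h)
      rw [glue_lt hγ] at h2
      exact h2
    · have h2 := h1 γ hγ'
      rw [glue_ge hγ] at h2
      exact h2
  · rintro ⟨h1, h2⟩ γ hγ
    by_cases h3 : (γ : Stg) < ε
    · rw [glue_lt h3]
      exact h1 γ h3
    · rw [glue_ge (not_lt.mp h3)]
      exact h2 γ (not_lt.mp h3) hγ

theorem glue_mono_left (h : I.le ε q c) : I.le δ (I.glue ε q p) (I.glue ε c p) := by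
  intro γ hγ
  by_cases h2 : (γ : Stg) < ε
  · rw [glue_lt h2, glue_lt h2]
    exact I.mono γ q _ _ _ (I.le_stage (le_of_lt h2) glue_le_left) (h γ h2)
  · rw [glue_ge (not_lt.mp h2), glue_ge (not_lt.mp h2)]
    exact I.refl γ _ _

/-- if `r ≤ p` and `s ≤ r` at stage `ε` then `s^r ≤ p` -/
theorem glue_le_of_le (h : I.le δ r p) (h' : I.le ε q r) : I.le δ (I.glue ε q r) p := by
  exact I.le_trans' δ (glue_le h') h

theorem le_add_one_iff : I.le ((β + 1 : Ordinal.{0}) : Stg) p q ↔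
    I.le (β : Stg) p q ∧ I.At β p (p.1 β) (q.1 β) := by
  constructor
  · intro h
    have hb : (β : Stg) < ((β + 1 : Ordinal.{0}) : Stg) :=
      WithTop.coe_lt_coe.mpr (Order.lt_add_one_iff.mpr le_rfl)
    exact ⟨I.le_stage (le_of_lt hb) h, h β hb⟩
  · rintro ⟨h1, h2⟩ γ hγ
    have h3 : γ ≤ β := Order.lt_add_one_iff.mp (WithTop.coe_lt_coe.mp hγ)
    rcases lt_or_eq_of_le h3 with h4 | h4
    · exact h1 γ (WithTop.coe_lt_coe.mpr h4)
    · subst h4
      exact h2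

theorem le_iff_forall_add_one (h : ∀ γ : Ordinal.{0}, (γ : Stg) < δ → ((γ + 1 : Ordinal.{0}) : Stg) < δ) :
    I.le δ p q ↔ ∀ γ : Ordinal.{0}, (γ : Stg) < δ → I.le (γ : Stg) p q := by
  constructor
  · intro h1 γ hγ
    exact I.le_stage (le_of_lt hγ) h1
  · intro h1 γ hγ
    exact (le_add_one_iff.mp (h1 (γ + 1) (h γ hγ))).2

theorem upd_le_left : I.le (β : Stg) (I.upd β q x) q := by
  exact le_of_eqOn (fun γ hγ => upd_lt (WithTop.coe_lt_coe.mp hγ))

theorem upd_le_iff : I.le ((β + 1 : Ordinal.{0}) : Stg) (I.upd β q x) p ↔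
    I.le (β : Stg) q p ∧ I.At β q x (p.1 β) := by
  have h1 : I.le (β : Stg) q (I.upd β q x) :=
    le_of_eqOn (fun γ hγ => (upd_lt (WithTop.coe_lt_coe.mp hγ)).symm)
  rw [le_add_one_iff, upd_same]
  constructor
  · rintro ⟨h2, h3⟩
    exact ⟨I.le_trans' _ h1 h2, I.mono β _ q _ _ h1 h3⟩
  · rintro ⟨h2, h3⟩
    exact ⟨I.le_trans' _ upd_le_left h2, I.mono β q _ _ _ upd_le_left h3⟩

theorem le_upd_iff : I.le ((β + 1 : Ordinal.{0}) : Stg) p (I.upd β q x) ↔
    I.le (β : Stg) p q ∧ I.At β p (p.1 β) x := by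
  have h1 : I.le (β : Stg) q (I.upd β q x) :=
    le_of_eqOn (fun γ hγ => (upd_lt (WithTop.coe_lt_coe.mp hγ)).symm)
  rw [le_add_one_iff, upd_same]
  constructor
  · rintro ⟨h2, h3⟩
    exact ⟨I.le_trans' _ h2 upd_le_left, h3⟩
  · rintro ⟨h2, h3⟩
    exact ⟨I.le_trans' _ h2 h1, h3⟩

/-- SEPARATIVITY. PROOF. Let `γ < δ`; we show `At γ q (q γ) (p γ)` by `I.sep`. Let `r' ≤ q` at stage `γ`, `At γ r' x' (q γ)`. The condition
`t = put (glue γ r' q) γ x'` is `≤_δ q`: below `γ` it agrees with `r'`, at `γ` use `x'`, above `γ` it agrees with `q`. By hypothesis there is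
`s ≤_δ t`, `s ≤_δ p`. Take `r'' = s`, `x'' = s γ`. -/
theorem le_of_dense (h : ∀ r, I.le δ r q → ∃ s, I.le δ s r ∧ I.le δ s p) : I.le δ q p := by
  intro γ hγ
  refine I.sep γ q _ _ (fun r' hr' x' hx' => ?_)
  have hlt : ∀ ε : Ordinal.{0}, ε < γ → (I.put (I.glue (γ : Stg) r' q) γ x').1 ε = r'.1 ε := by
    intro ε hε
    rw [put_ne hε.ne]
    exact glue_lt (WithTop.coe_lt_coe.mpr hε)
  have hgt : ∀ ε : Ordinal.{0}, γ < ε → (I.put (I.glue (γ : Stg) r' q) γ x').1 ε = q.1 ε := by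
    intro ε hε
    rw [put_ne hε.ne']
    exact glue_ge (WithTop.coe_le_coe.mpr hε.le)
  have ht : I.le (γ : Stg) (I.put (I.glue (γ : Stg) r' q) γ x') r' :=
    le_of_eqOn (fun ε hε => hlt ε (WithTop.coe_lt_coe.mp hε))
  have htq : I.le δ (I.put (I.glue (γ : Stg) r' q) γ x') q := by
    intro ε hε
    rcases lt_trichotomy ε γ with h1 | h1 | h1
    · rw [hlt ε h1]
      exact I.mono ε r' _ _ _ (I.le_stage (le_of_lt (WithTop.coe_lt_coe.mpr h1)) ht)
        (hr' ε (WithTop.coe_lt_coe.mpr h1))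
    · subst h1
      rw [put_same]
      exact I.mono ε r' _ _ _ ht hx'
    · rw [hgt ε h1]
      exact I.refl ε _ _
  obtain ⟨s, hs1, hs2⟩ := h _ htq
  refine ⟨s, I.le_trans' _ (I.le_stage (le_of_lt hγ) hs1) ht, s.1 γ, ?_, hs2 γ hγ⟩
  have h3 := hs1 γ hγ
  rw [put_same] at h3
  exact h3

theorem le_iff_dense : I.le δ q p ↔ ∀ r, I.le δ r q → ∃ s, I.le δ s r ∧ I.le δ s p := by
  constructor
  · intro h r hr
    exact ⟨r, I.le_refl' δ r, I.le_trans' δ hr h⟩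
  · exact le_of_dense

/-- the support of a condition is bounded in the class of all ordinals of `Type 0` -/
theorem exists_bound (p : I.C) : ∃ β : Ordinal.{0}, ∀ γ, β ≤ γ → p.1 γ = I.x₀ := by
  have hs : Small.{0} {β : Ordinal.{0} | p.1 β ≠ I.x₀} := by
    have : Countable {β : Ordinal.{0} | p.1 β ≠ I.x₀} := p.2.to_subtype
    infer_instance
  obtain ⟨b, hb⟩ := Ordinal.bddAbove_of_small (s := {β : Ordinal.{0} | p.1 β ≠ I.x₀})
  refine ⟨b + 1, fun γ hγ => ?_⟩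
  by_contra h
  have h1 : γ ≤ b := hb h
  exact absurd (lt_of_lt_of_le (Order.lt_add_one_iff.mpr h1) hγ) (lt_irrefl _)

/-- a countable set of conditions has a common bound -/
theorem exists_bound_countable {N : Set I.C} (hN : N.Countable) :
    ∃ β : Ordinal.{0}, ∀ p ∈ N, ∀ γ, β ≤ γ → p.1 γ = I.x₀ := by
  have hc : (⋃ p ∈ N, {β : Ordinal.{0} | p.1 β ≠ I.x₀}).Countable :=
    hN.biUnion (fun p _ => p.2)
  have hs : Small.{0} (⋃ p ∈ N, {β : Ordinal.{0} | p.1 β ≠ I.x₀} : Set Ordinal.{0}) := by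
    have : Countable (⋃ p ∈ N, {β : Ordinal.{0} | p.1 β ≠ I.x₀} : Set Ordinal.{0}) := hc.to_subtype
    infer_instance
  obtain ⟨b, hb⟩ := Ordinal.bddAbove_of_small
    (s := (⋃ p ∈ N, {β : Ordinal.{0} | p.1 β ≠ I.x₀} : Set Ordinal.{0}))
  refine ⟨b + 1, fun p hp γ hγ => ?_⟩
  by_contra h
  have h1 : γ ≤ b := hb (Set.mem_biUnion hp h)
  exact absurd (lt_of_lt_of_le (Order.lt_add_one_iff.mpr h1) hγ) (lt_irrefl _)

theorem cut_cut {ε' : Stg} (h : ε ≤ ε') : I.cut ε (I.cut ε' p) = I.cut ε p := by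
  apply Subtype.ext
  funext γ
  by_cases h1 : (γ : Stg) < ε
  · rw [cut_lt h1, cut_lt h1, cut_lt (lt_of_lt_of_le h1 h)]
  · rw [cut_ge (not_lt.mp h1), cut_ge (not_lt.mp h1)]

theorem cond_ext (h : ∀ γ, p.1 γ = q.1 γ) : p = q := by
  exact Subtype.ext (funext h)

end Pool.Agent.CSI
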