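import Pool.Agent.Lib_CSI.Psi

/-!
# Piece PB: a generated ultrafilter is again a stable ordered-union ultrafilter
-/

set_option autoImplicit false

namespace Pool.Agent.CSI

open Pool.Agent.GGen Pool.Agent.HMod Pool.Agent.SOU Pool.Agent.SOUi

variable {I : It} {α δ : Stg} {𝒰 : FN (Finset ℕ) I.C} {p₀ : I.C}

/-- `b` is a union of finitely many values `τ` with `((n, i), τ)` in the set named by `X` -/
private def pbR (X : (ℕ × ℕ) × Finset ℕ → Set I.C) (n : ℕ) (b : Finset ℕ)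
    (g : GG (I.PP δ)) : Prop :=
  ∃ L : Finset (ℕ × Finset ℕ), L.Nonempty ∧
    (∀ e ∈ L, ((n, e.1), e.2) ∈ ev (P := I.PP δ) X g) ∧ b = L.biUnion (fun e => e.2)

private theorem pbR_iff {X : (ℕ × ℕ) × Finset ℕ → Set I.C} {g : GG (I.PP δ)}
    {A : ℕ → ℕ → Finset ℕ} (h : ev (P := I.PP δ) X g = {q | A q.1.1 q.1.2 = q.2}) (n : ℕ)
    (b : Finset ℕ) : pbR X n b g ↔ b ∈ fu (A n) := by
  classical
  constructor
  · rintro ⟨L, hL, hL1, hL2⟩
    refine ⟨L.image Prod.fst, hL.image _, ?_⟩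
    have hv : ∀ e ∈ L, A n e.1 = e.2 := by
      intro e he
      have h1 := hL1 e he
      rw [h] at h1
      exact h1
    rw [hL2, Finset.image_biUnion]
    exact Finset.biUnion_congr rfl fun e he => (hv e he).symm
  · rintro ⟨J, hJ, hJb⟩
    refine ⟨J.image (fun i => (i, A n i)), hJ.image _, ?_, ?_⟩
    · intro e he
      obtain ⟨i, _, rfl⟩ := Finset.mem_image.1 he
      rw [h]
      exact (rfl : A n i = A n i)
    · rw [hJb, Finset.image_biUnion]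

private theorem pbR_dec (X : (ℕ × ℕ) × Finset ℕ → Set I.C) (n : ℕ) (b : Finset ℕ) :
    Dec (P := I.PP δ) (pbR X n b) := by
  refine dec_ex (P := I.PP δ) fun L => ?_
  refine Dec.and (P := I.PP δ) (dec_const (P := I.PP δ) _) ?_
  refine Dec.and (P := I.PP δ) ?_ (dec_const (P := I.PP δ) _)
  refine dec_all (P := I.PP δ) fun e => ?_
  refine dec_all (P := I.PP δ) fun _ => ?_
  exact dec_ev (P := I.PP δ) X _

/-- the ultrafilter alternative for the names in the hull -/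
private theorem pb_ultra (hα : α ≤ δ) (hp : I.PresAt α 𝒰 p₀ δ) :
    ∀ᶠ g in GC (I.PP δ), (p₀ : I.PP δ) ∈ g → ∀ Z : Finset ℕ → Set I.C, g.has Z →
      ev (P := I.PP δ) Z g ∈ evF (P := I.PP α) 𝒰 (I.res α g) ∨
        (ev (P := I.PP δ) Z g)ᶜ ∈ evF (P := I.PP α) 𝒰 (I.res α g) := by
  classical
  let Q : (Finset ℕ → Set I.C) → I.C → (Finset ℕ → Set I.C) → Prop := fun Z q S =>
    I.InU α 𝒰 q S ∧
    ((∀ b r, I.le δ r q → (∃ c ∈ S b, I.le α r c) → ∃ s, I.le δ s r ∧ ∃ c ∈ Z b, I.le δ s c) ∨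
     (∀ b r, I.le δ r q → (∃ c ∈ S b, I.le α r c) → ∀ c ∈ Z b, ¬ I.le δ r c))
  let F : (Finset ℕ → Set I.C) → I.C → (Finset ℕ → Set I.C) := fun Z q =>
    if hh : ∃ S, Q Z q S then hh.choose else Z
  have u1 : ∀ᶠ g in GC (I.PP δ), ∀ Z : Finset ℕ → Set I.C, g.has Z → (p₀ : I.PP δ) ∈ g →
      ∃ d ∈ ({q : I.C | ∃ S, Q Z q S} : Set (I.PP δ)), d ∈ g ∧ g.has d := by
    refine GC_normalH (P := I.PP δ) fun Z => ?_
    refine GC_denseBelow' (P := I.PP δ) ?_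
    intro q hq
    obtain ⟨q', h1, S, h2, h3⟩ := hp Z q hq
    exact ⟨q', h1, S, h2, h3⟩
  have u2 := GC_op2 (P := I.PP δ) F
  have u3 : ∀ᶠ g in GC (I.PP δ), ∀ S : Finset ℕ → Set I.C, g.has S → ∀ r : I.PP δ, g.has r →
      Fo (P := I.PP δ) r
        (fun g => ev (P := I.PP α) S (I.res α g) ∈ evF (P := I.PP α) 𝒰 (I.res α g)) →
      r ∈ g → ev (P := I.PP α) S (I.res α g) ∈ evF (P := I.PP α) 𝒰 (I.res α g) :=
    GC_normalH (P := I.PP δ) fun S => GC_fo (P := I.PP δ) _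
  have u4 : ∀ᶠ g in GC (I.PP δ), ∀ Z : Finset ℕ → Set I.C, g.has Z → ∀ b : Finset ℕ,
      ∀ r : I.PP δ, g.has r → Fo (P := I.PP δ) r (fun g => b ∈ ev (P := I.PP δ) Z g) →
      r ∈ g → b ∈ ev (P := I.PP δ) Z g :=
    GC_normalH (P := I.PP δ) fun Z => eventually_countable_forall.2 fun b => GC_fo (P := I.PP δ) _
  have u5 := res_club hα (Filter.Eventually.of_forall (f := GC (I.PP α)) fun _ => trivial)
  filter_upwards [u1, u2, u3, u4, u5] with g g1 g2 g3 g4 g5 hg Z hZ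
  obtain ⟨q, hqQ, hqg, hqh⟩ := g1 Z hZ hg
  have hex : ∃ S, Q Z q S := hqQ
  have hS := g2 Z q hZ hqh
  have hF : F Z q = hex.choose := dif_pos hex
  rw [hF] at hS
  obtain ⟨hU, halt⟩ := hex.choose_spec
  have hU' := fo_res_up hα hU
  have hmem := g3 _ hS q hqh hU' hqg
  have hres : ∀ b, b ∈ ev (P := I.PP α) hex.choose (I.res α g) →
      ∃ n : ℕ, ∃ c ∈ hex.choose b, I.le α (g.gen.G n : I.C) c := by
    rintro b ⟨c, hc, n, hn⟩
    refine ⟨n, c, hc, ?_⟩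
    have e : ((I.res α g).gen.G n : I.C) = g.gen.G n := congrFun g5.1.2 n
    rw [← e]
    exact hn
  rcases halt with h1 | h1
  · left
    refine Filter.mem_of_superset hmem ?_
    intro b hb
    obtain ⟨n, c, hc, hn⟩ := hres b hb
    obtain ⟨r, hrg, hrh, hrq, hrn⟩ := mem_common (P := I.PP δ) hqg (G_mem g n)
    refine g4 Z hZ b r hrh ?_ hrg
    refine (fo_ev_iff (P := I.PP δ)).2 ?_
    intro t ht
    obtain ⟨s, hs, c', hc', hsc⟩ := h1 b t (I.le_trans' δ ht hrq)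
      ⟨c, hc, I.le_trans' α (I.le_stage hα (I.le_trans' δ ht hrn)) hn⟩
    exact ⟨s, hs, c', hc', hsc⟩
  · right
    refine Filter.mem_of_superset hmem ?_
    rintro b hb ⟨c', hc', m, hm⟩
    obtain ⟨n, c, hc, hn⟩ := hres b hb
    obtain ⟨r, hrg, hrh, hrq, hrn⟩ := mem_common (P := I.PP δ) hqg (G_mem g n)
    obtain ⟨t, htg, hth, htr, htm⟩ := mem_common (P := I.PP δ) hrg (G_mem g m)
    exact h1 b t (I.le_trans' δ htr hrq)
      ⟨c, hc, I.le_trans' α (I.le_stage hα (I.le_trans' δ htr hrn)) hn⟩ c' hc'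
      (I.le_trans' δ htm hm)

/-- stability for a name of a sequence -/
private theorem pb_stable (hI : I.Proper) (hα : α ≤ δ) (h : I.SouAt α 𝒰 p₀)
    (X : (ℕ × ℕ) × Finset ℕ → Set I.C) :
    Fo (P := I.PP δ) p₀ (fun g => ∀ A : ℕ → ℕ → Finset ℕ,
      ev (P := I.PP δ) X g = {q | A q.1.1 q.1.2 = q.2} →
      (∀ n, fu (A n) ∈ evF (P := I.PP δ) (I.cutF α 𝒰) g) →
      ∃ B, IntF g.M B ∧ BlkF B ∧ fu B ∈ evF (P := I.PP δ) (I.cutF α 𝒰) g ∧
        ∀ n, ∃ k, ∀ b ∈ fu B, (∀ j ∈ b, k < j) → b ∈ fu (A n)) := by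
  classical
  have h0 := fo_res_up hα h
  have h1 := res_evF (I := I) (δ := δ) hα 𝒰
  have hres := res_club hα (Filter.Eventually.of_forall (f := GC (I.PP α)) fun _ => trivial)
  have hbase := res_intF (I := I) (δ := δ) (ι := ℕ) (ι' := Finset ℕ) hα
  refine fo_dense (P := I.PP δ) fun q hq => ?_
  let T : ℕ → (Finset ℕ → Set I.C) → GG (I.PP δ) → Prop := fun n Y g =>
    (∃ c, (Y, c) ∈ I.cutF α 𝒰 ∧ (c : I.PP δ) ∈ g) ∧
      ∀ b, b ∈ ev (P := I.PP δ) Y g → pbR X n b g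
  have hT : ∀ n Y, Dec (P := I.PP δ) (T n Y) := by
    intro n Y
    refine Dec.and (P := I.PP δ) (gg5_dec_live0 (P := I.PP δ) (I.cutF α 𝒰) Y) ?_
    refine dec_all (P := I.PP δ) fun b => ?_
    exact Dec.imp (P := I.PP δ) (dec_ev (P := I.PP δ) Y b) (pbR_dec X n b)
  have hC : Dec (P := I.PP δ) (fun g => ∀ n, ∃ Y, g.has Y ∧ T n Y g) :=
    dec_all (P := I.PP δ) fun n => dec_exH (P := I.PP δ) fun Y => hT n Y
  have himp : ∀ᶠ g in GC (I.PP δ), (p₀ : I.PP δ) ∈ g → ∀ A : ℕ → ℕ → Finset ℕ,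
      ev (P := I.PP δ) X g = {q | A q.1.1 q.1.2 = q.2} →
      (∀ n, fu (A n) ∈ evF (P := I.PP δ) (I.cutF α 𝒰) g) → ∀ n, ∃ Y, g.has Y ∧ T n Y g := by
    filter_upwards [h0, h1] with g g1 g2 hg A hA hAU n
    have hDir := g2.2.2 (g1 hg).1
    obtain ⟨Y, ⟨hY, c, hc, hcg⟩, hYs⟩ := (mem_evF (P := I.PP δ) hDir).1 (hAU n)
    exact ⟨Y, hY, ⟨c, hc, hcg⟩, fun b hb => (pbR_iff hA n b).2 (hYs hb)⟩
  obtain ⟨r, hr, hr'⟩ := hC q
  rcases hr' with hr' | hr'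
  · obtain ⟨q', 𝒜, hq', h𝒜, hcov⟩ := cover_choice hI δ hT hr'
    have hq'q : I.le δ q' q := I.le_trans' δ hq' hr
    have hq'p : I.le δ q' p₀ := I.le_trans' δ hq'q hq
    obtain ⟨AA, hAA⟩ := psi h h𝒜 (q := q') (I.le_stage hα hq'p)
    have hAA' := fo_res_up hα hAA
    refine ⟨q', hq'q, ?_⟩
    have hC := GC_hasC (P := I.PP δ) h𝒜
    have hAA'' : ∀ᶠ g in GC (I.PP δ), (q' : I.PP δ) ∈ g → ∃ A : ℕ → Finset ℕ,
      IntF (I.res α g).M A ∧ BlkF A ∧ fu A ∈ evF (P := I.PP α) 𝒰 (I.res α g) ∧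
      (∀ l, l ∈ ev (P := I.PP α) AA (I.res α g) ↔ ∃ k, l = (List.range k).map A) ∧
      ∀ S ∈ 𝒜, ev (P := I.PP α) S (I.res α g) ∈ evF (P := I.PP α) 𝒰 (I.res α g) →
        ∃ k, ∀ b ∈ fu A, Lo k b → b ∈ ev (P := I.PP α) S (I.res α g) := hAA'
    have hcov' : ∀ᶠ g in GC (I.PP δ), (q' : I.PP δ) ∈ g → ∀ n, ∃ Y ∈ 𝒜, T n Y g := hcov
    show ∀ᶠ g in GC (I.PP δ), (q' : I.PP δ) ∈ g → _
    filter_upwards [hcov', hAA'', h1, hres, hbase, hC] with g g1 g2 g4 g5 g6 g7 hqg A hA hAU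
    obtain ⟨B, hB1, hB2, hB3, -, hB5⟩ := g2 hqg
    refine ⟨B, g6 B hB1, hB2, ?_, fun n => ?_⟩
    · rw [g4.1]
      exact hB3
    · obtain ⟨Y, hY, ⟨c, hc, hcg⟩, hYb⟩ := g1 hqg n
      have hlive : Live (P := I.PP δ) (I.cutF α 𝒰) g Y := ⟨g7 Y hY, c, hc, hcg⟩
      have hin : ev (P := I.PP δ) Y g ∈ evF (P := I.PP δ) (I.cutF α 𝒰) g :=
        Filter.GenerateSets.basic ⟨Y, hlive, rfl⟩
      obtain ⟨⟨X', c'⟩, hXc, he⟩ := hc
      have he1 : I.cutN α X' = Y := congrArg Prod.fst he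
      have hev : ev (P := I.PP α) Y (I.res α g) = ev (P := I.PP δ) Y g := by
        rw [← he1, ev_cutN_self, isRes_ev hα g5.1]
      rw [g4.1, ← hev] at hin
      obtain ⟨k, hk⟩ := hB5 Y hY hin
      refine ⟨k, fun b hb hkb => ?_⟩
      have h2 := hk b hb (fun j hj => (hkb j hj).le)
      rw [hev] at h2
      exact (pbR_iff hA n b).1 (hYb b h2)
  · refine ⟨r, hr, ?_⟩
    have hr'' : ∀ᶠ g in GC (I.PP δ), (r : I.PP δ) ∈ g → ¬ ∀ n, ∃ Y, g.has Y ∧ T n Y g := hr'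
    show ∀ᶠ g in GC (I.PP δ), (r : I.PP δ) ∈ g → _
    filter_upwards [hr'', himp] with g g1 g2 hrg A hA hAU
    exact absurd (g2 (mem_up (P := I.PP δ) hrg (I.le_trans' δ hr hq)) A hA hAU) (g1 hrg)

/-- PROOF. Let `𝒰' = cutF α 𝒰`; for club many `g` of stage `δ` containing `p₀`: `evF 𝒰' g = evF 𝒰 (res α g)` and `Dir` (`res_evF`, `fo_res_up`), `IsIFil` (`evF_isIFil`), `NeBot`. `base`: from the smaller model (`res_intF`). `ultra`: let `S` be an internal set, `S = ev Z g` with `Z` in the hull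
(`rep_ev`). For every `Z` the set of the `q ≤ p₀` as in `PresAt` is dense below `p₀`, so club many `g ∋ p₀` contain such a `q`, in the hull, with its `S'` in the hull (normality over `Z`). `InU` gives `ev S' (res α g) ∈ evF 𝒰 (res α g)`, and the first alternative gives `ev (cutN α S') g ⊆ ev Z g`
(for `b ∈ ev (cutN α S') g` take `r = G n ≤ q`, `r ≤_α c ∈ S' b`; the set of the `s` below an element of `Z b` is dense below `r`), the second one that it is disjoint from `ev Z g`. `stable`: let `A` be an internal sequence of block sequences with `fu (A n) ∈ evF 𝒰' g`, given by a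
name `X` (`rep_fun` for functions `ℕ × ℕ → Finset ℕ`). By density it is enough, for `p ≤ p₀` which forces (at stage `δ`) that `X` is such a sequence (this is decided), to find `q ≤ p` forcing that `B` exists. By `cover_choice` for `T n Y g` = (`Y` is live for `𝒰'` in `g` and `ev Y g ⊆ fu (A n)`)
there are `q ≤ p` and a countable `𝒜`. By `psi` for `𝒜` (and `q`, stage `α`) there is `AA`; in `g ∋ q` the sequence `A'` of `psi` (in the smaller model) satisfies: for each `n` there is `Y ∈ 𝒜`, live for `𝒰'`, with `ev Y g ⊆ fu (A n)`; `ev Y g = ev Y (res α g)` (as `Y = cutN α X`) is in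
`evF 𝒰 (res α g)`, so `fu A'` is almost included in it. Take `B = A'` (`res_intF`). -/
theorem souAt_of_presAt (hI : I.Proper) (hα : α ≤ δ) (h : I.SouAt α 𝒰 p₀)
    (hp : I.PresAt α 𝒰 p₀ δ) : I.SouAt δ (I.cutF α 𝒰) p₀ := by
  classical
  have h0 := fo_res_up hα h
  have h1 := res_evF (I := I) (δ := δ) hα 𝒰
  have hbase := res_intF (I := I) (δ := δ) (ι := ℕ) (ι' := Finset ℕ) hα
  have hfil := evF_isIFil (P := I.PP δ) (I.cutF α 𝒰)
  have hultra := pb_ultra hα hp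
  have hstab : ∀ᶠ g in GC (I.PP δ), ∀ X : (ℕ × ℕ) × Finset ℕ → Set I.C, g.has X →
      (p₀ : I.PP δ) ∈ g → ∀ A : ℕ → ℕ → Finset ℕ,
      ev (P := I.PP δ) X g = {q | A q.1.1 q.1.2 = q.2} →
      (∀ n, fu (A n) ∈ evF (P := I.PP δ) (I.cutF α 𝒰) g) →
      ∃ B, IntF g.M B ∧ BlkF B ∧ fu B ∈ evF (P := I.PP δ) (I.cutF α 𝒰) g ∧
        ∀ n, ∃ k, ∀ b ∈ fu B, (∀ j ∈ b, k < j) → b ∈ fu (A n) :=
    GC_normalH (P := I.PP δ) fun X => pb_stable hI hα h X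
  have h0' : ∀ᶠ g in GC (I.PP δ), (p₀ : I.PP δ) ∈ g → Dir (P := I.PP α) 𝒰 (I.res α g) ∧
      IsSOUi (I.res α g).M (evF (P := I.PP α) 𝒰 (I.res α g)) := h0
  show ∀ᶠ g in GC (I.PP δ), (p₀ : I.PP δ) ∈ g → _
  filter_upwards [h0', h1, hbase, hfil, hultra, hstab, rep_ev (P := I.PP δ) (ι := Finset ℕ),
    rep_fun (P := I.PP δ) (ι := ℕ × ℕ) (ι' := Finset ℕ)] with g g0 g1 g2 g3 g4 g5 g6 g7 hg
  obtain ⟨d0, s0⟩ := g0 hg
  have hDir := g1.2.2 d0
  refine ⟨hDir, g3 hDir, ?_, ?_, ?_, ?_⟩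
  · rw [g1.1]
    exact s0.ne
  · intro S hS
    obtain ⟨Z, hZ, hZS⟩ := g6 S hS
    rw [g1.1, ← hZS]
    exact g4 hg Z hZ
  · intro S hS
    rw [g1.1] at hS ⊢
    obtain ⟨A, hA1, hA2, hA3, hA4⟩ := s0.base S hS
    exact ⟨A, g2 A hA1, hA2, hA3, hA4⟩
  · intro A hA hAU
    obtain ⟨X, hX, hXA⟩ := g7 (fun q : ℕ × ℕ => A q.1 q.2) hA
    exact g5 X hX hg A hXA (fun n => (hAU n).2)

end Pool.Agent.CSI
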