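import Pool.Agent.Lib_CSI.PLimS
import Pool.Agent.Lib_CSI.Dich
import Pool.Agent.Lib_CSI.PB

/-!
# Piece PLIM: preservation at limits of countable cofinality
-/

set_option autoImplicit false

namespace Pool.Agent.CSI

open Pool.Agent.GGen Pool.Agent.HMod Pool.Agent.SOU Pool.Agent.SOUi

variable {I : It} {α : Ordinal.{0}} {δ : Stg} {𝒰 : FN (Finset ℕ) I.C} {p₀ : I.C}
  {Z : Finset ℕ → Set I.C} {dn : ℕ → Ordinal.{0}}

private theorem plim_nm_inj {C : Type 1} :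
    Function.Injective (Obj.nm : (Finset ℕ → Set C) → Obj C) := by
  intro a b h
  injection h

private theorem plim_drop (A : ℕ → Finset ℕ) (k m : ℕ) :
    ((List.range k).map A).drop m = (List.range (k - m)).map (fun i => A (i + m)) := by
  refine List.ext_getElem (by simp) fun n h1 h2 => ?_
  simp [Nat.add_comm]

private theorem plim_mem_tail {A : ℕ → Finset ℕ} (hA : BlkF A) (m : ℕ) (b : Finset ℕ) :
    b ∈ fu (fun i => A (i + m)) ↔ ∃ k, b ∈ FUl (((List.range k).map A).drop m) := by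
  rw [mem_fu_iff_FUl (hA.tail m)]
  constructor
  · rintro ⟨k, hk⟩
    refine ⟨k + m, ?_⟩
    rw [plim_drop, Nat.add_sub_cancel]
    exact hk
  · rintro ⟨k, hk⟩
    rw [plim_drop] at hk
    exact ⟨_, hk⟩

private theorem plim_lo {A : ℕ → Finset ℕ} (hA : BlkF A) {m : ℕ} {b : Finset ℕ}
    (hb : b ∈ fu (fun i => A (i + m))) : Lo m b := by
  intro j hj
  obtain ⟨J, _, rfl⟩ := hb
  obtain ⟨i, _, hji⟩ := Finset.mem_biUnion.1 hj
  have h1 := hA.ge (i + m) j hji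
  omega

private theorem plim_pok_mono {𝒜 : Set (Finset ℕ → Set I.C)} {AA : List (Finset ℕ) → Set I.C}
    {m₀ n : ℕ} (hα : α ≤ dn n) {x : PSt I} {c c' : I.C} (h : POk α 𝒰 𝒜 AA m₀ dn n x c)
    (hc : I.le (dn n : Stg) c' c) : POk α 𝒰 𝒜 AA m₀ dn n x c' :=
  ⟨I.le_trans' _ hc h.1, Fo.mono (P := I.PP (α : Stg)) h.2
    (I.le_stage (WithTop.coe_le_coe.2 hα) hc)⟩

/-- the first step: some tail is included in `S₀` -/
private theorem plim_first {𝒜 : Set (Finset ℕ → Set I.C)} {AA : List (Finset ℕ) → Set I.C}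
    {q₁ : I.C} {S₀ : Finset ℕ → Set I.C} (hS₀ : S₀ ∈ 𝒜) (hU : I.InU (α : Stg) 𝒰 q₁ S₀)
    (hpsi : Fo (P := I.PP (α : Stg)) q₁ (fun g => ∃ A, PsiA 𝒰 𝒜 AA g A)) :
    ∃ (q₂ : I.C) (m₀ : ℕ), I.le (α : Stg) q₂ q₁ ∧
      Fo (P := I.PP (α : Stg)) q₂ (fun g => ∃ A, PsiA 𝒰 𝒜 AA g A ∧
        ∀ b ∈ fu (fun i => A (i + m₀)), b ∈ ev (P := I.PP (α : Stg)) S₀ g) := by
  obtain ⟨T, hT⟩ : ∃ T : ℕ → GG (I.PP (α : Stg)) → Prop, T = fun k g =>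
      ∀ l : List (Finset ℕ), l ∈ ev (P := I.PP (α : Stg)) AA g → ∀ b : Finset ℕ, b ∈ FUl l →
        Lo k b → b ∈ ev (P := I.PP (α : Stg)) S₀ g := ⟨_, rfl⟩
  have hdec : ∀ k, Dec (P := I.PP (α : Stg)) (T k) := by
    intro k
    rw [hT]
    exact dec_all fun l => (dec_ev (P := I.PP (α : Stg)) AA l).imp (dec_all fun b =>
      (dec_const _).imp ((dec_const _).imp (dec_ev (P := I.PP (α : Stg)) S₀ b)))
  obtain ⟨g, hgq, ⟨⟨A, hA⟩, hSU⟩, htr⟩ := fo_exists (P := I.PP (α : Stg))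
    (Fo.and (P := I.PP (α : Stg)) hpsi hU)
    (eventually_countable_forall.2 fun k => Dec.truth' (P := I.PP (α : Stg)) (hdec k))
  obtain ⟨-, hblk, -, hAA, hS⟩ := hA
  obtain ⟨k, hk⟩ := hS S₀ hS₀ hSU
  have hTk : T k g := by
    rw [hT]
    intro l hl b hb hlo
    obtain ⟨k', rfl⟩ := (hAA l).1 hl
    exact hk b ((mem_fu_iff_FUl hblk b).2 ⟨k', hb⟩) hlo
  obtain ⟨q₂, -, -, hq₂, hq₂T⟩ := htr k hTk q₁ hgq
  refine ⟨q₂, k, hq₂, ?_⟩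
  have h1 : Fo (P := I.PP (α : Stg)) q₂ (fun g => ∃ A, PsiA 𝒰 𝒜 AA g A) :=
    Fo.mono (P := I.PP (α : Stg)) hpsi hq₂
  refine Fo.imp (P := I.PP (α : Stg)) (Fo.and (P := I.PP (α : Stg)) h1 hq₂T)
    (fo_of_eventually (P := I.PP (α : Stg)) (Filter.Eventually.of_forall ?_))
  rintro g ⟨⟨A, hA⟩, hTg⟩
  refine ⟨A, hA, fun b hb => ?_⟩
  rw [hT] at hTg
  have h2 : b ∈ fu A := ((mem_fu_tail hA.2.1 k).1 hb).1
  obtain ⟨k', hk'⟩ := (mem_fu_iff_FUl hA.2.1 b).1 h2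
  exact hTg _ ((hA.2.2.2.1 _).2 ⟨k', rfl⟩) b hk' (plim_lo hA.2.1 hb)

/-- the name of the set of the unions of the entries of the sequence from `m₀` on -/
private def plimS (AA : List (Finset ℕ) → Set I.C) (m₀ : ℕ) : Finset ℕ → Set I.C :=
  fun b => {c | ∃ l : List (Finset ℕ), b ∈ FUl (l.drop m₀) ∧ c ∈ AA l}

private theorem plim_evS {𝒜 : Set (Finset ℕ → Set I.C)} {AA : List (Finset ℕ) → Set I.C}
    {m₀ : ℕ} {g : GG (I.PP (α : Stg))} {A : ℕ → Finset ℕ} (hA : PsiA 𝒰 𝒜 AA g A) :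
    ev (P := I.PP (α : Stg)) (plimS AA m₀) g = fu (fun i => A (i + m₀)) := by
  obtain ⟨-, hblk, -, hAA, -⟩ := hA
  ext b
  rw [plim_mem_tail hblk]
  constructor
  · rintro ⟨c, ⟨l, hl, hc⟩, hcg⟩
    obtain ⟨k, rfl⟩ := (hAA l).1 ⟨c, hc, hcg⟩
    exact ⟨k, hl⟩
  · rintro ⟨k, hk⟩
    obtain ⟨c, hc, hcg⟩ := (hAA ((List.range k).map A)).2 ⟨k, rfl⟩
    exact ⟨c, ⟨_, hk, hc⟩, hcg⟩

private theorem plim_core (hI : I.Proper) (hmono : StrictMono dn) (h0 : dn 0 = α)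
    (hdn : ∀ n, (dn n : Stg) < δ) (hcof : ∀ γ : Ordinal.{0}, (γ : Stg) < δ → ∃ n, γ < dn n)
    (h : I.SouAt (α : Stg) 𝒰 p₀) (hn : ∀ n, I.SouAt (dn n : Stg) (I.cutF (α : Stg) 𝒰) p₀)
    (W : Finset ℕ → Set I.C) {r₀ : I.C} (hr₀ : I.le δ r₀ p₀)
    (hH : HHO (α : Stg) δ 𝒰 W r₀ ∅) :
    ∃ q, I.le δ q r₀ ∧ ∃ S, I.InU (α : Stg) 𝒰 q S ∧
      ∀ b r, I.le δ r q → (∃ c ∈ S b, I.le (α : Stg) r c) → ∃ s, I.le δ s r ∧ s ∈ W b := by
  classical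
  have hαδ : (α : Stg) ≤ δ := by
    rw [← h0]
    exact (hdn 0).le
  have hα : ∀ n, α ≤ dn n := by
    intro n
    rw [← h0]
    exact hmono.monotone (Nat.zero_le n)
  -- the dense set
  obtain ⟨D, hD⟩ : ∃ D : Set I.C, D = {d | (I.le (α : Stg) d r₀ ∧ ∃ S : Finset ℕ → Set I.C,
      I.InU (α : Stg) 𝒰 d S ∧ GoodN (α : Stg) δ 𝒰 W (α : Stg) d r₀ ∅ S) ∨
      ∀ s, I.le (α : Stg) s d → ¬ I.le (α : Stg) s r₀} := ⟨_, rfl⟩
  have hDd : ∀ p, ∃ d ∈ D, I.le (α : Stg) d p := by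
    intro p
    by_cases hp : ∃ s, I.le (α : Stg) s p ∧ I.le (α : Stg) s r₀
    · obtain ⟨s, hsp, hsr⟩ := hp
      have hν : I.SouAt (α : Stg) (I.cutF (α : Stg) 𝒰) p₀ := by
        have h1 := hn 0
        rw [h0] at h1
        exact h1
      obtain ⟨c', hc', S, hS1, hS2⟩ := good_exists (ν := (α : Stg)) le_rfl hαδ h hν hr₀ hH hsr
      refine ⟨c', ?_, I.le_trans' _ hc' hsp⟩
      rw [hD]
      exact Or.inl ⟨I.le_trans' _ hc' hsr, S, hS1, hS2⟩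
    · refine ⟨p, ?_, I.le_refl' _ p⟩
      rw [hD]
      exact Or.inr fun s h1 h2 => hp ⟨s, h1, h2⟩
  obtain ⟨F, hF⟩ : ∃ F : I.C → (Finset ℕ → Set I.C), ∀ d, (∃ S : Finset ℕ → Set I.C,
      I.InU (α : Stg) 𝒰 d S ∧ GoodN (α : Stg) δ 𝒰 W (α : Stg) d r₀ ∅ S) →
      I.InU (α : Stg) 𝒰 d (F d) ∧ GoodN (α : Stg) δ 𝒰 W (α : Stg) d r₀ ∅ (F d) := by
    refine ⟨fun d => if hd : ∃ S : Finset ℕ → Set I.C, I.InU (α : Stg) 𝒰 d S ∧
      GoodN (α : Stg) δ 𝒰 W (α : Stg) d r₀ ∅ S then hd.choose else fun _ => ∅, fun d hd => ?_⟩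
    beta_reduce
    rw [dif_pos hd]
    exact hd.choose_spec
  -- the hull
  have hev : ∀ᶠ N in ClubS (Obj I.C), I.Cl N ∧
      (∀ α δ : Stg, Obj.ord α ∈ N → Obj.ord δ ∈ N → α ≤ δ → I.EXTN N α δ) ∧
      (∀ δ : Stg, Obj.ord δ ∈ N → ∀ p, Obj.cond p ∈ N → ∃ q, I.le δ q p ∧ I.NGen N δ q ∧
        ∀ γ : Ordinal.{0}, q.1 γ ≠ I.x₀ → Obj.ord (γ : Stg) ∈ N) ∧
      (∀ (AA : List (Finset ℕ) → Set I.C) (m₀ n : ℕ) (x : PSt I) (q : I.C),
        Obj.cond x.r ∈ N → Obj.nm x.S ∈ N → PS α δ 𝒰 W p₀ dn n x → I.NGen N (dn n : Stg) q →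
        POk α 𝒰 {S | Obj.nm S ∈ N} AA m₀ dn n x q →
        ∃ (q' : I.C) (x' : PSt I), Obj.cond x'.r ∈ N ∧ Obj.nm x'.S ∈ N ∧
          I.le (dn n : Stg) q' q ∧ PS α δ 𝒰 W p₀ dn (n + 1) x' ∧ I.le δ x'.r x.r ∧
          I.le (dn n : Stg) q' x'.r ∧ ∀ c, I.le (dn n : Stg) c q' →
            I.le (dn (n + 1) : Stg) c x'.r →
              POk α 𝒰 {S | Obj.nm S ∈ N} AA m₀ dn (n + 1) x' c) ∧
      Obj.cond r₀ ∈ N ∧ Obj.dset D ∈ N ∧ (∀ n, Obj.ord (dn n : Stg) ∈ N) ∧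
      (∀ d, Obj.cond d ∈ N → Obj.nm (F d) ∈ N) := by
    filter_upwards [cs_cl, cs_ext hI, cs_generic hI, plim_step hmono hdn hα h hn W,
      cs_mem (Obj.cond r₀), cs_mem (Obj.dset D),
      eventually_countable_forall.2 fun n : ℕ => cs_mem (Obj.ord (dn n : Stg)),
      cs_lift cond_inj fun d => cs_mem (Obj.nm (F d))] with N h1 h2 h3 h4 h5 h6 h7 h8
    exact ⟨h1, h2, h3, h4, h5, h6, h7, h8⟩
  obtain ⟨N, hN, hext, hgen, hstep, hr₀N, hDN, hdnN, hFN⟩ := cs_exists hev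
  have hαN : Obj.ord (α : Stg) ∈ N := by
    have h1 := hdnN 0
    rw [h0] at h1
    exact h1
  obtain ⟨q₀, hq₀r, hq₀g, -⟩ := hgen (α : Stg) hαN r₀ hr₀N
  obtain ⟨d, hdD, hdN, q₁, hq₁q, hq₁d⟩ := hq₀g D hDN hDd q₀ (I.le_refl' _ _)
  have hd : I.le (α : Stg) d r₀ ∧ ∃ S : Finset ℕ → Set I.C,
      I.InU (α : Stg) 𝒰 d S ∧ GoodN (α : Stg) δ 𝒰 W (α : Stg) d r₀ ∅ S := by
    rw [hD] at hdD
    rcases hdD with h1 | h1
    · exact h1
    · exact absurd (I.le_trans' _ hq₁q hq₀r) (h1 q₁ hq₁d)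
  obtain ⟨hdr, hdS⟩ := hd
  obtain ⟨hS1, hS2⟩ := hF d hdS
  obtain ⟨S₀, hS₀⟩ : ∃ S₀, S₀ = F d := ⟨_, rfl⟩
  rw [← hS₀] at hS1 hS2
  have hS₀N : Obj.nm S₀ ∈ N := by
    rw [hS₀]
    exact hFN d hdN
  have hr₁N : Obj.cond (I.glue (α : Stg) d r₀) ∈ N := hN.glue _ hαN d hdN r₀ hr₀N
  have hr₁r : I.le δ (I.glue (α : Stg) d r₀) r₀ := glue_le hdr
  have hgood : GoodN (α : Stg) δ 𝒰 W (α : Stg) (I.glue (α : Stg) d r₀)
      (I.glue (α : Stg) d r₀) ∅ S₀ := goodN_glue hαδ hdr hS2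
  obtain ⟨r₁, hr₁⟩ : ∃ r₁, r₁ = I.glue (α : Stg) d r₀ := ⟨_, rfl⟩
  have hr₁d : I.le (α : Stg) r₁ d := by
    rw [hr₁]
    exact glue_le_left
  have hdr₁ : I.le (α : Stg) d r₁ := by
    rw [hr₁]
    exact left_le_glue
  rw [← hr₁] at hr₁N hr₁r hgood
  -- the pseudo-intersection
  have h𝒜 : {S : Finset ℕ → Set I.C | Obj.nm S ∈ N}.Countable := hN.ctbl.preimage plim_nm_inj
  have hq₁p : I.le (α : Stg) q₁ p₀ :=
    I.le_trans' _ (I.le_trans' _ hq₁q hq₀r) (I.le_stage hαδ hr₀)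
  obtain ⟨AA, hAA⟩ := psi h h𝒜 hq₁p
  have hAA' : Fo (P := I.PP (α : Stg)) q₁
      (fun g => ∃ A, PsiA 𝒰 {S | Obj.nm S ∈ N} AA g A) := hAA
  obtain ⟨q₂, m₀, hq₂q, hq₂⟩ := plim_first (𝒜 := {S | Obj.nm S ∈ N}) hS₀N
    (inU_mono hS1 hq₁d) hAA'
  have hq₂d : I.le (α : Stg) q₂ d := I.le_trans' _ hq₂q hq₁d
  -- the construction
  obtain ⟨q, hq1, -, hq3⟩ := lim_construction N hN δ dn hmono hdnN hdn (fun γ _ => hcof γ)
    (fun n => hext _ _ (hdnN n) (hdnN (n + 1)) (WithTop.coe_le_coe.2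
      (hmono (Nat.lt_succ_self n)).le))
    (St := {x : PSt I // Obj.cond x.r ∈ N ∧ Obj.nm x.S ∈ N}) (fun x => x.1.r)
    (fun x => x.2.1) (fun n x => PS α δ 𝒰 W p₀ dn n x.1 ∧ I.le δ x.1.r r₁)
    (fun n x c => POk α 𝒰 {S | Obj.nm S ∈ N} AA m₀ dn n x.1 c)
    (fun n x c hc => hc.1) (fun n x c c' hc hc' => plim_pok_mono (hα n) hc hc')
    (by
      intro n x q hx hq hOk
      obtain ⟨q', x', e1, e2, e3, e4, e5, e6, e7⟩ :=
        hstep AA m₀ n x.1 q x.2.1 x.2.2 hx.1 hq hOk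
      exact ⟨q', ⟨x', e1, e2⟩, e3, ⟨e4, I.le_trans' δ e5 hx.2⟩, e5, e6, e7⟩)
    q₂ ⟨⟨r₁, [], S₀⟩, hr₁N, hS₀N⟩
    ⟨⟨Nat.zero_le _, I.le_trans' δ hr₁r hr₀, HHO.mono hH hr₁r, inU_mono hS1 hr₁d, by
      rw [h0]
      exact hgood⟩, I.le_refl' _ _⟩
    (by
      rw [h0]
      exact ngen_mono hq₀g (I.le_trans' _ hq₂q hq₁q))
    ⟨by
      rw [h0]
      exact I.le_trans' _ hq₂d hdr₁, by
      refine Fo.imp (P := I.PP (α : Stg)) hq₂ (fo_of_eventually (P := I.PP (α : Stg))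
        (Filter.Eventually.of_forall ?_))
      rintro g ⟨A, hA, hA'⟩
      refine ⟨A, hA, rfl, fun b hb => hA' b ?_⟩
      have e : (fun i => A (i + (([] : List (Finset ℕ)).length + m₀))) =
          fun i => A (i + m₀) := by
        funext i
        rw [List.length_nil, Nat.zero_add]
      rw [← e]
      exact hb⟩
  have hqq₂ : I.le (α : Stg) q q₂ := by
    refine le_of_eqOn fun γ hγ => hq1 γ ?_
    rw [h0]
    exact WithTop.coe_lt_coe.1 hγ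
  refine ⟨q, ?_, plimS AA m₀, ?_, ?_⟩
  · refine le_of_dense fun r hr => ?_
    obtain ⟨s, hs, x, hx, hsx, -⟩ := hq3 0 r hr
    exact ⟨s, hs, I.le_trans' δ hsx (I.le_trans' δ hx.2 hr₁r)⟩
  · have e1 : Fo (P := I.PP (α : Stg)) q (fun g => ∃ A, PsiA 𝒰 {S | Obj.nm S ∈ N} AA g A) :=
      Fo.mono (P := I.PP (α : Stg)) hAA' (I.le_trans' _ hqq₂ hq₂q)
    have e2 : Fo (P := I.PP (α : Stg)) q (fun g => Dir (P := I.PP (α : Stg)) 𝒰 g ∧
        IsSOUi g.M (evF (P := I.PP (α : Stg)) 𝒰 g)) :=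
      Fo.mono (P := I.PP (α : Stg)) h (I.le_trans' _ (I.le_trans' _ hqq₂ hq₂q) hq₁p)
    refine Fo.imp (P := I.PP (α : Stg)) (Fo.and (P := I.PP (α : Stg)) e1 e2)
      (fo_of_eventually (P := I.PP (α : Stg)) ?_)
    filter_upwards [GC_club (P := I.PP (α : Stg)) club_StdF] with g hstd
    rintro ⟨⟨A, hA⟩, -, hsou⟩
    rw [plim_evS hA]
    exact sou_fu_tail_i hsou hA.2.1 hA.2.2.1 m₀
  · rintro b r hr ⟨c, ⟨l, hbl, hcl⟩, hrc⟩
    obtain ⟨s, hs, x, hx, hsx, hOk⟩ := hq3 l.length r hr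
    have hb : b ∈ FUl x.1.aa := by
      obtain ⟨g, hsg, ⟨A, hA, haa, -⟩, -⟩ := fo_exists (P := I.PP (α : Stg)) hOk.2
        (T' := fun _ => True) (Filter.Eventually.of_forall fun _ => trivial)
      have hcg : (c : I.PP (α : Stg)) ∈ g :=
        mem_up (P := I.PP (α : Stg)) hsg (I.le_trans' _ (I.le_stage hαδ hs) hrc)
      obtain ⟨k, hk⟩ := (hA.2.2.2.1 l).1 ⟨c, hcl, hcg⟩
      have hlen : l.length = k := by
        rw [hk]
        simp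
      have hle : l.length ≤ x.1.aa.length := hx.1.1
      rw [hk, plim_drop] at hbl
      rw [haa]
      refine FUl_mono ?_ hbl
      refine List.Sublist.map _ ?_
      refine List.range_sublist.2 ?_
      omega
    obtain ⟨s', hs', hs'W⟩ := HHO.inZ hx.1.2.2.1 (mem_extL hb ∅) hsx
    exact ⟨s', I.le_trans' δ hs' hs, hs'W⟩

/-- PRESERVATION AT LIMITS OF COUNTABLE COFINALITY (piece PLIM). PROOF. Let `Z`, `p ≤_δ p₀` be given, `Z' b = {r | ∃ c ∈ Z b, r ≤_δ c}` (open). By `dichoO` there is `r₀ ≤_δ p` with `HHO W r₀ ∅`, where `W = Z'` or `W = compZ δ Z'`. Take a hull `N` with: `cs_cl`, `cs_ext`, `cs_generic`, `plim_step` for `W`, `δ`, `α`, all `dn n`, `r₀` in `N`, and the set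
`D = {d | (d ≤_α r₀ and there is S with InU α d S, GoodN α d r₀ ∅ S) or d is incompatible with r₀ at stage α}` in `N` and a choice operation for `S` (`D` is dense at stage `α = dn 0` by `good_exists`). By `cs_generic` there is `q₀ ≤_α r₀`, `NGen` at `α`. There are `d ∈ D ∩ N` and `q₁ ≤_α q₀, d`; `S₀ ∈ N`. Let `r₁ = glue α d r₀ ∈ N` (`Cl.glue`), `≤_δ r₀`; `goodN_glue`. By `psi` for `q₁` and the
set of the names in `N` there is `AA`. `q₁` forces (stage `α`) `∃ A, PsiA ...`, and `S₀` in the ultrafilter; extend `q₁` at the stage `α` to `q₂` deciding a number `m₀` such that `fu (A (· + m₀)) ⊆ S₀`. The state `x₁ = (r₁, [], S₀)` is of level `0` and `q₂` is ok for it. Apply `lim_construction` to `St` = states with `x.r, x.S ∈ N`, `S n x : PS n x ∧ x.r ≤_δ r₁`, `Ok = POk`.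
We get `q`, agreeing with `q₂` below `α`. `q ≤_δ p` by `le_of_dense` (level `0`). Let `S b = {c | c forces (stage α) ∃ A, PsiA ... ∧ b ∈ fu (A (· + m₀))}`. `InU α q S` : in `g ∋ q` (stage `α`) `ev S g = fu (A (· + m₀))` (the sequence `A` is determined by `AA`; truth lemma for this decided property), which is in the ultrafilter (`sou_fu_tail_i` or by `PsiA`).
CLAIM: if `r ≤_δ q` and `r ≤_α c ∈ S b` then there is `s ≤_δ r`, `s ∈ W b`. Indeed let `n = mx b + 2`. There are `s ≤_δ r` and a state `x` of level `n` with `s ≤_δ x.r` and `POk n x s`. As `A` is a block sequence, `A i ⊆ [i, ∞)`, so `b` is a union of entries of `x.aa`, `b ∈ FUl x.aa ⊆ extL ∅ x.aa` (`mem_extL`; a number of the statement forced by `s` at the stage `α`; use a good generic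
containing `s`). By `HHO.inZ` there is `s' ≤_δ s` in `W b`. So if `W = Z'` the first alternative of `PresAt` holds, if `W = compZ δ Z'` the second one. -/
theorem presAt_limit (hI : I.Proper) (hmono : StrictMono dn) (h0 : dn 0 = α)
    (hdn : ∀ n, (dn n : Stg) < δ) (hcof : ∀ γ : Ordinal.{0}, (γ : Stg) < δ → ∃ n, γ < dn n)
    (h : I.SouAt (α : Stg) 𝒰 p₀) (hn : ∀ n, I.SouAt (dn n : Stg) (I.cutF (α : Stg) 𝒰) p₀) :
    I.PresAt (α : Stg) 𝒰 p₀ δ := by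
  intro Z p hp
  have hαδ : (α : Stg) ≤ δ := by
    rw [← h0]
    exact (hdn 0).le
  obtain ⟨Z', hZ'⟩ : ∃ Z' : Finset ℕ → Set I.C, Z' = fun b => {r | ∃ c ∈ Z b, I.le δ r c} :=
    ⟨_, rfl⟩
  have hopen : OpenZ δ Z' := by
    intro τ p hp q hq
    rw [hZ'] at hp ⊢
    obtain ⟨c, hc, hpc⟩ := hp
    exact ⟨c, hc, I.le_trans' δ hq hpc⟩
  obtain ⟨r₀, hr₀, hH | hH⟩ := dichoO hαδ h hopen hp
  · obtain ⟨q, hq, S, hS, hall⟩ := plim_core hI hmono h0 hdn hcof h hn Z'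
      (I.le_trans' δ hr₀ hp) hH
    refine ⟨q, I.le_trans' δ hq hr₀, S, hS, Or.inl fun b r hr hc => ?_⟩
    obtain ⟨s, hs, hsW⟩ := hall b r hr hc
    rw [hZ'] at hsW
    exact ⟨s, hs, hsW⟩
  · obtain ⟨q, hq, S, hS, hall⟩ := plim_core hI hmono h0 hdn hcof h hn (compZ δ Z')
      (I.le_trans' δ hr₀ hp) hH
    refine ⟨q, I.le_trans' δ hq hr₀, S, hS, Or.inr fun b r hr hc c hcZ hrc => ?_⟩
    obtain ⟨s, hs, hsW⟩ := hall b r hr hc
    refine hsW s (I.le_refl' δ s) ?_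
    rw [hZ']
    exact ⟨c, hcZ, I.le_trans' δ hs hrc⟩

end Pool.Agent.CSI
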