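import Pool.Agent.Lib_CSI.Step35

/-!
# Definitions for the preservation at limits of countable cofinality
-/

set_option autoImplicit false

namespace Pool.Agent.CSI

open Pool.Agent.GGen Pool.Agent.HMod Pool.Agent.SOU Pool.Agent.SOUi

variable {I : It}

/-- states of the limit construction: condition, list (a segment of `A`), name -/
structure PSt (I : It) : Type 1 where
  r : I.C
  aa : List (Finset ℕ)
  S : Finset ℕ → Set I.C

/-- `x` is a state of level `n` -/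
def PS (α : Ordinal.{0}) (δ : Stg) (𝒰 : FN (Finset ℕ) I.C) (Z : Finset ℕ → Set I.C) (p₀ : I.C)
    (dn : ℕ → Ordinal.{0}) (n : ℕ) (x : PSt I) : Prop :=
  n ≤ x.aa.length ∧ I.le δ x.r p₀ ∧ HHO (α : Stg) δ 𝒰 Z x.r (extL ∅ x.aa) ∧
    I.InU (α : Stg) 𝒰 x.r x.S ∧ GoodN (α : Stg) δ 𝒰 Z (dn n : Stg) x.r x.r (extL ∅ x.aa) x.S

/-- `AA` names the initial segments of a block sequence `A` in the ultrafilter, almost included in all the sets of the ultrafilter named by `𝒜` -/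
def PsiA {ν : Stg} (𝒰 : FN (Finset ℕ) I.C) (𝒜 : Set (Finset ℕ → Set I.C))
    (AA : List (Finset ℕ) → Set I.C) (g : GG (I.PP ν)) (A : ℕ → Finset ℕ) : Prop :=
  IntF g.M A ∧ BlkF A ∧ fu A ∈ evF (P := I.PP ν) 𝒰 g ∧
    (∀ l, l ∈ ev (P := I.PP ν) AA g ↔ ∃ k, l = (List.range k).map A) ∧
    ∀ S ∈ 𝒜, ev (P := I.PP ν) S g ∈ evF (P := I.PP ν) 𝒰 g →
      ∃ k, ∀ b ∈ fu A, Lo k b → b ∈ ev (P := I.PP ν) S g

/-- the conditions that are ok for the state: below `x.r` at stage `dn n`, and forcing (stage `α`) that `x.aa` is the segment of length `x.aa.length` of the sequence `A` starting with `A m₀`, and that the rest of `fu A` is included in `x.S` -/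
def POk (α : Ordinal.{0}) (𝒰 : FN (Finset ℕ) I.C) (𝒜 : Set (Finset ℕ → Set I.C))
    (AA : List (Finset ℕ) → Set I.C) (m₀ : ℕ) (dn : ℕ → Ordinal.{0}) (n : ℕ) (x : PSt I)
    (c : I.C) : Prop :=
  I.le (dn n : Stg) c x.r ∧ Fo (P := I.PP (α : Stg)) c (fun g => ∃ A, PsiA 𝒰 𝒜 AA g A ∧
    x.aa = (List.range x.aa.length).map (fun i => A (i + m₀)) ∧
    ∀ b ∈ fu (fun i => A (i + (x.aa.length + m₀))), b ∈ ev (P := I.PP (α : Stg)) x.S g)

end Pool.Agent.CSI
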