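import Pool.Agent.Lib_CSI.PDefs
import Pool.Agent.Lib_MP_a0d45a_int.FDiagi
import Pool.Agent.Lib_GG.Mix

/-!
# Piece PSI: pseudo-intersections for countable sets of names
-/

set_option autoImplicit false

namespace Pool.Agent.CSI

open Pool.Agent.GGen Pool.Agent.HMod Pool.Agent.SOU Pool.Agent.SOUi

private theorem psi_unL (A : ℕ → Finset ℕ) (l : List ℕ) :
    unL (l.map A) = l.toFinset.biUnion A := by
  induction l with
  | nil => simp [unL]
  | cons a l ih =>
    have h1 : unL ((a :: l).map A) = A a ∪ unL (l.map A) := rfl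
    rw [h1, ih, List.toFinset_cons, Finset.biUnion_insert]

private theorem psi_mem {A : ℕ → Finset ℕ} (b : Finset ℕ) :
    b ∈ fu A ↔ ∃ k, b ∈ FUl ((List.range k).map A) := by
  classical
  constructor
  · rintro ⟨I, hI, rfl⟩
    refine ⟨I.sup id + 1, ((List.range (I.sup id + 1)).filter (fun n => n ∈ I)).map A,
      List.Sublist.map A List.filter_sublist, ?_, ?_⟩
    · intro h
      obtain ⟨n, hn⟩ := hI
      have h1 : (List.range (I.sup id + 1)).filter (fun n => n ∈ I) = [] := List.map_eq_nil_iff.1 h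
      have h2 : n ∈ (List.range (I.sup id + 1)).filter (fun n => n ∈ I) := by
        rw [List.mem_filter, List.mem_range]
        refine ⟨?_, by simpa using hn⟩
        have := Finset.le_sup (f := id) hn
        simp only [id] at this
        change n < I.sup id + 1
        have h3 : n ≤ I.sup id := this
        omega
      rw [h1] at h2
      exact absurd h2 List.not_mem_nil
    · rw [psi_unL]
      congr 1
      ext n
      rw [List.mem_toFinset, List.mem_filter, List.mem_range]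
      constructor
      · intro hn
        have h3 : n ≤ I.sup id := Finset.le_sup (f := id) hn
        exact ⟨by omega, by simpa using hn⟩
      · rintro ⟨_, hn⟩
        simpa using hn
  · rintro ⟨k, l, hl, hne, rfl⟩
    obtain ⟨l₀, _, rfl⟩ := List.sublist_map_iff.1 hl
    refine ⟨l₀.toFinset, ?_, psi_unL A l₀⟩
    have h1 : l₀ ≠ [] := by
      rintro rfl
      exact hne rfl
    rwa [List.toFinset_nonempty_iff]

/-! ### the sets of initial segments of block sequences -/

/-- block lists, elementwise -/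
private def BlP (l : List (Finset ℕ)) : Prop := (∀ n, n < l.length → (l.getD n ∅).Nonempty) ∧
  ∀ n, n + 1 < l.length → ∀ i ∈ l.getD n ∅, ∀ j ∈ l.getD (n + 1) ∅, i < j

/-- `E` is the set of the initial segments of a block sequence -/
private def Seqq (E : Set (List (Finset ℕ))) : Prop := (∀ k : ℕ, ∃ l, l ∈ E ∧ l.length = k) ∧
  (∀ l, l ∈ E → ∀ l', l' ∈ E → (l <+: l' ∨ l' <+: l)) ∧ ∀ l, l ∈ E → BlP l

private theorem psi_getD {A : ℕ → Finset ℕ} {k n : ℕ} (h : n < k) :
    ((List.range k).map A).getD n ∅ = A n := by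
  rw [List.getD_eq_getElem _ _ (by simpa using h)]
  simp

private theorem psi_prefix_getD {l l' : List (Finset ℕ)} (h : l <+: l') {n : ℕ}
    (hn : n < l.length) : l.getD n ∅ = l'.getD n ∅ := by
  obtain ⟨t, rfl⟩ := h
  rw [List.getD_append _ _ _ _ hn]

private theorem psi_ext {l l' : List (Finset ℕ)} (hl : l.length = l'.length)
    (h : ∀ n, n < l.length → l.getD n ∅ = l'.getD n ∅) : l = l' := by
  refine List.ext_getElem hl fun n h1 h2 => ?_
  have := h n h1
  rwa [List.getD_eq_getElem _ _ h1, List.getD_eq_getElem _ _ h2] at this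

private theorem psi_seq_mk {A : ℕ → Finset ℕ} (hA : BlkF A) :
    Seqq {l | ∃ k, l = (List.range k).map A} := by
  refine ⟨fun k => ⟨_, ⟨k, rfl⟩, by simp⟩, ?_, ?_⟩
  · have key : ∀ k k', k ≤ k' → (List.range k).map A <+: (List.range k').map A := by
      intro k k' h
      refine List.IsPrefix.map A ?_
      obtain ⟨d, rfl⟩ := Nat.exists_eq_add_of_le h
      rw [List.range_add]
      exact List.prefix_append _ _
    rintro l ⟨k, rfl⟩ l' ⟨k', rfl⟩
    rcases le_total k k' with h | h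
    · exact Or.inl (key k k' h)
    · exact Or.inr (key k' k h)
  · rintro l ⟨k, rfl⟩
    refine ⟨fun n hn => ?_, fun n hn => ?_⟩
    · have hn' : n < k := by simpa using hn
      rw [psi_getD hn']
      exact hA.ne n
    · have hn' : n + 1 < k := by simpa using hn
      rw [psi_getD hn', psi_getD (by omega)]
      exact hA.lt n

private theorem psi_seq {E : Set (List (Finset ℕ))} (hE : Seqq E) :
    ∃ A : ℕ → Finset ℕ, BlkF A ∧ (∀ l, l ∈ E ↔ ∃ k, l = (List.range k).map A) ∧
      ∀ n b, A n = b ↔ ∃ l, l ∈ E ∧ l.length = n + 1 ∧ l.getD n ∅ = b := by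
  obtain ⟨h1, h2, h3⟩ := hE
  choose L hL hLl using h1
  set A : ℕ → Finset ℕ := fun n => (L (n + 1)).getD n ∅ with hA
  have hAE : ∀ l ∈ E, ∀ n, n < l.length → l.getD n ∅ = A n := by
    intro l hl n hn
    rcases h2 l hl (L (n + 1)) (hL _) with h | h
    · exact psi_prefix_getD h hn
    · exact (psi_prefix_getD h (by rw [hLl]; omega)).symm
  have hEq : ∀ l ∈ E, l = (List.range l.length).map A := by
    intro l hl
    refine psi_ext (by simp) fun n hn => ?_
    rw [hAE l hl n hn, psi_getD hn]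
  have hmem : ∀ l, l ∈ E ↔ ∃ k, l = (List.range k).map A := by
    intro l
    constructor
    · intro hl
      exact ⟨_, hEq l hl⟩
    · rintro ⟨k, rfl⟩
      have := hEq (L k) (hL k)
      rw [hLl] at this
      rw [← this]
      exact hL k
  refine ⟨A, ⟨fun n => ?_, fun n => ?_⟩, hmem, ?_⟩
  · have := (h3 (L (n + 1)) (hL _)).1 n (by rw [hLl]; omega)
    exact this
  · have h4 := (h3 (L (n + 2)) (hL _)).2 n (by rw [hLl]; omega)
    rw [hAE _ (hL (n + 2)) n (by rw [hLl]; omega),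
      hAE _ (hL (n + 2)) (n + 1) (by rw [hLl]; omega)] at h4
    exact h4
  · intro n b
    constructor
    · rintro rfl
      exact ⟨L (n + 1), hL _, hLl _, rfl⟩
    · rintro ⟨l, hl, hlen, rfl⟩
      exact (hAE l hl n (by omega)).symm

variable {I : It} {α : Stg} {𝒰 : FN (Finset ℕ) I.C} {p₀ : I.C}

/-- the property in `psi` -/
private def PsiT (α : Stg) (𝒰 : FN (Finset ℕ) I.C) (𝒜 : Set (Finset ℕ → Set I.C))
    (AA : List (Finset ℕ) → Set I.C) (g : GG (I.PP α)) : Prop := ∃ A : ℕ → Finset ℕ,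
      IntF g.M A ∧ BlkF A ∧ fu A ∈ evF (P := I.PP α) 𝒰 g ∧
      (∀ l, l ∈ ev (P := I.PP α) AA g ↔ ∃ k, l = (List.range k).map A) ∧
      ∀ S ∈ 𝒜, ev (P := I.PP α) S g ∈ evF (P := I.PP α) 𝒰 g →
        ∃ k, ∀ b ∈ fu A, Lo k b → b ∈ ev (P := I.PP α) S g

/-- the decided form of the property in `psi` -/
private def PsiD (α : Stg) (𝒰 : FN (Finset ℕ) I.C) (S : ℕ → Finset ℕ → Set I.C)
    (AA : List (Finset ℕ) → Set I.C) (g : GG (I.PP α)) : Prop :=
  Seqq (ev (P := I.PP α) AA g) ∧
  (Dir (P := I.PP α) 𝒰 g ∧ {b | ∃ l, l ∈ ev (P := I.PP α) AA g ∧ b ∈ FUl l} ∈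
    evF (P := I.PP α) 𝒰 g) ∧
  ∀ n, (Dir (P := I.PP α) 𝒰 g ∧ {b | b ∈ ev (P := I.PP α) (S n) g} ∈ evF (P := I.PP α) 𝒰 g) →
    ∃ k : ℕ, ∀ b, (∃ l, l ∈ ev (P := I.PP α) AA g ∧ b ∈ FUl l) → Lo k b →
      b ∈ ev (P := I.PP α) (S n) g

private theorem psi_dec (S : ℕ → Finset ℕ → Set I.C) (AA : List (Finset ℕ) → Set I.C) :
    Dec (PsiD α 𝒰 S AA) := by
  have hl : ∀ l, Dec (fun g => l ∈ ev (P := I.PP α) AA g) := fun l => dec_ev (P := I.PP α) AA l
  have hB : ∀ b : Finset ℕ, Dec (P := I.PP α) (fun g => ∃ l, l ∈ ev (P := I.PP α) AA g ∧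
      b ∈ FUl l) := fun b => dec_ex fun l => (hl l).and (dec_const _)
  refine Dec.and (Dec.and ?_ (Dec.and ?_ ?_)) (Dec.and ?_ ?_)
  · exact dec_all fun k => dec_ex fun l => (hl l).and (dec_const _)
  · exact dec_all fun l => (hl l).imp (dec_all fun l' => (hl l').imp (dec_const _))
  · exact dec_all fun l => (hl l).imp (dec_const _)
  · exact dec_memEvF (P := I.PP α) 𝒰 hB
  · refine dec_all fun n => (dec_memEvF (P := I.PP α) 𝒰 fun b => dec_ev (P := I.PP α) (S n) b).imp
      (dec_ex fun k => dec_all fun b => (hB b).imp ((dec_const _).imp (dec_ev (P := I.PP α) (S n) b)))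

private theorem psi_DT {𝒜 : Set (Finset ℕ → Set I.C)} (S : ℕ → Finset ℕ → Set I.C)
    (hS : 𝒜 ⊆ Set.range S) (AA : List (Finset ℕ) → Set I.C) :
    ∀ᶠ g in GC (I.PP α), PsiD α 𝒰 S AA g → PsiT α 𝒰 𝒜 AA g := by
  filter_upwards [int_ev (P := I.PP α) (ι := List (Finset ℕ)), GC_has (P := I.PP α) AA,
    GC_club (P := I.PP α) club_StdF] with g h1 h2 h3
  rintro ⟨hE, ⟨hDir, hF⟩, hn⟩
  have hI := h1 AA h2
  obtain ⟨A, hA, hAE, hgr⟩ := psi_seq hE
  have hfu : {b | ∃ l, l ∈ ev (P := I.PP α) AA g ∧ b ∈ FUl l} = fu A := by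
    ext b
    rw [psi_mem]
    constructor
    · rintro ⟨l, hl, hb⟩
      obtain ⟨k, rfl⟩ := (hAE l).1 hl
      exact ⟨k, hb⟩
    · rintro ⟨k, hb⟩
      exact ⟨_, (hAE _).2 ⟨k, rfl⟩, hb⟩
  refine ⟨A, ⟨?_⟩, hA, ?_, hAE, ?_⟩
  · refine int_congr (p := fun q : ℕ × Finset ℕ => ∃ l, l ∈ ev (P := I.PP α) AA g ∧
      l.length = q.1 + 1 ∧ l.getD q.1 ∅ = q.2) (fun q => (hgr q.1 q.2).symm) ?_
    refine int_ex (R := fun (q : ℕ × Finset ℕ) (l : List (Finset ℕ)) =>
      l ∈ ev (P := I.PP α) AA g ∧ l.length = q.1 + 1 ∧ l.getD q.1 ∅ = q.2) ?_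
    refine int_and (int_comp (p := fun l => l ∈ ev (P := I.PP α) AA g) hI (intF_snd' intF_id))
      (int_and (int_eqF ?_ ?_) (int_eqF ?_ ?_))
    · exact intF_comp (g := fun l : List (Finset ℕ) => l.length) StdF.length (intF_snd' intF_id)
    · exact intF_comp (g := fun n : ℕ => n + 1) intF_succ (intF_fst' (intF_fst' intF_id))
    · exact intF_comp2 (F := fun (l : List (Finset ℕ)) (n : ℕ) => l.getD n ∅) StdF.getD
        (intF_snd' intF_id) (intF_fst' (intF_fst' intF_id))
    · exact intF_snd' (intF_fst' intF_id)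
  · rw [← hfu]
    exact hF
  · intro S' hS' hS'F
    obtain ⟨n, rfl⟩ := hS hS'
    obtain ⟨k, hk⟩ := hn n ⟨hDir, hS'F⟩
    refine ⟨k, fun b hb hlo => hk b ?_ hlo⟩
    rw [← hfu] at hb
    exact hb

/-- `𝒜` a countable set of names of sets, `q ≤ p₀`. There is a name `AA` of the set of the initial segments of a block sequence `A` with `fu A ∈ 𝒰` which is almost included in all the sets named by `𝒜` which are in `𝒰`.
PROOF. By `fo_mix` (for the base type `List (Finset ℕ)`) it is enough to find `AA` for some `r ≤ q'`, given `q' ≤ q`. Let `g ∋ q'` be sufficiently good. Enumerate `𝒜 = {S n}` (if `𝒜` is empty add the name of the set of all finite sets). In `g.M` the family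
`n ↦ ev (S n) g` is internal (`int_evSeq`), so is the family `S' n = ev (S n) g` if this is in `evF 𝒰 g`, `univ` otherwise. `U_pseudo_i` gives `A`. The set of the lists `(List.range k).map A` is internal, so it is `ev AA g` with `AA` in the hull (`rep_ev`). The property of `g` in the
statement is decided (it can be expressed by: `ev AA g` is the set of initial segments of a block sequence, `{b | b ∈ FUl l for some l ∈ ev AA g} ∈ evF 𝒰 g`, and for each `n` ...), so some condition in `g` below `q'` forces it (`Dec.truth'`). -/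
theorem psi (h : I.SouAt α 𝒰 p₀) {𝒜 : Set (Finset ℕ → Set I.C)} (h𝒜 : 𝒜.Countable) {q : I.C}
    (hq : I.le α q p₀) :
    ∃ AA : List (Finset ℕ) → Set I.C, Fo (P := I.PP α) q (fun g => ∃ A : ℕ → Finset ℕ,
      IntF g.M A ∧ BlkF A ∧ fu A ∈ evF (P := I.PP α) 𝒰 g ∧
      (∀ l, l ∈ ev (P := I.PP α) AA g ↔ ∃ k, l = (List.range k).map A) ∧
      ∀ S ∈ 𝒜, ev (P := I.PP α) S g ∈ evF (P := I.PP α) 𝒰 g →
        ∃ k, ∀ b ∈ fu A, Lo k b → b ∈ ev (P := I.PP α) S g) := by
  classical
  obtain ⟨S, hS⟩ : ∃ S : ℕ → Finset ℕ → Set I.C, 𝒜 ⊆ Set.range S := by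
    rcases Set.eq_empty_or_nonempty 𝒜 with h0 | h0
    · exact ⟨fun _ _ => ∅, by rw [h0]; exact Set.empty_subset _⟩
    · obtain ⟨S, hS⟩ := h𝒜.exists_eq_range h0
      exact ⟨S, hS.le⟩
  refine fo_mix (P := I.PP α) (ι := List (Finset ℕ)) (T := PsiT α 𝒰 𝒜) ?_ ?_
  · rintro X X' g hX ⟨A, h1, h2, h3, h4, h5⟩
    refine ⟨A, h1, h2, h3, fun l => ?_, h5⟩
    rw [← hX]
    exact h4 l
  · intro q' hq'
    have hq0 : I.le α q' p₀ := I.le_trans' α hq' hq
    have h1 : Fo (P := I.PP α) q' (fun g => Dir (P := I.PP α) 𝒰 g ∧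
        IsSOUi g.M (evF (P := I.PP α) 𝒰 g)) := Fo.mono (P := I.PP α) h hq0
    obtain ⟨g, hgq, ⟨hDir, hSou⟩, hstd, hseq, hrep, htr⟩ := fo_exists (P := I.PP α) h1
      (Filter.Eventually.and (GC_club (P := I.PP α) club_StdF)
        (Filter.Eventually.and (int_evSeq (P := I.PP α) (ι := Finset ℕ) S (fun X => X))
        (Filter.Eventually.and (rep_ev (P := I.PP α) (ι := List (Finset ℕ)))
          (Dec.truthH (P := I.PP α) (Y := List (Finset ℕ) → Set I.C) (T := PsiD α 𝒰 S)
            (fun AA => psi_dec S AA)))))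
    have hmemF : Int g.M (fun n : ℕ => ev (P := I.PP α) (S n) g ∈ evF (P := I.PP α) 𝒰 g) :=
      int_eventually (α := ℕ) (β := Finset ℕ) hSou.fil
        (R := fun n b => b ∈ ev (P := I.PP α) (S n) g) hseq
    obtain ⟨A, hAi, hA, hAU, hAS⟩ := U_pseudo_i hSou
      (fun n => {b | ev (P := I.PP α) (S n) g ∈ evF (P := I.PP α) 𝒰 g →
        b ∈ ev (P := I.PP α) (S n) g})
      (int_imp (int_comp (p := fun n : ℕ => ev (P := I.PP α) (S n) g ∈ evF (P := I.PP α) 𝒰 g)
        hmemF (intF_fst' intF_id)) hseq)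
      (fun n => by
        by_cases hn : ev (P := I.PP α) (S n) g ∈ evF (P := I.PP α) 𝒰 g
        · exact Filter.mem_of_superset hn fun b hb _ => hb
        · exact Filter.mem_of_superset Filter.univ_mem fun b _ hb => absurd hb hn)
    have hEi : Int g.M (fun l : List (Finset ℕ) => l ∈ {l | ∃ k, l = (List.range k).map A}) := by
      refine int_congr (p := fun l : List (Finset ℕ) => ∀ n : ℕ, n < l.length →
        l.getD n ∅ = A n) (fun l => ?_) ?_
      · constructor
        · intro hl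
          refine ⟨l.length, psi_ext (by simp) fun n hn => ?_⟩
          rw [hl n hn, psi_getD hn]
        · rintro ⟨k, rfl⟩ n hn
          exact psi_getD (by simpa using hn)
      · refine int_all (R := fun (l : List (Finset ℕ)) (n : ℕ) => n < l.length →
          l.getD n ∅ = A n) (int_imp (int_ltF (intF_snd' intF_id) ?_) (int_eqF ?_ ?_))
        · exact intF_comp (g := fun l : List (Finset ℕ) => l.length) StdF.length
            (intF_fst' intF_id)
        · exact intF_comp2 (F := fun (l : List (Finset ℕ)) (n : ℕ) => l.getD n ∅) StdF.getD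
            (intF_fst' intF_id) (intF_snd' intF_id)
        · exact intF_comp hAi (intF_snd' intF_id)
    obtain ⟨AA, hAAh, hAA⟩ := hrep _ hEi
    have hfu : {b | ∃ l, l ∈ ev (P := I.PP α) AA g ∧ b ∈ FUl l} = fu A := by
      rw [hAA]
      ext b
      rw [psi_mem]
      constructor
      · rintro ⟨l, ⟨k, rfl⟩, hb⟩
        exact ⟨k, hb⟩
      · rintro ⟨k, hb⟩
        exact ⟨_, ⟨k, rfl⟩, hb⟩
    have hD : PsiD α 𝒰 S AA g := by
      refine ⟨?_, ⟨hDir, ?_⟩, ?_⟩
      · rw [hAA]
        exact psi_seq_mk hA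
      · rw [hfu]
        exact hAU
      · rintro n ⟨_, hn⟩
        obtain ⟨k, hk⟩ := hAS n
        refine ⟨k, fun b hb hlo => hk b ?_ hlo hn⟩
        rw [← hfu]
        exact hb
    obtain ⟨n, hn⟩ := htr AA hAAh hD
    obtain ⟨m, hm⟩ := hgq
    refine ⟨g.gen.G (max n m), (g.gen.anti (le_max_right n m)).trans hm, AA, ?_⟩
    refine Fo.imp (P := I.PP α) (Fo.mono (P := I.PP α) hn (g.gen.anti (le_max_left n m))) ?_
    exact fo_of_eventually (P := I.PP α) (psi_DT S hS AA)

/-- the property of `g` in `psi` is decided, for the use of `AA` elsewhere: the statements `l ∈ ev AA g` are decided, and `b ∈ fu A` iff `b ∈ FUl l` for some `l ∈ ev AA g` -/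
theorem mem_fu_iff_FUl {A : ℕ → Finset ℕ} (hA : BlkF A) (b : Finset ℕ) :
    b ∈ fu A ↔ ∃ k, b ∈ FUl ((List.range k).map A) := psi_mem b

end Pool.Agent.CSI
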