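import Pool.Agent.Lib_CSI.PLimD
import Pool.Agent.Lib_CSI.Psi

/-!
# Piece PLIMSTEP
-/

set_option autoImplicit false

namespace Pool.Agent.CSI

open Pool.Agent.GGen Pool.Agent.HMod Pool.Agent.SOU Pool.Agent.SOUi

variable {I : It} {α : Ordinal.{0}} {δ : Stg} {𝒰 : FN (Finset ℕ) I.C} {p₀ : I.C}
  {Z : Finset ℕ → Set I.C} {dn : ℕ → Ordinal.{0}}

/-- a condition that is good at the stage `ν` below `c` for `r` is good for `glue ν c r`. PROOF. If `g ∋ glue ν c r` and `r' ∈ g`, `r' ≤_δ r` is as in `GoodN`, then the set of the `a` such that `a ≤_ν r''` for some `r'' ≤_δ r'`, `r'' ≤_δ glue ν c r` is dense below the common extensions (stage `ν`) of `c` and `r'`: take `r'' = glue ν a r'`. -/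
theorem goodN_glue {ν : Stg} (hν : ν ≤ δ) {c r : I.C} {C : Finset (Finset ℕ)}
    {S : Finset ℕ → Set I.C} (hc : I.le ν c r)
    (h : GoodN (α : Stg) δ 𝒰 Z ν c r C S) :
    GoodN (α : Stg) δ 𝒰 Z ν (I.glue ν c r) (I.glue ν c r) C S := by
  unfold GoodN at h ⊢
  have h' := Fo.mono (P := I.PP ν) (q := I.glue ν c r) h (glue_le_left (I := I))
  filter_upwards [h', GC_op2 (P := I.PP ν) (fun a p : I.C => I.glue ν a p)]
    with g h1 h2 hg bb hbb hFU
  obtain ⟨r₂, h3, h4, h5, h6⟩ := h1 hg bb hbb hFU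
  obtain ⟨a, ha, hah, ha1, ha2⟩ := mem_common (P := I.PP ν) h4 hg
  have h7 : I.le δ (I.glue ν a r₂) r₂ := glue_le ha1
  refine ⟨I.glue ν a r₂, h2 a r₂ hah h3, mem_up (P := I.PP ν) ha (left_le_glue (I := I)), ?_, HHO.mono h6 h7⟩
  rw [le_glue_iff hν]
  refine ⟨I.le_trans' ν glue_le_left (I.le_trans' ν ha2 glue_le_left), fun γ h8 h9 => ?_⟩
  exact (I.le_trans' δ h7 h5) γ h9

/-! ### the dense sets -/

/-- the property of `(d, S')` given by `step35` -/
private def PlQ (β ν ν' δ : Stg) (𝒰 : FN (Finset ℕ) I.C) (Z : Finset ℕ → Set I.C) (r : I.C)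
    (C : Finset (Finset ℕ)) (S : Finset ℕ → Set I.C) (d : I.C) (S' : Finset ℕ → Set I.C) : Prop :=
  I.le ν d r ∧ I.InU β 𝒰 d S' ∧ Fo (P := I.PP ν) d (fun g =>
    ∀ b, b ∈ ev (P := I.PP ν) (I.cutN β S') g → ∀ bb, BlL bb →
      FUl bb ⊆ ev (P := I.PP ν) (I.cutN β S) g → (∀ x ∈ bb, ∀ i ∈ x, i ≤ mx b) →
        ∃ (r'' : I.C) (S'' : Finset ℕ → Set I.C), g.has r'' ∧ g.has S'' ∧ (r'' : I.PP ν) ∈ g ∧
          Next35 β ν' δ 𝒰 Z r C bb r'' S'' ∧
          ∀ b' ∈ ev (P := I.PP ν) (I.cutN β S') g, Bef b b' →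
            b' ∈ ev (P := I.PP ν) (I.cutN β S'') g)

/-- the property of `(e, r'', S'')` -/
private def PlR (β ν ν' δ : Stg) (𝒰 : FN (Finset ℕ) I.C) (Z : Finset ℕ → Set I.C) (r : I.C)
    (C : Finset (Finset ℕ)) (S' : Finset ℕ → Set I.C) (bb : List (Finset ℕ)) (b : Finset ℕ)
    (e r'' : I.C) (S'' : Finset ℕ → Set I.C) : Prop :=
  I.le ν e r'' ∧ Next35 β ν' δ 𝒰 Z r C bb r'' S'' ∧ Fo (P := I.PP ν) e (fun g =>
    ∀ b' ∈ ev (P := I.PP ν) (I.cutN β S') g, Bef b b' →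
      b' ∈ ev (P := I.PP ν) (I.cutN β S'') g)

private def PlDA (β ν ν' δ : Stg) (𝒰 : FN (Finset ℕ) I.C) (Z : Finset ℕ → Set I.C) (r : I.C)
    (C : Finset (Finset ℕ)) (S : Finset ℕ → Set I.C) : Set I.C :=
  {d | (∃ S', PlQ β ν ν' δ 𝒰 Z r C S d S') ∨ ∀ s, I.le ν s d → ¬ I.le ν s r}

private def PlDB (β ν ν' δ : Stg) (𝒰 : FN (Finset ℕ) I.C) (Z : Finset ℕ → Set I.C) (r : I.C)
    (C : Finset (Finset ℕ)) (S : Finset ℕ → Set I.C) (bb : List (Finset ℕ)) (b : Finset ℕ)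
    (d : I.C) (S' : Finset ℕ → Set I.C) : Set I.C :=
  {e | (∃ r'' S'', PlR β ν ν' δ 𝒰 Z r C S' bb b e r'' S'') ∨
    Fo (P := I.PP ν) e (fun g => ¬ (b ∈ ev (P := I.PP ν) (I.cutN β S') g ∧
      FUl bb ⊆ ev (P := I.PP ν) (I.cutN β S) g)) ∨
    ∀ s, I.le ν s e → ¬ I.le ν s d}

private theorem pls_denseA {β ν ν' : Stg} (hαν : β ≤ ν) (hνν' : ν ≤ ν') (hνδ : ν' ≤ δ)
    (h : I.SouAt β 𝒰 p₀) (hν : I.SouAt ν (I.cutF β 𝒰) p₀) (hν' : I.SouAt ν' (I.cutF β 𝒰) p₀)
    {r : I.C} {C : Finset (Finset ℕ)} {S : Finset ℕ → Set I.C} (hr : I.le δ r p₀)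
    (hS : GoodN β δ 𝒰 Z ν r r C S) (p : I.C) :
    ∃ d ∈ PlDA β ν ν' δ 𝒰 Z r C S, I.le ν d p := by
  by_cases hp : ∃ s, I.le ν s p ∧ I.le ν s r
  · obtain ⟨s, hsp, hsr⟩ := hp
    obtain ⟨c', h1, S', h2, h3⟩ := step35 hαν hνν' hνδ h hν hν' hr hsr (goodN_mono hS hsr)
    exact ⟨c', Or.inl ⟨S', I.le_trans' ν h1 hsr, h2, h3⟩, I.le_trans' ν h1 hsp⟩
  · exact ⟨p, Or.inr fun s h1 h2 => hp ⟨s, h1, h2⟩, I.le_refl' ν p⟩

private theorem pls_decS {β ν : Stg} (b : Finset ℕ) (S' S'' : Finset ℕ → Set I.C) :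
    Dec (P := I.PP ν) (fun g => ∀ b' ∈ ev (P := I.PP ν) (I.cutN β S') g, Bef b b' →
      b' ∈ ev (P := I.PP ν) (I.cutN β S'') g) :=
  dec_all fun b' => (dec_ev (P := I.PP ν) (I.cutN β S') b').imp
    ((dec_const (Bef b b')).imp (dec_ev (P := I.PP ν) (I.cutN β S'') b'))

private theorem pls_decT {β ν : Stg} (b : Finset ℕ) (bb : List (Finset ℕ))
    (S S' : Finset ℕ → Set I.C) :
    Dec (P := I.PP ν) (fun g => b ∈ ev (P := I.PP ν) (I.cutN β S') g ∧
      FUl bb ⊆ ev (P := I.PP ν) (I.cutN β S) g) := by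
  refine ((dec_ev (P := I.PP ν) (I.cutN β S') b).and (dec_all fun x : Finset ℕ =>
    (dec_const (x ∈ FUl bb)).imp (dec_ev (P := I.PP ν) (I.cutN β S) x))).congr ?_
  filter_upwards with g
  exact Iff.rfl

private theorem pls_denseB {β ν ν' : Stg} {r d : I.C} {C : Finset (Finset ℕ)}
    {S S' : Finset ℕ → Set I.C} (hQ : PlQ β ν ν' δ 𝒰 Z r C S d S') {bb : List (Finset ℕ)}
    {b : Finset ℕ} (hbb : BlL bb) (hb : ∀ x ∈ bb, ∀ i ∈ x, i ≤ mx b) (p : I.C) :
    ∃ e ∈ PlDB β ν ν' δ 𝒰 Z r C S bb b d S', I.le ν e p := by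
  by_cases hp : ∃ s, I.le ν s p ∧ I.le ν s d
  · obtain ⟨s, hsp, hsd⟩ := hp
    obtain ⟨q, hq, h1 | h1⟩ := pls_decT (β := β) (ν := ν) b bb S S' s
    · have hq' : I.le ν q s := hq
      have h2 := Fo.mono (P := I.PP ν) hQ.2.2 (I.le_trans' ν hq' hsd : I.le ν q d)
      obtain ⟨g, hgq, ⟨g1, g2⟩, g3⟩ := fo_exists (P := I.PP ν) (h1.and h2)
        (Dec.truthH (P := I.PP ν) (Y := Finset ℕ → Set I.C)
          (T := fun S'' g => ∀ b' ∈ ev (P := I.PP ν) (I.cutN β S') g, Bef b b' →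
            b' ∈ ev (P := I.PP ν) (I.cutN β S'') g)
          (fun S'' => pls_decS (β := β) (ν := ν) b S' S''))
      obtain ⟨r'', S'', h3, h4, h5, h6, h7⟩ := g2 b g1.1 bb hbb g1.2 hb
      obtain ⟨k, hk⟩ := g3 S'' h4 h7
      obtain ⟨e₁, he₁, _, he₂, he₃⟩ := mem_common (P := I.PP ν) hgq h5
      obtain ⟨e, _, _, he₄, he₅⟩ := mem_common (P := I.PP ν) he₁ (G_mem g k)
      have he : I.le ν e q := I.le_trans' ν he₄ he₂
      refine ⟨e, Or.inl ⟨r'', S'', I.le_trans' ν he₄ he₃, h6, ?_⟩,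
        I.le_trans' ν he (I.le_trans' ν hq' hsp)⟩
      exact Fo.mono (P := I.PP ν) hk he₅
    · exact ⟨q, Or.inr (Or.inl h1), I.le_trans' ν hq hsp⟩
  · exact ⟨p, Or.inr (Or.inr fun s h1 h2 => hp ⟨s, h1, h2⟩), I.le_refl' ν p⟩

private theorem nm_inj {C : Type 1} : Function.Injective (Obj.nm : (Finset ℕ → Set C) → Obj C) := by
  intro a b h
  injection h

private theorem pls_clubA (β δ : Stg) (𝒰 : FN (Finset ℕ) I.C) (Z : Finset ℕ → Set I.C)
    (dn : ℕ → Ordinal.{0}) :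
    ∀ᶠ N in ClubS (Obj I.C), ∀ (n : ℕ) (C : Finset (Finset ℕ)) (r : I.C), Obj.cond r ∈ N →
      ∀ S : Finset ℕ → Set I.C, Obj.nm S ∈ N →
        Obj.dset (PlDA β (dn n : Stg) (dn (n + 1) : Stg) δ 𝒰 Z r C S) ∈ N ∧
        ∀ d, Obj.cond d ∈ N →
          (∃ S', PlQ β (dn n : Stg) (dn (n + 1) : Stg) δ 𝒰 Z r C S d S') →
          ∃ S', Obj.nm S' ∈ N ∧ PlQ β (dn n : Stg) (dn (n + 1) : Stg) δ 𝒰 Z r C S d S' := by
  refine eventually_countable_forall.2 fun n => eventually_countable_forall.2 fun C =>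
    cs_lift cond_inj fun r => cs_lift nm_inj fun S => ?_
  refine (cs_mem _).and (cs_lift cond_inj fun d => ?_)
  by_cases h : ∃ S', PlQ β (dn n : Stg) (dn (n + 1) : Stg) δ 𝒰 Z r C S d S'
  · obtain ⟨S', hS'⟩ := h
    filter_upwards [cs_mem (W := Obj I.C) (Obj.nm S')] with N hN _
    exact ⟨S', hN, hS'⟩
  · exact Filter.Eventually.of_forall fun N h' => absurd h' h

private theorem pls_clubB (β δ : Stg) (𝒰 : FN (Finset ℕ) I.C) (Z : Finset ℕ → Set I.C)
    (dn : ℕ → Ordinal.{0}) :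
    ∀ᶠ N in ClubS (Obj I.C), ∀ (n : ℕ) (C : Finset (Finset ℕ)) (bb : List (Finset ℕ))
      (b : Finset ℕ) (r : I.C), Obj.cond r ∈ N → ∀ S : Finset ℕ → Set I.C, Obj.nm S ∈ N →
      ∀ d : I.C, Obj.cond d ∈ N → ∀ S' : Finset ℕ → Set I.C, Obj.nm S' ∈ N →
        Obj.dset (PlDB β (dn n : Stg) (dn (n + 1) : Stg) δ 𝒰 Z r C S bb b d S') ∈ N ∧
        ∀ e, Obj.cond e ∈ N →
          (∃ r'' S'', PlR β (dn n : Stg) (dn (n + 1) : Stg) δ 𝒰 Z r C S' bb b e r'' S'') →
          ∃ r'' S'', Obj.cond r'' ∈ N ∧ Obj.nm S'' ∈ N ∧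
            PlR β (dn n : Stg) (dn (n + 1) : Stg) δ 𝒰 Z r C S' bb b e r'' S'' := by
  refine eventually_countable_forall.2 fun n => eventually_countable_forall.2 fun C =>
    eventually_countable_forall.2 fun bb => eventually_countable_forall.2 fun b =>
    cs_lift cond_inj fun r => cs_lift nm_inj fun S => cs_lift cond_inj fun d =>
    cs_lift nm_inj fun S' => ?_
  refine (cs_mem _).and (cs_lift cond_inj fun e => ?_)
  by_cases h : ∃ r'' S'', PlR β (dn n : Stg) (dn (n + 1) : Stg) δ 𝒰 Z r C S' bb b e r'' S''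
  · obtain ⟨r'', S'', hS'⟩ := h
    filter_upwards [cs_mem (W := Obj I.C) (Obj.cond r''), cs_mem (W := Obj I.C) (Obj.nm S'')]
      with N hN hN' _
    exact ⟨r'', S'', hN, hN', hS'⟩
  · exact Filter.Eventually.of_forall fun N h' => absurd h' h

/-! ### lists -/

private theorem pls_drop (A : ℕ → Finset ℕ) (k M : ℕ) :
    ((List.range (k + M)).map A).drop M = (List.range k).map (fun i => A (i + M)) := by
  refine List.ext_getElem (by simp) fun n h1 h2 => ?_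
  simp [Nat.add_comm]

private theorem pls_mem_drop {A : ℕ → Finset ℕ} {k M : ℕ} {x : Finset ℕ}
    (hx : x ∈ ((List.range k).map A).drop M) : ∃ i, x = A (i + M) := by
  obtain ⟨n, hn, rfl⟩ := List.getElem_of_mem hx
  refine ⟨n, ?_⟩
  simp [Nat.add_comm]

private theorem pls_fu_drop {A : ℕ → Finset ℕ} {k M : ℕ} {b : Finset ℕ}
    (hb : b ∈ FUl (((List.range k).map A).drop M)) : b ∈ fu (fun i => A (i + M)) := by
  refine FUl_fu (A := fun i => A (i + M)) (fun x hx => ?_) hb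
  obtain ⟨i, rfl⟩ := pls_mem_drop hx
  exact self_mem_fu (fun i => A (i + M)) i

private theorem pls_lo {A : ℕ → Finset ℕ} (hA : BlkF A) {M : ℕ} {b : Finset ℕ}
    (hb : b ∈ fu (fun i => A (i + M))) : Lo M b := by
  intro j hj
  obtain ⟨n, hn, _⟩ := mem_fu_block hb hj
  have := hA.ge (n + M) j hn
  omega

/-! ### the extension at the stage `α` -/

/-- the decided property forced at the stage `α` -/
private def PlE {β : Stg} (AA : List (Finset ℕ) → Set I.C) (m₀ : ℕ) (aa bb : List (Finset ℕ))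
    (b : Finset ℕ) (S S' : Finset ℕ → Set I.C) (g : GG (I.PP β)) : Prop :=
  (∃ l, l ∈ ev (P := I.PP β) AA g ∧ (l.length = aa.length + bb.length + m₀ ∧
    l.drop m₀ = aa ++ bb)) ∧
  (∀ l, l ∈ ev (P := I.PP β) AA g → ∀ b', b' ∈ FUl (l.drop (aa.length + bb.length + m₀)) →
    b' ∈ ev (P := I.PP β) S' g) ∧
  b ∈ ev (P := I.PP β) S' g ∧ ∀ b', b' ∈ FUl bb → b' ∈ ev (P := I.PP β) S g

private theorem pls_decE {β : Stg} (AA : List (Finset ℕ) → Set I.C) (m₀ : ℕ)
    (aa bb : List (Finset ℕ)) (b : Finset ℕ) (S S' : Finset ℕ → Set I.C) :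
    Dec (P := I.PP β) (fun g => PlE AA m₀ aa bb b S S' g) :=
  (dec_ex fun l => (dec_ev (P := I.PP β) AA l).and (dec_const (l.length = aa.length + bb.length + m₀ ∧
    l.drop m₀ = aa ++ bb))).and
  ((dec_all fun l => (dec_ev (P := I.PP β) AA l).imp (dec_all fun b' =>
    (dec_const (b' ∈ FUl (l.drop (aa.length + bb.length + m₀)))).imp
      (dec_ev (P := I.PP β) S' b'))).and
  ((dec_ev (P := I.PP β) S' b).and (dec_all fun b' => (dec_const (b' ∈ FUl bb)).imp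
    (dec_ev (P := I.PP β) S b'))))

private theorem pls_E {β : Stg} {𝒜 : Set (Finset ℕ → Set I.C)}
    {AA : List (Finset ℕ) → Set I.C} {m₀ : ℕ} {aa : List (Finset ℕ)}
    {S S' : Finset ℕ → Set I.C} {q : I.C}
    (hq : Fo (P := I.PP β) q (fun g => ∃ A, PsiA 𝒰 𝒜 AA g A ∧
      aa = (List.range aa.length).map (fun i => A (i + m₀)) ∧
      ∀ b ∈ fu (fun i => A (i + (aa.length + m₀))), b ∈ ev (P := I.PP β) S g))
    (hS' : S' ∈ 𝒜) (hU : I.InU β 𝒰 q S') :
    ∃ c₀, I.le β c₀ q ∧ ∃ (bb' : List (Finset ℕ)) (b : Finset ℕ), BlL (bb' ++ [b]) ∧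
      (∀ x ∈ bb' ++ [b], ∀ i ∈ x, i ≤ mx b) ∧
      Fo (P := I.PP β) c₀ (fun g => PlE AA m₀ aa (bb' ++ [b]) b S S' g) := by
  have hU' : Fo (P := I.PP β) q (fun g => ev (P := I.PP β) S' g ∈ evF (P := I.PP β) 𝒰 g) := hU
  obtain ⟨g, hgq, ⟨⟨A, ⟨hAi, hAB, hAU, hAA, hAS⟩, haa, hS⟩, hUg⟩, htr⟩ :=
    fo_exists (P := I.PP β) (hq.and hU')
      (eventually_countable_forall.2 fun bb : List (Finset ℕ) =>
        eventually_countable_forall.2 fun b : Finset ℕ =>
          (pls_decE (β := β) AA m₀ aa bb b S S').truth)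
  obtain ⟨k0, hk0⟩ := hAS S' hS' hUg
  have hbb : (List.range k0).map (fun i => A (i + (aa.length + m₀))) ++ [A (k0 + (aa.length + m₀))]
      = (List.range (k0 + 1)).map (fun i => A (i + (aa.length + m₀))) := by
    rw [List.range_succ, List.map_append]
    rfl
  have hin : ∀ x ∈ (List.range (k0 + 1)).map (fun i => A (i + (aa.length + m₀))),
      ∃ i, i < k0 + 1 ∧ x = A (i + (aa.length + m₀)) := by
    intro x hx
    obtain ⟨i, hi, rfl⟩ := List.mem_map.1 hx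
    exact ⟨i, List.mem_range.1 hi, rfl⟩
  have hE : PlE AA m₀ aa ((List.range k0).map (fun i => A (i + (aa.length + m₀))) ++
      [A (k0 + (aa.length + m₀))]) (A (k0 + (aa.length + m₀))) S S' g := by
    rw [hbb]
    have hlen : ((List.range (k0 + 1)).map (fun i => A (i + (aa.length + m₀)))).length = k0 + 1 := by
      simp
    refine ⟨?_, ?_, ?_, ?_⟩
    · refine ⟨(List.range ((aa.length + (k0 + 1)) + m₀)).map A, (hAA _).2 ⟨_, rfl⟩, ?_, ?_⟩
      · simp
      · rw [pls_drop, List.range_add, List.map_append, ← haa, List.map_map]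
        congr 1
        refine List.map_congr_left fun i _ => ?_
        show A (aa.length + i + m₀) = A (i + (aa.length + m₀))
        congr 1
        omega
    · intro l hl b' hb'
      obtain ⟨k, rfl⟩ := (hAA l).1 hl
      have h1 := pls_fu_drop hb'
      have h2 := pls_lo hAB h1
      refine hk0 b' ((mem_fu_tail hAB _).1 h1).1 fun j hj => ?_
      have h3 := h2 j hj
      rw [hlen] at h3
      omega
    · refine hk0 _ (self_mem_fu A _) fun j hj => ?_
      have := hAB.ge _ j hj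
      omega
    · intro b' hb'
      refine hS b' (FUl_fu (A := fun i => A (i + (aa.length + m₀))) (fun x hx => ?_) hb')
      obtain ⟨i, _, rfl⟩ := hin x hx
      exact self_mem_fu (fun i => A (i + (aa.length + m₀))) i
  obtain ⟨n, hn⟩ := htr _ _ hE
  obtain ⟨c₀, _, _, h1, h2⟩ := mem_common (P := I.PP β) hgq (G_mem g n)
  refine ⟨c₀, h1, _, _, ?_, ?_, Fo.mono (P := I.PP β) hn h2⟩
  · rw [hbb]
    refine ⟨?_, ?_⟩
    · rw [List.pairwise_map]
      exact List.pairwise_lt_range.imp fun {i j} hij => hAB.bef (by omega)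
    · intro x hx
      obtain ⟨i, _, rfl⟩ := hin x hx
      exact hAB.ne _
  · rw [hbb]
    intro x hx j hj
    obtain ⟨i, hi, rfl⟩ := hin x hx
    rcases Nat.lt_succ_iff_lt_or_eq.1 hi with h3 | h3
    · exact (hAB.bef (show i + (aa.length + m₀) < k0 + (aa.length + m₀) by omega) j hj _
        (mx_mem (hAB.ne _))).le
    · subst h3
      exact le_mx hj

private theorem pls_F {β : Stg} {𝒜 : Set (Finset ℕ → Set I.C)}
    {AA : List (Finset ℕ) → Set I.C} {m₀ : ℕ} {aa bb' : List (Finset ℕ)} {b : Finset ℕ}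
    {S S' S'' : Finset ℕ → Set I.C} {c : I.C}
    (h1 : Fo (P := I.PP β) c (fun g => ∃ A, PsiA 𝒰 𝒜 AA g A))
    (h2 : Fo (P := I.PP β) c (fun g => PlE AA m₀ aa (bb' ++ [b]) b S S' g))
    (h3 : Fo (P := I.PP β) c (fun g => ∀ b' ∈ ev (P := I.PP β) S' g, Bef b b' →
      b' ∈ ev (P := I.PP β) S'' g)) :
    Fo (P := I.PP β) c (fun g => ∃ A, PsiA 𝒰 𝒜 AA g A ∧
      aa ++ (bb' ++ [b]) = (List.range (aa ++ (bb' ++ [b])).length).map (fun i => A (i + m₀)) ∧
      ∀ b' ∈ fu (fun i => A (i + ((aa ++ (bb' ++ [b])).length + m₀))),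
        b' ∈ ev (P := I.PP β) S'' g) := by
  refine Fo.imp (P := I.PP β) ((h1.and h2).and h3) (fo_of_eventually (P := I.PP β)
    (Filter.Eventually.of_forall fun g => ?_))
  rintro ⟨⟨⟨A, hA⟩, ⟨l, hl, hlen, hdrop⟩, hF, -, -⟩, h4⟩
  have hAB := hA.2.1
  have hAA := hA.2.2.2.1
  obtain ⟨k, rfl⟩ := (hAA l).1 hl
  have hL : (aa ++ (bb' ++ [b])).length = aa.length + (bb' ++ [b]).length := List.length_append
  have hk : k = (aa ++ (bb' ++ [b])).length + m₀ := by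
    rw [List.length_map, List.length_range] at hlen
    rw [hlen, hL]
  subst hk
  rw [pls_drop] at hdrop
  refine ⟨A, hA, hdrop.symm, fun b' hb' => ?_⟩
  have hBL := hAB.tail ((aa ++ (bb' ++ [b])).length + m₀)
  have hb'' := (mem_fu_tail hAB _).1 hb'
  refine h4 b' ?_ ?_
  · obtain ⟨j, hj⟩ := (mem_fu_iff_FUl hBL b').1 hb'
    rw [← pls_drop] at hj
    refine hF ((List.range (j + ((aa ++ (bb' ++ [b])).length + m₀))).map A)
      ((hAA _).2 ⟨_, rfl⟩) b' ?_
    rw [← hL]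
    exact hj
  · have hlast : b = A ((aa ++ bb').length + m₀) := by
      have e1 : aa ++ (bb' ++ [b]) = (aa ++ bb') ++ [b] := (List.append_assoc _ _ _).symm
      have e2 : (aa ++ (bb' ++ [b])).length = (aa ++ bb').length + 1 := by
        rw [e1, List.length_append]
        rfl
      rw [e2, List.range_succ, List.map_append, e1] at hdrop
      have e3 := List.append_inj_right' hdrop (by simp)
      have e4 : A ((aa ++ bb').length + m₀) = b := by
        simpa using e3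
      exact e4.symm
    rw [hlast]
    refine hb''.2 _ ?_
    rw [List.length_append, List.length_append, List.length_append, List.length_singleton]
    omega

/-- THE STEP (piece PLIMSTEP). `N` is one of club many hulls; `x` a state with `x.r`, `x.S` in `N`; `q` is `NGen` at the stage `dn n`, ok for `x`; `𝒜` is the set of the names in `N`.
PROOF. Fix `n` and `x`. By `step35` (`c = x.r`; `ν = dn n`, `ν' = dn (n+1)`) the set `D` of the `d` such that `d ≤ x.r` at stage `dn n` and there is `S'` as in `step35` for `d`, or `d` is incompatible with `x.r` (stage `dn n`), is dense at the stage `dn n`; it depends only on `n`, `x`, so it is in `N` for club many `N` (for all states of `N`: `cs_normal`), and `S' = S'(d)` is in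
`N` for `d ∈ D ∩ N` (choice operation). So there are `d ∈ D ∩ N` and `q₁ ≤ q, d` at stage `dn n`, and `S' ∈ N`. `q₁` forces (stage `α`) that `S'` is in the ultrafilter, so by `PsiA` it forces that some tail of `fu A` is included in `S'`; extend `q₁` (at the stage `α`, then glue) to decide: a number `k > x.aa.length` and a list `bb` such that `bb` is the segment of `A` from
`x.aa.length + m₀` to `k + m₀` (included; so `bb ≠ []`), the last element `b` of `bb` is in `S'` and all elements of `fu (A (· + k + m₀ + 1))` are in `S'`. The elements of `bb` are subsets of `[0, mx b]`, and `FUl bb ⊆ x.S` is forced. By the property of `S'`, for this pair `b`, `bb`: the set `D'` of the `e` for which there are `r''`, `S''` with `e ≤ r''` (stage `dn n`), `Next35 ... bb r'' S''`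
and `e` forces (stage `dn n`) that all `b' ∈ S'` with `b < b'` are in `S''`, or which force the negation of `b ∈ S' ∧ FUl bb ⊆ x.S` or are incompatible with `d` (stage `dn n`) is dense; it is in `N`, with choice operations for `r''`, `S''`. So there are `e ∈ D' ∩ N` and `q₂ ≤ q₁, e` (stage `dn n`); the negative cases are impossible; `r''`, `S'' ∈ N`. Let
`x' = (r'', x.aa ++ bb, S'')`. `PS (n+1) x'` : `extL ∅ (x.aa ++ bb) = extL (extL ∅ x.aa) bb`. If `c ≤ q₂` at stage `dn n` and `c ≤ r''` at stage `dn (n+1)` then `POk (n+1) x' c` : the elements `b'` of `fu (A (· + (x'.aa.length + m₀)))` are in `S'` and `b < b'`, so they are in `S''`. (The statements about the names `S', S''` at the stages `α` and `dn n` are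
transferred by `stage_of_inU`, `isRes_ev`, `res_club`, `fo_res_up`, `fo_res_down`.) -/
theorem plim_step (hmono : StrictMono dn) (hdn : ∀ n, (dn n : Stg) < δ) (hα : ∀ n, α ≤ dn n)
    (h : I.SouAt (α : Stg) 𝒰 p₀) (hn : ∀ n, I.SouAt (dn n : Stg) (I.cutF (α : Stg) 𝒰) p₀)
    (Z : Finset ℕ → Set I.C) :
    ∀ᶠ N in ClubS (Obj I.C), ∀ (AA : List (Finset ℕ) → Set I.C) (m₀ n : ℕ) (x : PSt I) (q : I.C),
      Obj.cond x.r ∈ N → Obj.nm x.S ∈ N → PS α δ 𝒰 Z p₀ dn n x → I.NGen N (dn n : Stg) q →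
      POk α 𝒰 {S | Obj.nm S ∈ N} AA m₀ dn n x q →
      ∃ (q' : I.C) (x' : PSt I), Obj.cond x'.r ∈ N ∧ Obj.nm x'.S ∈ N ∧
        I.le (dn n : Stg) q' q ∧ PS α δ 𝒰 Z p₀ dn (n + 1) x' ∧ I.le δ x'.r x.r ∧
        I.le (dn n : Stg) q' x'.r ∧ ∀ c, I.le (dn n : Stg) c q' →
          I.le (dn (n + 1) : Stg) c x'.r → POk α 𝒰 {S | Obj.nm S ∈ N} AA m₀ dn (n + 1) x' c := by
  filter_upwards [pls_clubA (α : Stg) δ 𝒰 Z dn, pls_clubB (α : Stg) δ 𝒰 Z dn] with N hNA hNB
  intro AA m₀ n x q hxr hxS hPS hNG hPOk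
  have hαν : (α : Stg) ≤ (dn n : Stg) := WithTop.coe_le_coe.2 (hα n)
  have hνν' : (dn n : Stg) ≤ (dn (n + 1) : Stg) :=
    WithTop.coe_le_coe.2 (hmono.monotone (Nat.le_succ n))
  have hνδ : (dn (n + 1) : Stg) ≤ δ := (hdn (n + 1)).le
  obtain ⟨hlen, hrp, hHH, hInU, hGood⟩ := hPS
  obtain ⟨hqx, hqA⟩ := hPOk
  -- the condition `d` and the name `S'`
  obtain ⟨hDA, hpick⟩ := hNA n (extL ∅ x.aa) x.r hxr x.S hxS
  obtain ⟨d, hd, hdN, q₁, hq₁q, hq₁d⟩ := hNG _ hDA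
    (fun p => pls_denseA hαν hνν' hνδ h (hn n) (hn (n + 1)) hrp hGood p) q (I.le_refl' _ q)
  have hd' : ∃ S', PlQ (α : Stg) (dn n : Stg) (dn (n + 1) : Stg) δ 𝒰 Z x.r (extL ∅ x.aa) x.S d S' := by
    rcases hd with hd | hd
    · exact hd
    · exact absurd (I.le_trans' _ hq₁q hqx) (hd q₁ hq₁d)
  obtain ⟨S', hS'N, hQ⟩ := hpick d hdN hd'
  -- the extension at the stage `α`
  have hq₁A := Fo.mono (P := I.PP (α : Stg)) hqA (I.le_stage hαν hq₁q : I.le (α : Stg) q₁ q)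
  have hq₁U : I.InU (α : Stg) 𝒰 q₁ S' := inU_mono hQ.2.1 (I.le_stage hαν hq₁d)
  obtain ⟨c₀, hc₀, bb', b, hbb, hmx, hE⟩ := pls_E (𝒜 := {S | Obj.nm S ∈ N}) hq₁A hS'N hq₁U
  have hq' : I.le (dn n : Stg) (I.glue (α : Stg) c₀ q₁) q₁ := glue_le hc₀
  have hq'c : I.le (α : Stg) (I.glue (α : Stg) c₀ q₁) c₀ := glue_le_left
  have hE' := Fo.mono (P := I.PP (α : Stg)) hE hq'c
  -- the condition `e` and `r''`, `S''`
  obtain ⟨hDB, hpick'⟩ := hNB n (extL ∅ x.aa) (bb' ++ [b]) b x.r hxr x.S hxS d hdN S' hS'N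
  obtain ⟨e, he, heN, q₂, hq₂q, hq₂e⟩ := hNG _ hDB (fun p => pls_denseB hQ hbb hmx p)
    (I.glue (α : Stg) c₀ q₁) (I.le_trans' _ hq' hq₁q)
  have hq₂₁ : I.le (dn n : Stg) q₂ q₁ := I.le_trans' _ hq₂q hq'
  have hE₂ := Fo.mono (P := I.PP (α : Stg)) hE'
    (I.le_stage hαν hq₂q : I.le (α : Stg) q₂ (I.glue (α : Stg) c₀ q₁))
  have he' : ∃ r'' S'', PlR (α : Stg) (dn n : Stg) (dn (n + 1) : Stg) δ 𝒰 Z x.r (extL ∅ x.aa) S'
      (bb' ++ [b]) b e r'' S'' := by
    rcases he with he | he | he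
    · exact he
    · exfalso
      have h1 := fo_res_up (δ := (dn n : Stg)) hαν (p := q₂)
        (T := fun g => PlE AA m₀ x.aa (bb' ++ [b]) b x.S S' g) hE₂
      have h2 := Fo.mono (P := I.PP (dn n : Stg)) he hq₂e
      refine fo_false (P := I.PP (dn n : Stg)) (p := q₂) ?_
      filter_upwards [h1, h2, res_club hαν (T := fun _ => True)
        (Filter.Eventually.of_forall fun _ => trivial)] with g g1 g2 g3 hg
      refine g2 hg ⟨?_, ?_⟩
      · rw [isRes_ev hαν g3.1]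
        exact (g1 hg).2.2.1
      · rw [isRes_ev hαν g3.1]
        exact (g1 hg).2.2.2
    · exact absurd (I.le_trans' _ hq₂₁ hq₁d) (he q₂ hq₂e)
  obtain ⟨r'', S'', hr''N, hS''N, hR1, ⟨hR2, hR3, hR4, hR5⟩, hR6⟩ := hpick' e heN he'
  refine ⟨q₂, ⟨r'', x.aa ++ (bb' ++ [b]), S''⟩, hr''N, hS''N, I.le_trans' _ hq₂₁ hq₁q, ?_, hR2,
    I.le_trans' _ hq₂e hR1, ?_⟩
  · refine ⟨?_, I.le_trans' δ hR2 hrp, ?_, hR4, ?_⟩
    · show n + 1 ≤ (x.aa ++ (bb' ++ [b])).length
      rw [List.length_append, List.length_append, List.length_singleton]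
      omega
    · show HHO (α : Stg) δ 𝒰 Z r'' (extL ∅ (x.aa ++ (bb' ++ [b])))
      rw [extL_append]
      exact hR3
    · show GoodN (α : Stg) δ 𝒰 Z (dn (n + 1) : Stg) r'' r'' (extL ∅ (x.aa ++ (bb' ++ [b]))) S''
      rw [extL_append]
      exact hR5
  · intro c hcq hcr
    refine ⟨hcr, ?_⟩
    have hcα : I.le (α : Stg) c q₂ := I.le_stage hαν hcq
    refine pls_F (S := x.S) (S' := S') ?_ (Fo.mono (P := I.PP (α : Stg)) hE₂ hcα) ?_
    · have h1 := Fo.mono (P := I.PP (α : Stg)) hq₁A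
        (I.le_trans' _ hcα (I.le_stage hαν hq₂₁) : I.le (α : Stg) c q₁)
      refine Fo.imp (P := I.PP (α : Stg)) h1 (fo_of_eventually (P := I.PP (α : Stg))
        (Filter.Eventually.of_forall fun g => ?_))
      rintro ⟨A, hA, _⟩
      exact ⟨A, hA⟩
    · have hdec : Dec (P := I.PP (α : Stg)) (fun g => ∀ b' ∈ ev (P := I.PP (α : Stg)) S' g,
          Bef b b' → b' ∈ ev (P := I.PP (α : Stg)) S'' g) :=
        dec_all fun b' => (dec_ev (P := I.PP (α : Stg)) S' b').imp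
          ((dec_const (Bef b b')).imp (dec_ev (P := I.PP (α : Stg)) S'' b'))
      refine fo_res_down hαν hdec ?_
      have h1 := Fo.mono (P := I.PP (dn n : Stg)) hR6
        (I.le_trans' _ hcq hq₂e : I.le (dn n : Stg) c e)
      filter_upwards [h1, res_club hαν (T := fun _ => True)
        (Filter.Eventually.of_forall fun _ => trivial)] with g g1 g3 hg
      have h2 := g1 hg
      rw [isRes_ev hαν g3.1, isRes_ev hαν g3.1] at h2
      exact h2

end Pool.Agent.CSI
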