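import Pool.Agent.Lib_CSI.Ext

/-!
# Piece RES: restriction of generics to smaller stages

If `g` is a (sufficiently) good generic for the stage `δ` and `α ≤ δ` then the same hull and the same sequence of conditions give a good generic for the stage `α`. (The types of names and of conditions do not depend on the stage.)
-/

set_option autoImplicit false

namespace Pool.Agent.CSI

open Pool.Agent.GGen Pool.Agent.HMod

variable (I : It) {α δ : Stg}

open Classical in
/-- a restriction of `g` to the stage `α` -/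
noncomputable def It.res (α : Stg) {δ : Stg} (g : GG (I.PP δ)) : GG (I.PP α) :=
  if h : ∃ g' : GG (I.PP α), I.IsRes g g' then h.choose else (GC_exists (P := I.PP α)
    (T := fun _ => True) (Filter.Eventually.of_forall fun _ => trivial) I.one).choose

variable {I}

/-! ### auxiliary lemmas -/

section aux

universe u

open Forcing Pool.Agent.Inner Forcing.Name

variable {Q : Type u} [Preorder Q] [OrderTop Q]

/-- the decision set of a formula -/
def decSet (φ : Fml) (l : List (Name Q)) : Set Q :=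
  {q | Force φ (Forcing.ev omegaName l) q ∨ ∀ r ≤ q, ¬ Force φ (Forcing.ev omegaName l) r}

/-- the split sets -/
def splSet (l : List (Name Q)) : Set Q :=
  {q | (∃ j, q ≤ (l.getD 1 omegaName).cd j ∧
    feq (l.getD 0 omegaName) ((l.getD 1 omegaName).nm j) q) ∨
    ∀ r ≤ q, ¬ fmem (l.getD 0 omegaName) (l.getD 1 omegaName) r}

theorem decSet_dense (φ : Fml) (l : List (Name Q)) (p : Q) : ∃ q ≤ p, q ∈ decSet φ l := by
  by_cases h : ∃ q ≤ p, Force φ (Forcing.ev omegaName l) q
  · obtain ⟨q, hq, hf⟩ := h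
    exact ⟨q, hq, Or.inl hf⟩
  · push Not at h
    exact ⟨p, le_rfl, Or.inr h⟩

theorem decSet_open (φ : Fml) (l : List (Name Q)) : ∀ p ∈ decSet φ l, ∀ q ≤ p, q ∈ decSet φ l := by
  rintro p (hp | hp) q hq
  · exact Or.inl (force_mono hp hq)
  · exact Or.inr fun r hr => hp r (hr.trans hq)

theorem splSet_dense (l : List (Name Q)) (p : Q) : ∃ q ≤ p, q ∈ splSet l := by
  by_cases h : ∃ r ≤ p, fmem (l.getD 0 omegaName) (l.getD 1 omegaName) r
  · obtain ⟨r, hr, hm⟩ := h
    obtain ⟨s, hs, j, h1, h2⟩ := hm r le_rfl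
    exact ⟨s, hs.trans hr, Or.inl ⟨j, h1, h2⟩⟩
  · push Not at h
    exact ⟨p, le_rfl, Or.inr h⟩

theorem splSet_open (l : List (Name Q)) : ∀ p ∈ splSet l, ∀ q ≤ p, q ∈ splSet l := by
  rintro p (⟨j, h1, h2⟩ | hp) q hq
  · exact Or.inl ⟨j, hq.trans h1, feq_mono h2 hq⟩
  · exact Or.inr fun r hr => hp r (hr.trans hq)

/-- construction of good generics -/
theorem mkGG (N : Set (Name Q)) (G : ℕ → Q) (hN : N.Countable) (hG : Antitone G)
    (hw : ∀ φ i l, (∀ x ∈ l, x ∈ N) →
      (exists_witness i φ (Forcing.ev (omegaName : Name Q) l)).choose ∈ N)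
    (hdec : ∀ φ l, (∀ x ∈ l, x ∈ N) → ∃ n, G n ∈ decSet φ l)
    (hnum : ∀ n, (num n : Name Q) ∈ N) (hom : (omegaName : Name Q) ∈ N)
    (hpair : ∀ l : List (Name Q), (∀ x ∈ l, x ∈ N) →
      pairName (l.getD 0 omegaName) (l.getD 1 omegaName) ∈ N)
    (hspl : ∀ l : List (Name Q), (∀ x ∈ l, x ∈ N) → ∃ n, G n ∈ splSet l)
    (hpg : (pgName : Name Q) ∈ N) (hc : ∀ n, (chk (G n) : Name Q) ∈ N) :
    ∃ g : GG Q, g.gen.N = N ∧ g.gen.G = G := by
  have hev : ∀ (v : ℕ → Name Q) (b : ℕ) (k : ℕ), k < b →
      Forcing.ev omegaName ((List.range b).map v) k = v k := by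
    intro v b k hk
    simp [Forcing.ev, List.getD, hk]
  have hmemN : ∀ (v : ℕ → Name Q) (b : ℕ), (∀ k, v k ∈ N) → ∀ x ∈ (List.range b).map v, x ∈ N := by
    intro v b hv x hx
    obtain ⟨k, _, rfl⟩ := List.mem_map.1 hx
    exact hv k
  let gen : Gen Q := ⟨N, G, hN, hG, omegaName, hom, by
    intro φ i v hv
    let b := max (i + 1) φ.bd
    let l := (List.range b).map v
    refine ⟨_, hw φ i l (hmemN v b hv), ?_⟩
    intro p hp
    have hagree : ∀ k < (Fml.ex i φ).bd, v k = Forcing.ev omegaName l k := by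
      intro k hk
      rw [hev v b k]
      simpa [Fml.ex, Fml.bd, b] using hk
    have h1 := (exists_witness i φ (Forcing.ev (omegaName : Name Q) l)).choose_spec p
      ((force_agree hagree).1 hp)
    refine (force_agree ?_).1 h1
    intro k hk
    by_cases hki : k = i
    · subst hki; simp
    · rw [Function.update_of_ne hki, Function.update_of_ne hki, hev v b k]
      exact lt_of_lt_of_le hk (le_max_right _ _), by
    intro φ v hv
    let b := φ.bd
    let l := (List.range b).map v
    obtain ⟨n, hn⟩ := hdec φ l (hmemN v b hv)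
    have hagree : ∀ k < φ.bd, Forcing.ev omegaName l k = v k := fun k hk => hev v b k hk
    refine ⟨n, ?_⟩
    rcases hn with h1 | h1
    · left; exact (force_agree hagree).1 h1
    · right
      intro q hq hf
      exact h1 q hq ((force_agree hagree).2 hf)⟩
  have hrich : Rich gen := by
    refine ⟨hnum, hom, ?_, ?_⟩
    · intro x hx y hy
      exact hpair [x, y] (by
        intro z hz
        rcases List.mem_cons.1 hz with rfl | hz
        · exact hx
        · rcases List.mem_cons.1 hz with rfl | hz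
          · exact hy
          · cases hz)
    · rintro x hx y hy ⟨n, hn⟩
      obtain ⟨m, hm⟩ := hspl [x, y] (by
        intro z hz
        rcases List.mem_cons.1 hz with rfl | hz
        · exact hx
        · rcases List.mem_cons.1 hz with rfl | hz
          · exact hy
          · cases hz)
      have hm' : (∃ j, (G m) ≤ y.cd j ∧ feq x (y.nm j) (G m)) ∨
          ∀ r ≤ G m, ¬ fmem x y r := hm
      rcases hm' with ⟨j, h3, h4⟩ | h3
      · exact ⟨m, j, h3, h4⟩
      · exact absurd (fmem_mono hn (gen.anti (le_max_right m n))) (h3 _ (gen.anti (le_max_left m n)))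
  exact ⟨⟨gen, hrich, hpg, hc⟩, rfl, rfl⟩

end aux

/-- meeting the dense open sets of the smaller stage -/
theorem res_meet (h : α ≤ δ) (E : List (Forcing.Name (I.PP α)) → Set (I.PP α))
    (hE : ∀ l p, ∃ q ≤ p, q ∈ E l) (hEo : ∀ l, ∀ p ∈ E l, ∀ q ≤ p, q ∈ E l) :
    ∀ᶠ g in GC (I.PP δ), ∀ l : List (Forcing.Name (I.PP α)),
      (∀ x ∈ l, x ∈ (g.gen.N : Set (Forcing.Name I.C))) →
        ∃ n, (g.gen.G n : I.C) ∈ (E l : Set I.C) := by
  refine ⟨fun _ _ => Forcing.omegaName, fun _ l => E l, ?_, ?_, ?_⟩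
  · intro _ l p
    obtain ⟨d, hd, hdE⟩ := hE l p
    refine ⟨I.glue α d p, ?_, ?_⟩
    · exact glue_le (c := d) (p := p) (ε := α) (δ := δ) hd
    · exact hEo l d hdE _ (glue_le_left (c := d) (p := p) (ε := α))
  · intro _ l p hp q hq
    exact hEo l p hp q (I.le_stage h hq)
  · intro g _ h4 l hl
    exact h4 0 l hl

/-- PROOF. Let `T` be given by `ops`, `D` (`GCset`; the sets `D k l` are open) for the stage `α`. For the stage `δ` take: `ops`; the witness operations for the formulas at stage `α` (`exists_witness`), `pgName`, `num n`, `omegaName`, `pairName`; the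
dense open sets of the decisions of the formulas at stage `α`, the split sets of `Rich` at stage `α`, and the sets `D k l`. A set that is dense and open at stage `α` is dense and open at stage `δ`: for `p` take `d ≤_α p` in the set; then
`glue α d p ≤_δ p` is `≤_α d`. So for club many `g` at stage `δ` the same hull and sequence satisfy all the fields of `GG (I.PP α)` (`chk`, `num`, ... are the same names: the largest element is the same), and `T`. -/
theorem res_club (h : α ≤ δ) {T : GG (I.PP α) → Prop} (hT : ∀ᶠ g in GC (I.PP α), T g) :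
    ∀ᶠ g in GC (I.PP δ), I.IsRes g (I.res α g) ∧ T (I.res α g) := by
  classical
  obtain ⟨ops, D, hD, hDo, hTT⟩ := hT
  have h1 : ∀ᶠ g in GC (I.PP δ), ∀ (k : ℕ) (l : List (Forcing.Name (I.PP α))),
      (∀ x ∈ l, x ∈ (g.gen.N : Set (Forcing.Name I.C))) →
        (ops k l : Forcing.Name I.C) ∈ (g.gen.N : Set (Forcing.Name I.C)) :=
    eventually_countable_forall.2 fun k => GC_nameop (P := I.PP δ) (fun l => ops k l)
  have h2 : ∀ᶠ g in GC (I.PP δ), ∀ (k : ℕ) (l : List (Forcing.Name (I.PP α))),
      (∀ x ∈ l, x ∈ (g.gen.N : Set (Forcing.Name I.C))) →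
        ∃ n, (g.gen.G n : I.C) ∈ (D k l : Set I.C) :=
    eventually_countable_forall.2 fun k => res_meet h (D k) (hD k) (hDo k)
  have h3 : ∀ᶠ g in GC (I.PP δ), ∀ (φ : Forcing.Fml) (i : ℕ) (l : List (Forcing.Name (I.PP α))),
      (∀ x ∈ l, x ∈ (g.gen.N : Set (Forcing.Name I.C))) →
        ((Forcing.exists_witness i φ (Forcing.ev (Forcing.omegaName : Forcing.Name (I.PP α))
          l)).choose : Forcing.Name I.C) ∈ (g.gen.N : Set (Forcing.Name I.C)) :=
    eventually_countable_forall.2 fun φ => eventually_countable_forall.2 fun i =>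
      GC_nameop (P := I.PP δ) (fun l => (Forcing.exists_witness i φ
        (Forcing.ev (Forcing.omegaName : Forcing.Name (I.PP α)) l)).choose)
  have h4 : ∀ᶠ g in GC (I.PP δ), ∀ (φ : Forcing.Fml) (l : List (Forcing.Name (I.PP α))),
      (∀ x ∈ l, x ∈ (g.gen.N : Set (Forcing.Name I.C))) →
        ∃ n, (g.gen.G n : I.C) ∈ (decSet (Q := I.PP α) φ l : Set I.C) :=
    eventually_countable_forall.2 fun φ => res_meet h (decSet φ) (decSet_dense φ) (decSet_open φ)
  have h5 : ∀ᶠ g in GC (I.PP δ), ∀ n : ℕ,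
      ((Forcing.num n : Forcing.Name (I.PP α)) : Forcing.Name I.C) ∈
        (g.gen.N : Set (Forcing.Name I.C)) :=
    eventually_countable_forall.2 fun n =>
      GC_name (P := I.PP δ) (Forcing.num n : Forcing.Name (I.PP α))
  have h6 := GC_name (P := I.PP δ) (Forcing.omegaName : Forcing.Name (I.PP α))
  have h7 := GC_nameop (P := I.PP δ) (fun l : List (Forcing.Name (I.PP α)) =>
    Forcing.pairName (l.getD 0 Forcing.omegaName) (l.getD 1 Forcing.omegaName))
  have h8 := res_meet h (splSet (Q := I.PP α)) splSet_dense splSet_open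
  have h9 := GC_name (P := I.PP δ) (pgName : Forcing.Name (I.PP α))
  have h10 := GC_opH (P := I.PP δ) (fun y : I.PP α => (chk y : Forcing.Name (I.PP α)))
  filter_upwards [h1, h2, h3, h4, h5, h6, h7, h8, h9, h10] with g g1 g2 g3 g4 g5 g6 g7 g8 g9 g10
  have hex : ∃ g' : GG (I.PP α), I.IsRes g g' := by
    obtain ⟨g', e1, e2⟩ := mkGG (Q := I.PP α) g.gen.N g.gen.G g.gen.countable
      (fun m n hmn => I.le_stage h (g.gen.anti hmn)) g3 g4 g5 g6 g7 g8 g9
      (fun n => g10 _ (g.cond n))
    exact ⟨g', e1, e2⟩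
  have hres : I.IsRes g (I.res α g) := by
    unfold It.res
    rw [dif_pos hex]
    exact hex.choose_spec
  refine ⟨hres, hTT _ ?_ ?_⟩
  · intro k l hl
    have e : ((I.res α g).gen.N : Set (Forcing.Name I.C)) = g.gen.N := hres.1
    have hl' : ∀ x ∈ l, x ∈ (g.gen.N : Set (Forcing.Name I.C)) := by
      intro x hx
      rw [← e]
      exact hl x hx
    have := g1 k l hl'
    rw [← e] at this
    exact this
  · intro k l hl
    have e : ((I.res α g).gen.N : Set (Forcing.Name I.C)) = g.gen.N := hres.1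
    have e' : ((I.res α g).gen.G : ℕ → I.C) = g.gen.G := hres.2
    have hl' : ∀ x ∈ l, x ∈ (g.gen.N : Set (Forcing.Name I.C)) := by
      intro x hx
      rw [← e]
      exact hl x hx
    obtain ⟨n, hn⟩ := g2 k l hl'
    refine ⟨n, ?_⟩
    have e2 : ((I.res α g).gen.G n : I.C) = g.gen.G n := congrFun e' n
    rw [← e2] at hn
    exact hn

end Pool.Agent.CSI
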