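import Pool.Agent.Lib_CSI.Fail

/-!
# Piece SET33: the set of possible next elements is in the generated ultrafilter
-/

set_option autoImplicit false

namespace Pool.Agent.CSI

open Pool.Agent.GGen Pool.Agent.HMod Pool.Agent.SOU Pool.Agent.SOUi

variable {I : It} {α ν δ : Stg} {𝒰 : FN (Finset ℕ) I.C} {Z : Finset ℕ → Set I.C} {p₀ : I.C}

/-- the set of the `b` such that some `r' ≤_δ r` in the generic filter of stage `ν` is homogeneous for `extC C b` -/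
def BSet (α δ : Stg) (𝒰 : FN (Finset ℕ) I.C) (Z : Finset ℕ → Set I.C) (r : I.C)
    (C : Finset (Finset ℕ)) {ν : Stg} (g : GG (I.PP ν)) : Set (Finset ℕ) :=
  {b | ∃ r' : I.C, g.has r' ∧ (r' : I.PP ν) ∈ g ∧ I.le δ r' r ∧ HHO α δ 𝒰 Z r' (extC C b)}

theorem dec_bset (r : I.C) (C : Finset (Finset ℕ)) (b : Finset ℕ) :
    Dec (P := I.PP ν) (fun g => b ∈ BSet α δ 𝒰 Z r C g) := by
  exact dec_exH (P := I.PP ν) (fun r' : I.C => (dec_mem (P := I.PP ν) r').and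
    (dec_const (I.le δ r' r ∧ HHO α δ 𝒰 Z r' (extC C b))))

/-- PROOF. By `fo_dense` and because the property is decided it is enough to show that no `c ≤_ν r` forces the negation. Suppose that `c ≤_ν r` does. `BSet` is internal (`int_of_dec`) and `evF (cutF α 𝒰) g` is an ultrafilter for internal sets (`SouAt ν`), so the complement of `BSet` is in it; by `exists_inU`, extending `c`
(at the stage `ν`) we may assume that there is `S` with `InU α 𝒰 c S` and `c` forces that `ev (cutN α S) g` is disjoint from `BSet`. Let `q = glue ν c r ≤_δ r`. By `HHO.next` for `q`, `S` there are `b`, `r' ≤_δ q`, `c' ∈ S b` with `r' ≤_α c'`, `HHO r' (extC C b)`. Let `g ∋ r'` be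
sufficiently good (stage `ν`): `c ∈ g`, `b ∈ ev (cutN α S) g`, `b ∈ BSet`. Contradiction. -/
theorem bset_mem (hαν : α ≤ ν) (hνδ : ν ≤ δ) (h : I.SouAt α 𝒰 p₀)
    (hν : I.SouAt ν (I.cutF α 𝒰) p₀) {r : I.C} {C : Finset (Finset ℕ)} (hr : I.le δ r p₀)
    (hH : HHO α δ 𝒰 Z r C) :
    Fo (P := I.PP ν) r (fun g => BSet α δ 𝒰 Z r C g ∈ evF (P := I.PP ν) (I.cutF α 𝒰) g) := by
  refine fo_dense (P := I.PP ν) (p := r) fun q hq => ?_
  have hrp : I.le ν r p₀ := I.le_stage hνδ hr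
  have hqr : I.le ν q r := hq
  have hqp : I.le ν q p₀ := I.le_trans' ν hqr hrp
  have hSq : Fo (P := I.PP ν) q (fun g => Dir (P := I.PP ν) (I.cutF α 𝒰) g ∧
      IsSOUi g.M (evF (P := I.PP ν) (I.cutF α 𝒰) g)) := Fo.mono (P := I.PP ν) hν hqp
  have hdir : Fo (P := I.PP ν) q (fun g => Dir (P := I.PP ν) (I.cutF α 𝒰) g) :=
    hSq.imp (fo_of_eventually (Filter.Eventually.of_forall fun g hg => hg.1))
  obtain ⟨c, hcq, hc | hc⟩ := fo_dir_dec (P := I.PP ν) (I.cutF α 𝒰)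
    (T := fun b g => b ∈ BSet α δ 𝒰 Z r C g) (fun b => dec_bset r C b) hdir
  · exact ⟨c, hcq, hc⟩
  · exfalso
    have hcq' : I.le ν c q := hcq
    have hcr : I.le ν c r := I.le_trans' ν hcq' hqr
    have hcp : I.le ν c p₀ := I.le_trans' ν hcr hrp
    -- the complement is in the filter
    have hcompl : Fo (P := I.PP ν) c (fun g => {b | b ∈ BSet α δ 𝒰 Z r C g}ᶜ ∈
        evF (P := I.PP ν) (I.cutF α 𝒰) g) := by
      have h1 : Fo (P := I.PP ν) c (fun g => Dir (P := I.PP ν) (I.cutF α 𝒰) g ∧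
        IsSOUi g.M (evF (P := I.PP ν) (I.cutF α 𝒰) g)) := Fo.mono (P := I.PP ν) hSq hcq'
      filter_upwards [hc, h1, int_of_dec (P := I.PP ν)
        (T := fun b g => b ∈ BSet α δ 𝒰 Z r C g) (fun b => dec_bset r C b)] with g g1 g2 g3 hg
      rcases (g2 hg).2.ultra {b | b ∈ BSet α δ 𝒰 Z r C g} g3 with h2 | h2
      · exact absurd h2 (g1 hg)
      · exact h2
    have hdecT : ∀ S : Finset ℕ → Set I.C, Dec (P := I.PP ν) (fun g => ∀ b : Finset ℕ,
        b ∈ ev (P := I.PP ν) (I.cutN α S) g → ¬ b ∈ BSet α δ 𝒰 Z r C g) := fun S =>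
      dec_all fun b => (dec_ev (P := I.PP ν) (I.cutN α S) b).imp (dec_bset r C b).not
    obtain ⟨g, ⟨e1, e2, e3⟩, hcg⟩ := GC_exists' (P := I.PP ν)
      (Filter.Eventually.and hcompl (Filter.Eventually.and (exists_inU hαν h)
        (Dec.truthH (P := I.PP ν) hdecT))) c
    have hp₀g : (p₀ : I.PP ν) ∈ g := mem_up (P := I.PP ν) hcg hcp
    obtain ⟨S, hS1, ⟨c₁, _, hc₁g, hc₁S⟩, hS2⟩ := e2 hp₀g _ (e1 hcg)
    obtain ⟨n, hn⟩ := e3 S hS1 fun b hb => hS2 hb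
    obtain ⟨a, hag, _, hac, hac₁⟩ := mem_common (P := I.PP ν) hcg hc₁g
    obtain ⟨c₂, _, _, hc₂a, hc₂n⟩ := mem_common (P := I.PP ν) hag (G_mem g n)
    have hc₂c : I.le ν c₂ c := I.le_trans' ν hc₂a hac
    have hc₂c₁ : I.le ν c₂ c₁ := I.le_trans' ν hc₂a hac₁
    have hT : Fo (P := I.PP ν) c₂ (fun g => ∀ b : Finset ℕ,
        b ∈ ev (P := I.PP ν) (I.cutN α S) g → ¬ b ∈ BSet α δ 𝒰 Z r C g) :=
      Fo.mono (P := I.PP ν) hn hc₂n
    have hc₂r : I.le ν c₂ r := I.le_trans' ν hc₂c hcr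
    have hglr : I.le δ (I.glue ν c₂ r) r := glue_le hc₂r
    have hglc : I.le ν (I.glue ν c₂ r) c₂ := glue_le_left
    have hIn : I.InU α 𝒰 (I.glue ν c₂ r) S :=
      inU_mono hc₁S (I.le_stage hαν (I.le_trans' ν hglc hc₂c₁))
    obtain ⟨b, r', hr'q, ⟨c', hc'S, hr'c'⟩, hHr'⟩ := hH.next hglr hIn
    obtain ⟨g', ⟨f1, f2⟩, hr'g⟩ := GC_exists' (P := I.PP ν)
      (Filter.Eventually.and hT (GC_has (P := I.PP ν) r')) r'
    have hr'ν : I.le ν r' (I.glue ν c₂ r) := I.le_stage hνδ hr'q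
    have hc₂g : (c₂ : I.PP ν) ∈ g' := mem_up (P := I.PP ν) hr'g (I.le_trans' ν hr'ν hglc)
    refine f1 hc₂g b ⟨I.cut α c', ⟨c', hc'S, rfl⟩, ?_⟩ ⟨r', f2, hr'g, I.le_trans' δ hr'q hglr, hHr'⟩
    exact mem_up (P := I.PP ν) hr'g ((le_cut_iff hαν).2 hr'c')

end Pool.Agent.CSI
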