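import Pool.Agent.Lib_CSI.Good

/-!
# Piece STEP35: the step from the stage `ν` to the stage `ν'`
-/

set_option autoImplicit false

namespace Pool.Agent.CSI

open Pool.Agent.GGen Pool.Agent.HMod Pool.Agent.SOU Pool.Agent.SOUi

variable {I : It} {α ν ν' δ : Stg} {𝒰 : FN (Finset ℕ) I.C} {Z : Finset ℕ → Set I.C} {p₀ : I.C}

/-- the property of `(b, bb, r'', S'')` used in the step -/
def Next35 (α ν' δ : Stg) (𝒰 : FN (Finset ℕ) I.C) (Z : Finset ℕ → Set I.C) (r : I.C)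
    (C : Finset (Finset ℕ)) (bb : List (Finset ℕ)) (r'' : I.C) (S'' : Finset ℕ → Set I.C) : Prop :=
  I.le δ r'' r ∧ HHO α δ 𝒰 Z r'' (extL C bb) ∧ I.InU α 𝒰 r'' S'' ∧
    GoodN α δ 𝒰 Z ν' r'' r'' (extL C bb) S''

private theorem s35_good (hν'δ : ν' ≤ δ) {c' r₁ : I.C} {C : Finset (Finset ℕ)}
    {S'' : Finset ℕ → Set I.C} (h : GoodN α δ 𝒰 Z ν' c' r₁ C S'') :
    GoodN α δ 𝒰 Z ν' (I.glue ν' c' r₁) (I.glue ν' c' r₁) C S'' := by
  unfold GoodN at h ⊢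
  have h' := Fo.mono (P := I.PP ν') (q := I.glue ν' c' r₁) h (glue_le_left (I := I))
  filter_upwards [h', GC_op2 (P := I.PP ν') (fun a p : I.C => I.glue ν' a p)]
    with g h1 h2 hg bb hbb hFU
  obtain ⟨r₂, h3, h4, h5, h6⟩ := h1 hg bb hbb hFU
  obtain ⟨a, ha, hah, ha1, ha2⟩ := mem_common (P := I.PP ν') h4 hg
  have h7 : I.le δ (I.glue ν' a r₂) r₂ := glue_le ha1
  refine ⟨I.glue ν' a r₂, h2 a r₂ hah h3, mem_up (P := I.PP ν') ha (left_le_glue (I := I)), ?_, HHO.mono h6 h7⟩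
  rw [le_glue_iff hν'δ]
  refine ⟨I.le_trans' ν' glue_le_left (I.le_trans' ν' ha2 glue_le_left), fun γ h8 h9 => ?_⟩
  exact (I.le_trans' δ h7 h5) γ h9

private theorem s35_dense (hαν : α ≤ ν) (hνν' : ν ≤ ν') (hνδ : ν' ≤ δ) (h : I.SouAt α 𝒰 p₀)
    (hν' : I.SouAt ν' (I.cutF α 𝒰) p₀) {r' a : I.C} {C : Finset (Finset ℕ)}
    (hr : I.le δ r' p₀) (hH : HHO α δ 𝒰 Z r' C) (ha : I.le ν a r') :
    ∃ r'', I.le ν r'' a ∧ I.le δ r'' r' ∧ HHO α δ 𝒰 Z r'' C ∧ ∃ S'' : Finset ℕ → Set I.C,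
      I.InU α 𝒰 r'' S'' ∧ GoodN α δ 𝒰 Z ν' r'' r'' C S'' := by
  have h1 : I.le δ (I.glue ν a r') r' := glue_le ha
  obtain ⟨c', hc', S'', hS1, hS2⟩ := good_exists (ν := ν') (hαν.trans hνν') hνδ h hν'
    (r := I.glue ν a r') (c := I.glue ν a r') (C := C)
    (I.le_trans' δ h1 hr) (HHO.mono hH h1) (I.le_refl' ν' _)
  have h2 : I.le δ (I.glue ν' c' (I.glue ν a r')) (I.glue ν a r') := glue_le hc'
  refine ⟨I.glue ν' c' (I.glue ν a r'), ?_, I.le_trans' δ h2 h1,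
    HHO.mono hH (I.le_trans' δ h2 h1), S'', inU_mono hS1 ?_, s35_good hνδ hS2⟩
  · exact I.le_trans' ν (I.le_stage (hνν'.trans hνδ) h2) glue_le_left
  · exact I.le_stage (hαν.trans hνν') glue_le_left

private theorem s35_claim (hαν : α ≤ ν) (hνν' : ν ≤ ν') (hνδ : ν' ≤ δ) (h : I.SouAt α 𝒰 p₀)
    (hν' : I.SouAt ν' (I.cutF α 𝒰) p₀) {r c : I.C} {C : Finset (Finset ℕ)}
    {S : Finset ℕ → Set I.C} (hr : I.le δ r p₀) (hS : GoodN α δ 𝒰 Z ν c r C S) :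
    Fo (P := I.PP ν) c (fun g => ∀ bb, BlL bb → FUl bb ⊆ ev (P := I.PP ν) (I.cutN α S) g →
      ∃ (r'' : I.C) (S'' : Finset ℕ → Set I.C), g.has r'' ∧ g.has S'' ∧ (r'' : I.PP ν) ∈ g ∧
        Next35 α ν' δ 𝒰 Z r C bb r'' S'') := by
  classical
  have key : ∀ C' : Finset (Finset ℕ), ∀ᶠ g in GC (I.PP ν), ∀ r' : I.C, g.has r' →
      (I.le δ r' p₀ ∧ HHO α δ 𝒰 Z r' C' → (r' : I.PP ν) ∈ g →
        ∃ (r'' : I.C) (S'' : Finset ℕ → Set I.C), g.has r'' ∧ g.has S'' ∧ (r'' : I.PP ν) ∈ g ∧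
          I.le δ r'' r' ∧ HHO α δ 𝒰 Z r'' C' ∧ I.InU α 𝒰 r'' S'' ∧
            GoodN α δ 𝒰 Z ν' r'' r'' C' S'') := by
    intro C'
    refine GC_normalH fun r' => ?_
    by_cases h1 : I.le δ r' p₀ ∧ HHO α δ 𝒰 Z r' C'
    · obtain ⟨D, hD⟩ : ∃ D : Set I.C, D = {r'' | I.le δ r'' r' ∧ HHO α δ 𝒰 Z r'' C' ∧
          ∃ S'' : Finset ℕ → Set I.C, I.InU α 𝒰 r'' S'' ∧ GoodN α δ 𝒰 Z ν' r'' r'' C' S''} :=
        ⟨_, rfl⟩
      have hD' : ∀ d ∈ D, I.le δ d r' ∧ HHO α δ 𝒰 Z d C' ∧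
          ∃ S'' : Finset ℕ → Set I.C, I.InU α 𝒰 d S'' ∧ GoodN α δ 𝒰 Z ν' d d C' S'' := by
        intro d hd
        rw [hD] at hd
        exact hd
      have hF : ∃ F : I.C → (Finset ℕ → Set I.C), ∀ d ∈ D, I.InU α 𝒰 d (F d) ∧
          GoodN α δ 𝒰 Z ν' d d C' (F d) := by
        choose! F hF using fun d (hd : d ∈ D) => (hD' d hd).2.2
        exact ⟨F, hF⟩
      obtain ⟨F, hF⟩ := hF
      have h2 : ∀ a : I.PP ν, a ≤ (r' : I.PP ν) → ∃ d ≤ a, d ∈ (D : Set (I.PP ν)) := by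
        intro a ha
        obtain ⟨r'', h3, h4, h5, h6⟩ := s35_dense hαν hνν' hνδ h hν' h1.1 h1.2 ha
        refine ⟨r'', h3, ?_⟩
        rw [hD]
        exact ⟨h4, h5, h6⟩
      filter_upwards [GC_denseBelow' (P := I.PP ν) (D := D) (p := r') h2,
        GC_op (P := I.PP ν) F] with g h3 h4 _ hg
      obtain ⟨d, hd, hdg, hdh⟩ := h3 hg
      exact ⟨d, F d, hdh, h4 d hdh, hdg, (hD' d hd).1, (hD' d hd).2.1, (hF d hd).1, (hF d hd).2⟩
    · filter_upwards with g h2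
      exact absurd h2 h1
  unfold GoodN at hS
  filter_upwards [hS, eventually_countable_forall.2 key] with g h1 h2 hg bb hbb hFU
  obtain ⟨r', h3, h4, h5, h6⟩ := h1 hg bb hbb hFU
  obtain ⟨r'', S'', h7, h8, h9, h10, h11, h12, h13⟩ :=
    h2 (extL C bb) r' h3 ⟨I.le_trans' δ h5 hr, h6⟩ h4
  exact ⟨r'', S'', h7, h8, h9, I.le_trans' δ h10 h5, h11, h12, h13⟩

private theorem s35_length (n : ℕ) : ∀ (bb : List (Finset ℕ)) (m : ℕ), m ≤ n + 1 → BlL bb →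
    (∀ x ∈ bb, ∀ i ∈ x, m ≤ i ∧ i ≤ n) → bb.length + m ≤ n + 1 := by
  intro bb
  induction bb with
  | nil =>
    intro m hm _ _
    simpa using hm
  | cons x l ih =>
    intro m hm hb hx
    obtain ⟨h1, h2⟩ := hb
    rw [List.pairwise_cons] at h1
    obtain ⟨i, hi⟩ := h2 x List.mem_cons_self
    have h3 := hx x List.mem_cons_self i hi
    have h4 := ih (m + 1) (by omega) ⟨h1.2, fun b hb => h2 b (List.mem_cons_of_mem _ hb)⟩
      (fun y hy j hj => by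
        have h5 := h1.1 y hy i hi j hj
        have h6 := hx y (List.mem_cons_of_mem _ hy) j hj
        exact ⟨by omega, h6.2⟩)
    rw [List.length_cons]
    omega

private theorem s35_decT (S : Finset ℕ → Set I.C) (bb : List (Finset ℕ)) :
    Dec (P := I.PP ν) (fun g => BlL bb ∧ FUl bb ⊆ ev (P := I.PP ν) (I.cutN α S) g) := by
  refine ((dec_const (BlL bb)).and (dec_all fun x : Finset ℕ =>
    (dec_const (x ∈ FUl bb)).imp (dec_ev (P := I.PP ν) (I.cutN α S) x))).congr ?_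
  filter_upwards with g
  exact Iff.rfl

private theorem s35_dec {r : I.C} {C : Finset (Finset ℕ)} (S S' : Finset ℕ → Set I.C) :
    Dec (P := I.PP ν) (fun g => ∀ b, b ∈ ev (P := I.PP ν) (I.cutN α S') g → ∀ bb, BlL bb →
        FUl bb ⊆ ev (P := I.PP ν) (I.cutN α S) g → (∀ x ∈ bb, ∀ i ∈ x, i ≤ mx b) →
          ∃ (r'' : I.C) (S'' : Finset ℕ → Set I.C), g.has r'' ∧ g.has S'' ∧ (r'' : I.PP ν) ∈ g ∧
            Next35 α ν' δ 𝒰 Z r C bb r'' S'' ∧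
            ∀ b' ∈ ev (P := I.PP ν) (I.cutN α S') g, Bef b b' →
              b' ∈ ev (P := I.PP ν) (I.cutN α S'') g) := by
  have h1 : ∀ (b : Finset ℕ) (bb : List (Finset ℕ)) (r'' : I.C) (S'' : Finset ℕ → Set I.C),
      Dec (P := I.PP ν) (fun g => (r'' : I.PP ν) ∈ g ∧ Next35 α ν' δ 𝒰 Z r C bb r'' S'' ∧
        ∀ b' : Finset ℕ, b' ∈ ev (P := I.PP ν) (I.cutN α S') g → Bef b b' →
          b' ∈ ev (P := I.PP ν) (I.cutN α S'') g) := fun b bb r'' S'' =>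
    (dec_mem _).and ((dec_const _).and (dec_all fun b' =>
      (dec_ev _ b').imp ((dec_const _).imp (dec_ev _ b'))))
  have h2 : ∀ (b : Finset ℕ) (bb : List (Finset ℕ)), Dec (P := I.PP ν) (fun g =>
      ∃ r'' : I.C, g.has r'' ∧ ∃ S'' : Finset ℕ → Set I.C, g.has S'' ∧
        ((r'' : I.PP ν) ∈ g ∧ Next35 α ν' δ 𝒰 Z r C bb r'' S'' ∧
        ∀ b' : Finset ℕ, b' ∈ ev (P := I.PP ν) (I.cutN α S') g → Bef b b' →
          b' ∈ ev (P := I.PP ν) (I.cutN α S'') g)) := fun b bb =>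
    dec_exH fun r'' => dec_exH fun S'' => h1 b bb r'' S''
  have h3 : Dec (P := I.PP ν) (fun g => ∀ b : Finset ℕ,
      b ∈ ev (P := I.PP ν) (I.cutN α S') g → ∀ bb : List (Finset ℕ),
      (BlL bb ∧ FUl bb ⊆ ev (P := I.PP ν) (I.cutN α S) g) →
      (∀ x ∈ bb, ∀ i ∈ x, i ≤ mx b) → ∃ r'' : I.C, g.has r'' ∧
        ∃ S'' : Finset ℕ → Set I.C, g.has S'' ∧
        ((r'' : I.PP ν) ∈ g ∧ Next35 α ν' δ 𝒰 Z r C bb r'' S'' ∧
        ∀ b' : Finset ℕ, b' ∈ ev (P := I.PP ν) (I.cutN α S') g → Bef b b' →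
          b' ∈ ev (P := I.PP ν) (I.cutN α S'') g)) :=
    dec_all fun b => (dec_ev _ b).imp (dec_all fun bb => (s35_decT S bb).imp
      ((dec_const _).imp (h2 b bb)))
  refine h3.congr ?_
  filter_upwards with g
  constructor
  · intro h b hb bb hbb hF hm
    obtain ⟨r'', h4, S'', h5, h6, h7, h8⟩ := h b hb bb ⟨hbb, hF⟩ hm
    exact ⟨r'', S'', h4, h5, h6, h7, h8⟩
  · intro h b hb bb hbb hm
    obtain ⟨r'', S'', h4, h5, h6, h7, h8⟩ := h b hb bb hbb.1 hbb.2 hm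
    exact ⟨r'', h4, S'', h5, h6, h7, h8⟩

/-- PROOF. Let `c₁ ≤_ν c` and let `g ∋ c₁` be a sufficiently good generic of stage `ν`, `U = evF (cutF α 𝒰) g`. For every block list `bb` with `FUl bb ⊆ ev (cutN α S) g` there is, by `GoodN` for `c ∈ g`, a condition `r' ∈ g` of the hull, `r' ≤_δ r`, with `HHO r' (extL C bb)`. CLAIM: there are `r'' ∈ g` and `S''`, both in the hull, with
`Next35 ... bb r'' S''`. Indeed the set of the `a` such that `a ≤_ν r''` for some `r'' ≤_δ r'`, `S''` with `Next35 ... r'' S''` is dense below `r'` at the stage `ν`: for `a ≤_ν r'` let `r₁ = glue ν a r' ≤_δ r'`; by `good_exists` at the stage `ν'` (for `r₁`, `c = r₁`, `extL C bb`) there are `c' ≤_{ν'} r₁` and `S''` with `InU α 𝒰 c' S''`, `GoodN ν' c' r₁ (extL C bb) S''`. Let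
`r'' = glue ν' c' r₁ ≤_δ r₁`. `GoodN ν' r'' r'' ... S''`: for a good generic `g' ∋ r''` of stage `ν'` and a block list `bb'` there is `r₂ ∈ g'`, `r₂ ≤_δ r₁`, `HHO r₂ (extL (extL C bb) bb')`; the conditions `r₂`, `r''` in `g'` have a common extension `a'` at the stage `ν'`, and `glue ν' a' r₂ ≤_δ r₂`; it is `≤_δ r''` because from `ν'` on `r''` agrees with `r₁` and `r₂ ≤_δ r₁`; it can be
found in `g'` and the hull by genericity (density argument below `a'`). `r'' ≤_ν a`. (Normality: choose `r''`, `S''` by operations of the data.)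
Now choose by `int_choice` (relations internal by `gs_rel2`, `gs_relB`, ground sorts: conditions of the hull in `g`; names `S''` of the hull, `K = univ`) an internal function `bb ↦ (r''_bb, S''_bb)` for the block lists `bb` with `FUl bb ⊆ ev (cutN α S) g` (arbitrary for the others). The sets `ev (cutN α S''_bb) g` are in `U` (`stage_of_inU`), for the other lists put
`univ`; the family is internal (`gs_intB`). By `diag_lists_i` (its conclusion for the lists of subsets of `range (mx b + 1)` of length `≤ mx b + 1`) there is `A` internal with `fu A ∈ U` and `c' ∈ ev (cutN α S''_bb) g` for all `b < c'` in `fu A` and these `bb`. Let `S*` be a name with `InU` and `ev (cutN α S*) g ⊆ fu A` (`exists_inU`). The statement holds in `g` (a block list whose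
elements are subsets of `[0, mx b]` has length `≤ mx b + 1`); it is decided, so it is forced by some condition of `g`. -/
theorem step35 (hαν : α ≤ ν) (hνν' : ν ≤ ν') (hνδ : ν' ≤ δ) (h : I.SouAt α 𝒰 p₀)
    (hν : I.SouAt ν (I.cutF α 𝒰) p₀) (hν' : I.SouAt ν' (I.cutF α 𝒰) p₀) {r c : I.C}
    {C : Finset (Finset ℕ)} {S : Finset ℕ → Set I.C} (hr : I.le δ r p₀) (hc : I.le ν c r)
    (hS : GoodN α δ 𝒰 Z ν c r C S) :
    ∃ c', I.le ν c' c ∧ ∃ S' : Finset ℕ → Set I.C, I.InU α 𝒰 c' S' ∧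
      Fo (P := I.PP ν) c' (fun g => ∀ b, b ∈ ev (P := I.PP ν) (I.cutN α S') g → ∀ bb, BlL bb →
        FUl bb ⊆ ev (P := I.PP ν) (I.cutN α S) g → (∀ x ∈ bb, ∀ i ∈ x, i ≤ mx b) →
          ∃ (r'' : I.C) (S'' : Finset ℕ → Set I.C), g.has r'' ∧ g.has S'' ∧ (r'' : I.PP ν) ∈ g ∧
            Next35 α ν' δ 𝒰 Z r C bb r'' S'' ∧
            ∀ b' ∈ ev (P := I.PP ν) (I.cutN α S') g, Bef b b' →
              b' ∈ ev (P := I.PP ν) (I.cutN α S'') g) := by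
  classical
  have hclaim := s35_claim hαν hνν' hνδ h hν' hr hS
  have hdec := fun S' : Finset ℕ → Set I.C =>
    s35_dec (α := α) (ν := ν) (ν' := ν') (δ := δ) (𝒰 := 𝒰) (Z := Z) (r := r) (C := C) S S'
  have hinU : ∀ᶠ g in GC (I.PP ν), ∀ y : I.C × (Finset ℕ → Set I.C), g.has y →
      (I.InU α 𝒰 y.1 y.2 → (y.1 : I.PP ν) ∈ g →
        ev (P := I.PP ν) (I.cutN α y.2) g ∈ evF (P := I.PP ν) (I.cutF α 𝒰) g) := by
    refine GC_normalH fun y => ?_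
    by_cases h1 : I.InU α 𝒰 y.1 y.2
    · filter_upwards [stage_of_inU hαν h1] with g h2 _ h3
      exact h2 h3
    · filter_upwards with g h2
      exact absurd h2 h1
  obtain ⟨g, ⟨e1, e2, e3, e4, e5, e6, e7, e8, e9, e10, e11⟩, hcg⟩ :=
    GC_exists' (P := I.PP ν) (Filter.Eventually.and hclaim (Filter.Eventually.and hν
      ((exists_inU hαν h).and (hinU.and ((Dec.truthH (Y := Finset ℕ → Set I.C) hdec).and ((GC_gsok (P := I.PP ν)
        (fun y : I.C × (Finset ℕ → Set I.C) => ({y.1} : Set (I.PP ν)))).and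
      ((gs_relB (P := I.PP ν) (ι := List (Finset ℕ))
        (fun y : I.C × (Finset ℕ → Set I.C) => ({y.1} : Set (I.PP ν)))
        (fun y bb => Next35 α ν' δ 𝒰 Z r C bb y.1 y.2)).and
      ((gs_intB (P := I.PP ν) (ι := Finset ℕ)
        (fun y : I.C × (Finset ℕ → Set I.C) => ({y.1} : Set (I.PP ν)))
        (fun y b => I.cutN α y.2 b)).and
      ((int_of_dec (P := I.PP ν) (fun bb => s35_decT (ν := ν) (α := α) S bb)).and
      ((GC_pair (P := I.PP ν) (Y := I.C) (Z := Finset ℕ → Set I.C)).and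
        (GC_club (P := I.PP ν) club_StdF))))))))))) c
  have hp₀ : (p₀ : I.PP ν) ∈ g :=
    mem_up (P := I.PP ν) hcg (I.le_trans' ν hc (I.le_stage (hνν'.trans hνδ) hr))
  obtain ⟨hDir, hU⟩ := e2 hp₀
  have hf1 : Fact (GSok g
    (fun y : I.C × (Finset ℕ → Set I.C) => ({y.1} : Set (I.PP ν)))) := ⟨e6⟩
  have hA := e1 hcg
  have hmem : ∀ y : GS g (fun y : I.C × (Finset ℕ → Set I.C) => ({y.1} : Set (I.PP ν))),
      (y.1.1 : I.PP ν) ∈ g := by
    rintro ⟨y, hy, c', hc', hg⟩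
    have hc'' : c' = y.1 := hc'
    subst hc''
    exact hg
  have hmk : ∀ (r'' : I.C) (S'' : Finset ℕ → Set I.C), g.has r'' → g.has S'' →
      (r'' : I.PP ν) ∈ g → ∃ y : GS g (fun y : I.C × (Finset ℕ → Set I.C) =>
        ({y.1} : Set (I.PP ν))), y.1 = (r'', S'') := fun r'' S'' h1 h2 h3 =>
    ⟨⟨(r'', S''), (e10 _ _).2 ⟨h1, h2⟩, r'', rfl, h3⟩, rfl⟩
  have hne : Nonempty (GS g (fun y : I.C × (Finset ℕ → Set I.C) => ({y.1} : Set (I.PP ν)))) := by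
    obtain ⟨r'', S'', h1, h2, h3, _⟩ := hA [] ⟨List.Pairwise.nil, by simp⟩ (by
      rintro b ⟨l, hl, hl0, _⟩
      exact absurd (List.sublist_nil.1 hl) hl0)
    obtain ⟨y, _⟩ := hmk r'' S'' h1 h2 h3
    exact ⟨y⟩
  obtain ⟨f, hf, hfR⟩ := int_choice' (𝔐 := g.M) (α := List (Finset ℕ))
    (β := GS g (fun y : I.C × (Finset ℕ → Set I.C) => ({y.1} : Set (I.PP ν))))
    (R := fun bb y => (BlL bb ∧ FUl bb ⊆ ev (P := I.PP ν) (I.cutN α S) g) ∧
      Next35 α ν' δ 𝒰 Z r C bb y.1.1 y.1.2)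
    (int_and (int_comp e9 intF_fst) (int_comp e7 (intF_pair intF_snd intF_fst)))
  have hfR' : ∀ bb, BlL bb → FUl bb ⊆ ev (P := I.PP ν) (I.cutN α S) g →
      Next35 α ν' δ 𝒰 Z r C bb (f bb).1.1 (f bb).1.2 := by
    intro bb h1 h2
    obtain ⟨r'', S'', h3, h4, h5, h6⟩ := hA bb h1 h2
    obtain ⟨y, hy⟩ := hmk r'' S'' h3 h4 h5
    refine (hfR bb ⟨y, ⟨h1, h2⟩, ?_⟩).2
    rw [hy]
    exact h6
  obtain ⟨Sf, hSf⟩ : ∃ Sf : List (Finset ℕ) → Set (Finset ℕ), ∀ bb b', b' ∈ Sf bb ↔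
      ((BlL bb ∧ FUl bb ⊆ ev (P := I.PP ν) (I.cutN α S) g) →
        b' ∈ ev (P := I.PP ν) (I.cutN α (f bb).1.2) g) :=
    ⟨fun bb => {b' | (BlL bb ∧ FUl bb ⊆ ev (P := I.PP ν) (I.cutN α S) g) →
        b' ∈ ev (P := I.PP ν) (I.cutN α (f bb).1.2) g}, fun _ _ => Iff.rfl⟩
  have e8' : Int g.M (fun q : GS g (fun y : I.C × (Finset ℕ → Set I.C) =>
      ({y.1} : Set (I.PP ν))) × Finset ℕ => q.2 ∈ ev (P := I.PP ν) (I.cutN α q.1.1.2) g) := e8
  have hi : Int g.M (fun q : List (Finset ℕ) × Finset ℕ => q.2 ∈ Sf q.1) := by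
    refine int_congr (fun q => (hSf q.1 q.2).symm) (int_imp (int_comp e9 intF_fst) ?_)
    exact int_comp (p := fun q : GS g (fun y : I.C × (Finset ℕ → Set I.C) =>
      ({y.1} : Set (I.PP ν))) × Finset ℕ => q.2 ∈ ev (P := I.PP ν) (I.cutN α q.1.1.2) g)
      (f := fun q : List (Finset ℕ) × Finset ℕ => (f q.1, q.2)) e8'
      (intF_pair (intF_comp hf intF_fst) intF_snd)
  have hSU : ∀ l, Sf l ∈ evF (P := I.PP ν) (I.cutF α 𝒰) g := by
    intro l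
    by_cases hl : BlL l ∧ FUl l ⊆ ev (P := I.PP ν) (I.cutN α S) g
    · have h1 := hfR' l hl.1 hl.2
      refine Filter.mem_of_superset (e4 (f l).1 (f l).2.1 h1.2.2.1 (hmem (f l))) ?_
      intro b' hb'
      exact (hSf l b').2 fun _ => hb'
    · exact Filter.mem_of_superset Filter.univ_mem fun b' _ => (hSf l b').2 fun h1 => absurd h1 hl
  have hstd : StdF g.M := e11
  obtain ⟨A, hAi, hAB, hAU, -, -, hAd⟩ := diag_lists_i hU Sf hi hSU (S₀ := Set.univ)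
    Filter.univ_mem
  obtain ⟨S', hS'h, ⟨c₂, hc₂h, hc₂g, hc₂U⟩, hS'sub⟩ := e3 hp₀ (fu A) hAU
  obtain ⟨n, hn⟩ := e5 S' hS'h (by
    intro b hb bb hbb hFU hmx
    refine ⟨(f bb).1.1, (f bb).1.2, ((e10 _ _).1 (f bb).2.1).1, ((e10 _ _).1 (f bb).2.1).2,
      hmem (f bb), hfR' bb hbb hFU, fun b' hb' hbef => ?_⟩
    have h1 := hAd b (hS'sub hb) b' (hS'sub hb') hbef bb (by
      have h2 := s35_length (mx b) bb 0 (by omega) hbb (fun x hx i hi => ⟨by omega, hmx x hx i hi⟩)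
      omega) (fun x hx i hi => Finset.mem_range.2 (Nat.lt_succ_of_le (hmx x hx i hi)))
    exact (hSf bb b').1 h1 ⟨hbb, hFU⟩)
  obtain ⟨a, ha, _, ha1, ha2⟩ := mem_common (P := I.PP ν) hcg hc₂g
  obtain ⟨a', _, _, ha3, ha4⟩ := mem_common (P := I.PP ν) ha (G_mem g n)
  exact ⟨a', I.le_trans' ν ha3 ha1, S',
    inU_mono hc₂U (I.le_stage hαν (I.le_trans' ν ha3 ha2)), Fo.mono hn ha4⟩

end Pool.Agent.CSI
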